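import Pool.Agent.Lib_MP_27c196_co.R.Defs

/-! H24 R, piece P5: the weight (blueprint R5) -/

set_option linter.unusedVariables false

noncomputable section

namespace H24

open Finset

variable {n r : ℕ} {B : Finset (Fin 3 → ℕ)}

/-! #### auxiliary facts -/

private lemma P5_clamp_nonneg (r : ℕ) (t : ℤ) : 0 ≤ clampf r t := le_max_left _ _

private lemma P5_clamp_le_one (r : ℕ) (t : ℤ) : clampf r t ≤ 1 :=
  max_le zero_le_one (min_le_left _ _)

private lemma P5_clamp_pos {r : ℕ} (hr : 0 < r) {t : ℤ} (h : 0 < clampf r t) : (r : ℤ) < |t| := by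
  have hr' : (0 : ℝ) < r := by exact_mod_cast hr
  unfold clampf at h
  rcases lt_max_iff.1 h with h1 | h1
  · exact absurd h1 (lt_irrefl _)
  · have h2 := (lt_min_iff.1 h1).2
    have h3 : 0 < |(t : ℝ)| - r := by
      rcases div_pos_iff.1 h2 with h4 | h4
      · exact h4.1
      · exact absurd h4.2 (not_lt.2 hr'.le)
    have h4 : ((r : ℤ) : ℝ) < ((|t| : ℤ) : ℝ) := by
      push_cast
      linarith
    exact_mod_cast h4

private lemma P5_clamp_zero {r : ℕ} (hr : 0 < r) {t : ℤ} (h : |t| ≤ (r : ℤ)) : clampf r t = 0 := by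
  apply le_antisymm _ (P5_clamp_nonneg r t)
  by_contra h1
  have := P5_clamp_pos hr (not_le.1 h1)
  omega

private lemma P5_clamp_one {r : ℕ} (hr : 0 < r) {t : ℤ} (h : 2 * (r : ℤ) ≤ |t|) :
    clampf r t = 1 := by
  have hr' : (0 : ℝ) < r := by exact_mod_cast hr
  apply le_antisymm (P5_clamp_le_one r t)
  unfold clampf
  apply le_max_of_le_right
  apply le_min le_rfl
  rw [le_div_iff₀ hr']
  have h4 : ((2 * (r : ℤ) : ℤ) : ℝ) ≤ ((|t| : ℤ) : ℝ) := by exact_mod_cast h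
  push_cast at h4
  linarith

private lemma P5_clamp_lt_one {r : ℕ} (hr : 0 < r) {t : ℤ} (h : clampf r t < 1) :
    |t| < 2 * (r : ℤ) := by
  by_contra h1
  rw [P5_clamp_one hr (not_lt.1 h1)] at h
  exact lt_irrefl _ h

private lemma P5_clamp_lip {r : ℕ} (hr : 0 < r) {d : ℕ} {a b : ℤ} (h : |a - b| ≤ (d : ℤ)) :
    clampf r a ≤ clampf r b + d / r := by
  have hr' : (0 : ℝ) < r := by exact_mod_cast hr
  have hd : (0 : ℝ) ≤ (d : ℝ) / r := by positivity
  have h1 : |a| ≤ |b| + d := by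
    have h2 := abs_sub_abs_le_abs_sub a b
    omega
  have h3 : |(a : ℝ)| ≤ |(b : ℝ)| + d := by
    have h4 : ((|a| : ℤ) : ℝ) ≤ ((|b| + d : ℤ) : ℝ) := by exact_mod_cast h1
    push_cast at h4
    exact h4
  have h5 : (|(a : ℝ)| - r) / r ≤ (|(b : ℝ)| - r) / r + d / r := by
    rw [← add_div]
    exact div_le_div_of_nonneg_right (by linarith) hr'.le
  unfold clampf
  apply max_le
  · have := le_max_left (0 : ℝ) (min 1 ((|(b : ℝ)| - r) / r))
    linarith
  · have h6 : min 1 ((|(a : ℝ)| - r) / r) ≤ min 1 ((|(b : ℝ)| - r) / r) + d / r := by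
      rw [← min_add_add_right]
      apply le_min
      · exact (min_le_left _ _).trans (by linarith)
      · exact (min_le_right _ _).trans h5
    have := le_max_right (0 : ℝ) (min 1 ((|(b : ℝ)| - r) / r))
    linarith

/-- the three clamped coordinates -/
private def P5_co (r : ℕ) (z x : Fin 3 → ℕ) (i : Fin 3) : ℝ := clampf r ((x i : ℤ) - z i)

private lemma P5_wz (r : ℕ) (z x : Fin 3 → ℕ) :
    wz r z x = med (P5_co r z x 0) (P5_co r z x 1) (P5_co r z x 2) := rfl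

private lemma P5_med_pos {a : Fin 3 → ℝ} (h : 0 < med (a 0) (a 1) (a 2)) :
    ∃ i j, i ≠ j ∧ 0 < a i ∧ 0 < a j := by
  unfold med at h
  rcases lt_max_iff.1 h with h1 | h1
  · exact ⟨0, 1, by decide, (lt_min_iff.1 h1).1, (lt_min_iff.1 h1).2⟩
  · rcases lt_max_iff.1 h1 with h2 | h2
    · exact ⟨1, 2, by decide, (lt_min_iff.1 h2).1, (lt_min_iff.1 h2).2⟩
    · exact ⟨2, 0, by decide, (lt_min_iff.1 h2).1, (lt_min_iff.1 h2).2⟩

private lemma P5_le_med {a : Fin 3 → ℝ} {c : ℝ} {i j : Fin 3} (hij : i ≠ j) (hi : c ≤ a i)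
    (hj : c ≤ a j) : c ≤ med (a 0) (a 1) (a 2) := by
  unfold med
  have key : (c ≤ a 0 ∧ c ≤ a 1) ∨ (c ≤ a 1 ∧ c ≤ a 2) ∨ (c ≤ a 2 ∧ c ≤ a 0) := by
    fin_cases i <;> fin_cases j <;> simp at hij hi hj ⊢ <;> tauto
  rcases key with h | h | h
  · exact le_max_of_le_left (le_min h.1 h.2)
  · exact le_max_of_le_right (le_max_of_le_left (le_min h.1 h.2))
  · exact le_max_of_le_right (le_max_of_le_right (le_min h.1 h.2))

private lemma P5_med_lt {a : Fin 3 → ℝ} {c : ℝ} (h : med (a 0) (a 1) (a 2) < c) :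
    ∃ i j, i ≠ j ∧ a i < c ∧ a j < c := by
  unfold med at h
  have h1 := (max_lt_iff.1 h).1
  have h2 := (max_lt_iff.1 (max_lt_iff.1 h).2).1
  have h3 := (max_lt_iff.1 (max_lt_iff.1 h).2).2
  rcases min_lt_iff.1 h1 with h4 | h4
  · rcases min_lt_iff.1 h2 with h5 | h5
    · exact ⟨0, 1, by decide, h4, h5⟩
    · exact ⟨0, 2, by decide, h4, h5⟩
  · rcases min_lt_iff.1 h3 with h5 | h5
    · exact ⟨1, 2, by decide, h4, h5⟩
    · exact ⟨1, 0, by decide, h4, h5⟩

private lemma P5_med_le_add {a b : Fin 3 → ℝ} {e : ℝ} (h : ∀ i, a i ≤ b i + e) :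
    med (a 0) (a 1) (a 2) ≤ med (b 0) (b 1) (b 2) + e := by
  unfold med
  rw [← max_add_add_right, ← max_add_add_right, ← min_add_add_right, ← min_add_add_right,
    ← min_add_add_right]
  exact max_le_max (min_le_min (h 0) (h 1))
    (max_le_max (min_le_min (h 1) (h 2)) (min_le_min (h 2) (h 0)))

private lemma P5_wz_nonneg (r : ℕ) (z x : Fin 3 → ℕ) : 0 ≤ wz r z x := by
  rw [P5_wz]
  exact P5_le_med (a := P5_co r z x) (i := 0) (j := 1) (by decide) (P5_clamp_nonneg _ _)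
    (P5_clamp_nonneg _ _)

private lemma P5_wz_le_one (r : ℕ) (z x : Fin 3 → ℕ) : wz r z x ≤ 1 := by
  by_contra h
  have h1 : 1 < med (P5_co r z x 0) (P5_co r z x 1) (P5_co r z x 2) := not_le.1 h
  unfold med at h1
  have h2 : ∀ i, P5_co r z x i ≤ 1 := fun i => P5_clamp_le_one _ _
  have h3 : max (min (P5_co r z x 0) (P5_co r z x 1)) (max (min (P5_co r z x 1) (P5_co r z x 2))
      (min (P5_co r z x 2) (P5_co r z x 0))) ≤ 1 :=
    max_le ((min_le_left _ _).trans (h2 0)) (max_le ((min_le_left _ _).trans (h2 1))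
      ((min_le_left _ _).trans (h2 2)))
  exact absurd h1 (not_lt.2 h3)

private lemma P5_wt_eq {B : Finset (Fin 3 → ℕ)} (hB : B.Nonempty) (r : ℕ) (x : Fin 3 → ℕ) :
    wt r B x = B.inf' hB (fun z => wz r z x) := by
  unfold wt
  rw [dif_pos hB]

private lemma P5_wt_le {z : Fin 3 → ℕ} (hz : z ∈ B) (r : ℕ) (x : Fin 3 → ℕ) :
    wt r B x ≤ wz r z x := by
  rw [P5_wt_eq ⟨z, hz⟩]
  exact Finset.inf'_le _ hz

private lemma P5_wt_attain (hB : B.Nonempty) (r : ℕ) (x : Fin 3 → ℕ) :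
    ∃ z ∈ B, wt r B x = wz r z x := by
  rw [P5_wt_eq hB]
  exact Finset.exists_mem_eq_inf' hB _

private lemma P5_wz_pos (hr : 0 < r) {z x : Fin 3 → ℕ} (h : 0 < wz r z x) :
    ∃ i j, i ≠ j ∧ (r : ℤ) < |(x i : ℤ) - z i| ∧ (r : ℤ) < |(x j : ℤ) - z j| := by
  obtain ⟨i, j, hij, hi, hj⟩ := P5_med_pos (a := P5_co r z x) h
  exact ⟨i, j, hij, P5_clamp_pos hr hi, P5_clamp_pos hr hj⟩

private lemma P5_wz_lt (hr : 0 < r) {z x : Fin 3 → ℕ} (h : wz r z x < 1) :
    ∃ i j, i ≠ j ∧ |(x i : ℤ) - z i| < 2 * r ∧ |(x j : ℤ) - z j| < 2 * r := by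
  obtain ⟨i, j, hij, hi, hj⟩ := P5_med_lt (a := P5_co r z x) h
  exact ⟨i, j, hij, P5_clamp_lt_one hr hi, P5_clamp_lt_one hr hj⟩

private lemma P5_wz_one (hr : 0 < r) {z x : Fin 3 → ℕ} {i j : Fin 3} (hij : i ≠ j)
    (hi : 2 * (r : ℤ) ≤ |(x i : ℤ) - z i|) (hj : 2 * (r : ℤ) ≤ |(x j : ℤ) - z j|) :
    1 ≤ wz r z x := by
  rw [P5_wz]
  exact P5_le_med (a := P5_co r z x) hij (P5_clamp_one hr hi).ge (P5_clamp_one hr hj).ge

private lemma P5_wz_lip (hr : 0 < r) {d : ℕ} {x y : Fin 3 → ℕ} (h : Near d x y) (z : Fin 3 → ℕ) :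
    wz r z x ≤ wz r z y + d / r := by
  rw [P5_wz, P5_wz]
  apply P5_med_le_add
  intro i
  apply P5_clamp_lip hr
  have h1 := h i
  have h2 : (x i : ℤ) - z i - ((y i : ℤ) - z i) = (x i : ℤ) - y i := by ring
  rw [h2]
  exact h1

private lemma P5_wt_lip (hr : 0 < r) {d : ℕ} {x y : Fin 3 → ℕ} (h : Near d x y) :
    wt r B x ≤ wt r B y + d / r := by
  by_cases hB : B.Nonempty
  · obtain ⟨z, hz, hy⟩ := P5_wt_attain hB r y
    rw [hy]
    exact (P5_wt_le hz r x).trans (P5_wz_lip hr h z)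
  · have h1 : ∀ x, wt r B x = 0 := by
      intro x
      unfold wt
      rw [dif_neg hB]
    rw [h1, h1]
    positivity

private lemma P5_near_symm {d : ℕ} {x y : Fin 3 → ℕ} (h : Near d x y) : Near d y x := by
  intro i
  rw [abs_sub_comm]
  exact h i

/-- if two of the three differences are at most `c` in absolute value then the third is at most
`2 c + 2` -/
private lemma P5_third {x z : Fin 3 → ℕ} {c : ℤ} (h1 : z 0 + z 1 + z 2 ≤ x 0 + x 1 + x 2 + 2)
    (h2 : x 0 + x 1 + x 2 ≤ z 0 + z 1 + z 2) {i j : Fin 3} (hij : i ≠ j) (hc : 0 ≤ c)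
    (hi : |(x i : ℤ) - z i| ≤ c) (hj : |(x j : ℤ) - z j| ≤ c) (t : Fin 3) :
    |(x t : ℤ) - z t| ≤ 2 * c + 2 := by
  rw [abs_le] at hi hj ⊢
  fin_cases i <;> fin_cases j <;> fin_cases t <;> simp at hij hi hj ⊢ <;> omega


theorem wt_nonneg (r : ℕ) (B : Finset (Fin 3 → ℕ)) (x : Fin 3 → ℕ) : 0 ≤ wt r B x := by
  by_cases hB : B.Nonempty
  · obtain ⟨z, _, h⟩ := P5_wt_attain hB r x
    rw [h]
    exact P5_wz_nonneg _ _ _
  · unfold wt
    rw [dif_neg hB]

theorem wt_le_one (r : ℕ) (B : Finset (Fin 3 → ℕ)) (x : Fin 3 → ℕ) : wt r B x ≤ 1 := by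
  by_cases hB : B.Nonempty
  · obtain ⟨z, _, h⟩ := P5_wt_attain hB r x
    rw [h]
    exact P5_wz_le_one _ _ _
  · unfold wt
    rw [dif_neg hB]
    exact zero_le_one

/-- `wt` is `1/r`-Lipschitz in the max norm -/
theorem wt_lip (hr : 0 < r) {d : ℕ} {x y : Fin 3 → ℕ} (h : Near d x y) :
    |wt r B x - wt r B y| ≤ d / r := by
  rw [abs_le]
  have h1 := P5_wt_lip (B := B) hr h
  have h2 := P5_wt_lip (B := B) hr (P5_near_symm h)
  constructor <;> linarith

theorem act_of_wt_pos (hB : B.Nonempty) (hr : 0 < r) {x : Fin 3 → ℕ} (h : 0 < wt r B x) : Act r B x := by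
  intro z hz
  exact P5_wz_pos hr (h.trans_le (P5_wt_le hz r x))

theorem act_mono {t t' : ℕ} (h : t' ≤ t) {x : Fin 3 → ℕ} (hx : Act t B x) : Act t' B x := by
  intro z hz
  obtain ⟨i, j, hij, hi, hj⟩ := hx z hz
  have h' : (t' : ℤ) ≤ t := by exact_mod_cast h
  exact ⟨i, j, hij, lt_of_le_of_lt h' hi, lt_of_le_of_lt h' hj⟩

theorem act_near {t d : ℕ} {x y : Fin 3 → ℕ} (hx : Act (t + d) B x) (h : Near d x y) : Act t B y := by
  intro z hz
  obtain ⟨i, j, hij, hi, hj⟩ := hx z hz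
  have key : ∀ i : Fin 3, ((t + d : ℕ) : ℤ) < |(x i : ℤ) - z i| → (t : ℤ) < |(y i : ℤ) - z i| := by
    intro i hi
    have h1 := h i
    have h2 := abs_sub_le (x i : ℤ) (y i) (z i)
    push_cast at hi
    omega
  exact ⟨i, j, hij, key i hi, key j hj⟩

theorem notMem_of_act {t : ℕ} {x : Fin 3 → ℕ} (hx : Act t B x) : x ∉ B := by
  intro hB
  obtain ⟨i, _, _, hi, _⟩ := hx x hB
  rw [sub_self, abs_zero] at hi
  omega

theorem wt_one_of_act (hB : B.Nonempty) (hr : 0 < r) {x : Fin 3 → ℕ} (h : Act (2 * r) B x) : wt r B x = 1 := by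
  apply le_antisymm (wt_le_one r B x)
  obtain ⟨z, hz, h1⟩ := P5_wt_attain hB r x
  rw [h1]
  obtain ⟨i, j, hij, hi, hj⟩ := h z hz
  push_cast at hi hj
  exact P5_wz_one hr hij hi.le hj.le

/-- if for every `z ∈ B` some coordinate of `x - z` is at least `4r+2` then two are at least `2r` (the sums of `x` and
`z` differ by at most 2) -/
theorem wt_one_of_far (hB : B.Nonempty) (hBs : B ⊆ Lam (n + 2)) (hr : 0 < r) {x : Fin 3 → ℕ}
    (hx : n ≤ x 0 + x 1 + x 2) (hx' : x 0 + x 1 + x 2 ≤ n + 2)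
    (h : ∀ z ∈ B, ∃ i, (4 * r + 2 : ℤ) ≤ |(x i : ℤ) - z i|) : wt r B x = 1 := by
  apply le_antisymm (wt_le_one r B x)
  obtain ⟨z, hz, h1⟩ := P5_wt_attain hB r x
  rw [h1]
  obtain ⟨i, hi⟩ := h z hz
  have hzs := mem_Lam.1 (hBs hz)
  by_contra hlt
  obtain ⟨a, b, hab, ha, hb⟩ := P5_wz_lt hr (not_le.1 hlt)
  have h2 := P5_third (x := x) (z := z) (c := 2 * r - 1) (by omega) (by omega) hab (by omega)
    (by omega) (by omega) i
  omega

/-- the weight vanishes near `B` -/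
theorem wt_zero_near {z x : Fin 3 → ℕ} (hz : z ∈ B) (hr : 0 < r) (h : Near r z x) : wt r B x = 0 := by
  apply le_antisymm _ (wt_nonneg r B x)
  refine (P5_wt_le hz r x).trans ?_
  by_contra h1
  obtain ⟨i, j, hij, hi, _⟩ := P5_wz_pos hr (not_le.1 h1)
  have h2 := h i
  rw [abs_sub_comm] at h2
  omega

/-- Let `x` be a witness, `n ≤ sum x ≤ n+2`. If `wt x < wt l`: `z` realising `wt x < 1` has two indices with
`|x_i - z_i| < 2r`, hence the third `≤ 4r+2`, and `wt l > 0` gives two indices with `|l_i - z_i| > r`.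
If `wt l < wt x`: `z` realising `wt l`; `wt x > 0` gives two indices with `|x_i - z_i| > r`. -/
theorem collar_spec (hB : B.Nonempty) (hBs : B ⊆ Lam (n + 2)) (hr : 20 ≤ r) {l : Fin 3 → ℕ}
    (hl : l ∈ Lam (n + 2)) (h : Collar r B l) :
    ∃ z ∈ B, (∃ i j, i ≠ j ∧ (r : ℤ) - 2 < |(l i : ℤ) - z i| ∧ (r : ℤ) - 2 < |(l j : ℤ) - z j|) ∧
      ∀ i, |(l i : ℤ) - z i| ≤ 4 * r + 10 := by
  have hr0 : 0 < r := by omega
  obtain ⟨x, hnear, hs1, hs2, hne⟩ := h
  have hls := mem_Lam.1 hl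
  have hdist : ∀ i (z : Fin 3 → ℕ), |(l i : ℤ) - z i| ≤ |(x i : ℤ) - z i| + 2 ∧
      |(x i : ℤ) - z i| ≤ |(l i : ℤ) - z i| + 2 := by
    intro i z
    have h1 := hnear i
    have h2 := abs_sub_le (l i : ℤ) (x i) (z i)
    have h3 := abs_sub_le (x i : ℤ) (l i) (z i)
    rw [abs_sub_comm (x i : ℤ) (l i)] at h3
    push_cast at h1
    constructor <;> omega
  rcases lt_or_gt_of_ne hne with hlt | hlt
  · have h1 : wt r B x < 1 := hlt.trans_le (wt_le_one r B l)
    have h2 : 0 < wt r B l := (wt_nonneg r B x).trans_lt hlt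
    obtain ⟨z, hz, hzx⟩ := P5_wt_attain hB r x
    rw [hzx] at h1
    obtain ⟨a, b, hab, ha, hb⟩ := P5_wz_lt hr0 h1
    have hzs := mem_Lam.1 (hBs hz)
    refine ⟨z, hz, ?_, ?_⟩
    · obtain ⟨i, j, hij, hi, hj⟩ := act_of_wt_pos hB hr0 h2 z hz
      exact ⟨i, j, hij, by omega, by omega⟩
    · intro i
      have h3 := P5_third (x := x) (z := z) (c := 2 * r - 1) (by omega) (by omega) hab (by omega)
        (by omega) (by omega) i
      have h4 := (hdist i z).1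
      omega
  · have h1 : wt r B l < 1 := hlt.trans_le (wt_le_one r B x)
    have h2 : 0 < wt r B x := (wt_nonneg r B l).trans_lt hlt
    obtain ⟨z, hz, hzl⟩ := P5_wt_attain hB r l
    rw [hzl] at h1
    obtain ⟨a, b, hab, ha, hb⟩ := P5_wz_lt hr0 h1
    have hzs := mem_Lam.1 (hBs hz)
    refine ⟨z, hz, ?_, ?_⟩
    · obtain ⟨i, j, hij, hi, hj⟩ := act_of_wt_pos hB hr0 h2 z hz
      have h4 := (hdist i z).2
      have h5 := (hdist j z).2
      exact ⟨i, j, hij, by omega, by omega⟩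
    · intro i
      have h3 := P5_third (x := l) (z := z) (c := 2 * r - 1) (by omega) (by omega) hab (by omega)
        (by omega) (by omega) i
      omega

/-- a collar label is in the set `Act (r-2)`, in particular not in `B` -/
theorem act_of_collar (hB : B.Nonempty) (hr : 20 ≤ r) {l : Fin 3 → ℕ} (h : Collar r B l) :
    Act (r - 2) B l := by
  have hr0 : 0 < r := by omega
  obtain ⟨x, hnear, _, _, hne⟩ := h
  rcases lt_or_gt_of_ne hne with hlt | hlt
  · have h2 : 0 < wt r B l := (wt_nonneg r B x).trans_lt hlt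
    exact act_mono (by omega) (act_of_wt_pos hB hr0 h2)
  · have h2 : 0 < wt r B x := (wt_nonneg r B l).trans_lt hlt
    have h3 := act_of_wt_pos hB hr0 h2
    have h4 : r = (r - 2) + 2 := by omega
    rw [h4] at h3
    exact act_near h3 (P5_near_symm hnear)

end H24
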