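import Pool.Agent.Lib_MP_27c196_co.R.P4
import Pool.Agent.Lib_MP_27c196_co.R.P5

/-! H24 R, piece P9: shells and counts (blueprint R9, second half) -/

set_option linter.unusedVariables false

noncomputable section

namespace H24

open Finset

variable {n r : ℕ} {B : Finset (Fin 3 → ℕ)} {u : (Fin 3 → ℕ) → Fin 3 → ℝ} {δ C1 : ℝ}

/-- the shell at scale `r` -/
def Shell (n : ℕ) (B : Finset (Fin 3 → ℕ)) (r a : ℕ) : Prop := Far n B (r / 4) a ∧ ¬ Far n B (5 * r) a

open Classical in
/-- `m_r` -/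
def mr (n : ℕ) (B : Finset (Fin 3 → ℕ)) (u : (Fin 3 → ℕ) → Fin 3 → ℝ) (r : ℕ) : ℝ :=
  ∑ a ∈ (range (n + 3)).filter (fun a => Shell n B r a), M n u a

open Classical in
/-- `S_(8r)` -/
def S8 (n : ℕ) (B : Finset (Fin 3 → ℕ)) (u : (Fin 3 → ℕ) → Fin 3 → ℝ) (r : ℕ) : ℝ :=
  ∑ a ∈ (range (n + 3)).filter (fun a => Far n B (8 * r) a), M n u a

/-- the set `S` of the coordinates of `B` and their mirror images -/
def SB (n : ℕ) (B : Finset (Fin 3 → ℕ)) : Finset ℤ :=
  B.biUnion (fun l => Finset.univ.biUnion (fun i : Fin 3 => {(l i : ℤ), (n : ℤ) + 2 - l i}))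

/-- `r` is separated -/
def Sep (n : ℕ) (B : Finset (Fin 3 → ℕ)) (r : ℕ) : Prop :=
  ∀ x ∈ SB n B, ∀ y ∈ SB n B, 10 * |x - y| ≤ r ∨ 40 * (r : ℤ) ≤ |x - y|

private theorem P9_nonempty (hd : RData n B u δ C1) : B.Nonempty := ⟨_, hd.corner 0⟩

private theorem P9_far_mono {t t' : ℕ} (h : t' ≤ t) {a : ℕ} (hf : Far n B t a) : Far n B t' a := by
  intro l hl i
  have h1 := hf l hl i
  constructor
  · have := h1.1; omega
  · have := h1.2; omega

private theorem P9_mem_SB {z : Fin 3 → ℕ} (hz : z ∈ B) (i : Fin 3) :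
    (z i : ℤ) ∈ SB n B ∧ (n : ℤ) + 2 - z i ∈ SB n B := by
  constructor
  · rw [SB, mem_biUnion]
    exact ⟨z, hz, by rw [mem_biUnion]; exact ⟨i, mem_univ _, by simp⟩⟩
  · rw [SB, mem_biUnion]
    exact ⟨z, hz, by rw [mem_biUnion]; exact ⟨i, mem_univ _, by simp⟩⟩

private theorem P9_arith {r : ℕ} (hr : 20 ≤ r) {x z y : ℤ} (h1 : (r : ℤ) - 2 < |x - z|)
    (h2 : |x - z| ≤ 4 * r + 10) (hs : 10 * |z - y| ≤ r ∨ 40 * (r : ℤ) ≤ |z - y|) :
    ((r / 4 : ℕ) : ℤ) < |x - y| := by
  have e : ((r / 4 : ℕ) : ℤ) = (r : ℤ) / 4 := by push_cast; rfl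
  rw [e]
  rcases abs_cases (x - z) with ⟨a1, a2⟩ | ⟨a1, a2⟩ <;>
  rcases abs_cases (z - y) with ⟨b1, b2⟩ | ⟨b1, b2⟩ <;>
  rcases abs_cases (x - y) with ⟨c1, c2⟩ | ⟨c1, c2⟩ <;>
  rw [a1] at h1 h2 <;> rw [b1] at hs <;> rw [c1] <;> rcases hs with hs | hs <;> omega

private theorem P9_shell_aux {r : ℕ} (hr : 20 ≤ r) (hsep : Sep n B r) {z : Fin 3 → ℕ} (hz : z ∈ B)
    {i : Fin 3} {a : ℕ} (h1 : (r : ℤ) - 2 < |(a : ℤ) - z i|) (h2 : |(a : ℤ) - z i| ≤ 4 * r + 10) :
    Shell n B r a := by
  constructor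
  · intro l hl k
    constructor
    · exact P9_arith hr h1 h2 (hsep _ (P9_mem_SB hz i).1 _ (P9_mem_SB hl k).1)
    · exact P9_arith hr h1 h2 (hsep _ (P9_mem_SB hz i).1 _ (P9_mem_SB hl k).2)
  · intro hf
    have := (hf z hz i).1
    push_cast at this
    omega

/-- Take `z` and `i ≠ j` from `collar_spec`. `|l_i - z_i| ≤ 4r+10 ≤ 5r`, so `¬ Far (5r) (l i)`. If some `y ∈ SB` had `|l_i - y| ≤ r/4`
then `3r/4 - 2 < |y - z_i| ≤ 4r + 10 + r/4`, against `Sep`. -/
theorem collar_shell (hd : RData n B u δ C1) (hr : 20 ≤ r) (hsep : Sep n B r) {l : Fin 3 → ℕ}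
    (hl : l ∈ Lam (n + 2)) (h : Collar r B l) :
    ∃ z ∈ B, ∃ i j, i ≠ j ∧ Shell n B r (l i) ∧ Shell n B r (l j) ∧
      |(l i : ℤ) - z i| ≤ 5 * r ∧ |(l j : ℤ) - z j| ≤ 5 * r := by
  obtain ⟨z, hz, ⟨i, j, hij, hi, hj⟩, hall⟩ := collar_spec (P9_nonempty hd) hd.sub hr hl h
  refine ⟨z, hz, i, j, hij, ?_, ?_, ?_, ?_⟩
  · exact P9_shell_aux hr hsep hz (hi) (hall i)
  · exact P9_shell_aux hr hsep hz (hj) (hall j)
  · have := hall i; omega
  · have := hall j; omega

theorem mr_nonneg : 0 ≤ mr n B u r := by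
  unfold mr
  exact Finset.sum_nonneg fun a _ => M_nonneg n u a

theorem S8_nonneg : 0 ≤ S8 n B u r := by
  unfold S8
  exact Finset.sum_nonneg fun a _ => M_nonneg n u a

theorem M_le_mr {a : ℕ} (ha : a ≤ n + 2) (h : Shell n B r a) : M n u a ≤ mr n B u r := by
  classical
  unfold mr
  refine Finset.single_le_sum (f := fun a => M n u a) (fun b _ => M_nonneg n u b) ?_
  simp only [mem_filter, mem_range]
  exact ⟨by omega, h⟩

private theorem P9_le {k : ℕ} {l : Fin 3 → ℕ} (hl : l ∈ Lam k) (i : Fin 3) : l i ≤ k := by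
  rw [mem_Lam] at hl
  fin_cases i <;> simp <;> omega

/-- every collar label -/
theorem collar_Q (hd : RData n B u δ C1) (hn : 100000 ≤ n) (hr : 20 ≤ r) (hsep : Sep n B r)
    {mu : ℝ} (hmu : 0 ≤ mu) (Bd : Finset ℕ) (hBd : ∀ a ≤ n + 2, a ∉ Bd → Far n B 0 a ∧ M n u a ≤ mu)
    (hcard : 1000 * Bd.card ≤ n + 2) {l : Fin 3 → ℕ} (hl : l ∈ Lam (n + 2)) (h : Collar r B l) :
    √(q (u l)) ≤ 12 * mr n B u r + 80 * mu := by
  obtain ⟨z, hz, i, j, hij, hi, hj, _, _⟩ := collar_shell hd hr hsep hl h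
  have h1 := u_bound hd hn hmu Bd hBd hcard hl hij (P9_far_mono (Nat.zero_le _) hi.1)
    (P9_far_mono (Nat.zero_le _) hj.1)
  have h2 := M_le_mr (u := u) (P9_le hl i) hi
  have h3 := M_le_mr (u := u) (P9_le hl j) hj
  linarith

/-- a label is determined by two coordinates -/
private theorem P9_ext {k : ℕ} {l l' : Fin 3 → ℕ} (hl : l ∈ Lam k) (hl' : l' ∈ Lam k) {i j : Fin 3}
    (hij : i ≠ j) (hi : l i = l' i) (hj : l j = l' j) : l = l' := by
  rw [mem_Lam] at hl hl'
  funext t
  fin_cases i <;> fin_cases j <;> simp at hij hi hj ⊢ <;> fin_cases t <;> simp <;> omega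

open Classical in
private theorem P9_fiber (hr : 20 ≤ r) {i j : Fin 3} (hij : i ≠ j) {z : Fin 3 → ℕ}
    {T : Finset (Fin 3 → ℕ)}
    (hT : ∀ l ∈ T, l ∈ Lam (n + 2) ∧ Shell n B r (l i) ∧ |(l j : ℤ) - z j| ≤ 5 * r) :
    ∑ l ∈ T, M n u (l i) ≤ (11 * r : ℝ) * mr n B u r := by
  unfold mr
  rw [← Finset.sum_fiberwise_of_maps_to (s := T)
    (t := (range (n + 3)).filter (fun a => Shell n B r a)) (g := fun l => l i), Finset.mul_sum]
  · refine Finset.sum_le_sum fun a ha => ?_
    have h1 : ∑ l ∈ T.filter (fun l => l i = a), M n u (l i) =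
        ((T.filter (fun l => l i = a)).card : ℝ) * M n u a := by
      rw [Finset.sum_congr rfl (g := fun _ => M n u a), Finset.sum_const, nsmul_eq_mul]
      intro l hl
      simp only [mem_filter] at hl
      rw [hl.2]
    rw [h1]
    refine mul_le_mul_of_nonneg_right ?_ (M_nonneg n u a)
    have h2 : (T.filter (fun l => l i = a)).card ≤ 11 * r := by
      have h3 : (T.filter (fun l => l i = a)).card ≤
          (Finset.Icc ((z j : ℤ) - 5 * r) (z j + 5 * r)).card := by
        refine Finset.card_le_card_of_injOn (fun l => (l j : ℤ)) ?_ ?_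
        · intro l hl
          simp only [coe_filter, Set.mem_ofPred_eq] at hl
          simp only [mem_coe, mem_Icc]
          have h5 := abs_le.1 (hT l hl.1).2.2
          constructor <;> linarith
        · intro l hl l' hl' he
          simp only [coe_filter, Set.mem_ofPred_eq] at hl hl'
          simp only [Nat.cast_inj] at he
          exact P9_ext (hT l hl.1).1 (hT l' hl'.1).1 hij (by rw [hl.2, hl'.2]) he
      rw [Int.card_Icc] at h3
      refine le_trans h3 ?_
      omega
    exact_mod_cast h2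
  · intro l hl
    simp only [mem_filter, mem_range]
    have := P9_le (hT l hl).1 i
    exact ⟨by omega, (hT l hl).2.1⟩

/-- `r * Fc ≤ sum_{z ∈ B} sum_{(i,j), i ≠ j} sum_l (6 (M_(l_i) + M_(l_j)) + 80 mu)`, the inner sum over the `l` with `l_i, l_j` in the shell and
`|l_i - z_i|, |l_j - z_j| ≤ 5 r`; `l` is determined by `(l_i, l_j)`, each has at most `10 r + 1 ≤ 11 r` values; so the inner sum is at most
`2 * 6 * 11 r * mr + 80 mu (11 r)^2`. -/
theorem Fc_bound (hd : RData n B u δ C1) (hn : 100000 ≤ n) (hr : 20 ≤ r) (hsep : Sep n B r)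
    {mu : ℝ} (hmu : 0 ≤ mu) (Bd : Finset ℕ) (hBd : ∀ a ≤ n + 2, a ∉ Bd → Far n B 0 a ∧ M n u a ≤ mu)
    (hcard : 1000 * Bd.card ≤ n + 2) :
    Fc n r B u ≤ 60000 * B.card * (mr n B u r + r * mu) := by
  classical
  set P : Finset ((Fin 3 → ℕ) × (Fin 3 × Fin 3)) :=
    B ×ˢ ((univ : Finset (Fin 3 × Fin 3)).filter (fun p => p.1 ≠ p.2)) with hP
  set T : ((Fin 3 → ℕ) × (Fin 3 × Fin 3)) → Finset (Fin 3 → ℕ) := fun p =>
    (Lam (n + 2)).filter (fun l => Shell n B r (l p.2.1) ∧ Shell n B r (l p.2.2) ∧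
      |(l p.2.1 : ℤ) - p.1 p.2.1| ≤ 5 * r ∧ |(l p.2.2 : ℤ) - p.1 p.2.2| ≤ 5 * r) with hT
  set G : ((Fin 3 → ℕ) × (Fin 3 × Fin 3)) → (Fin 3 → ℕ) → ℝ := fun p l =>
    6 * (M n u (l p.2.1) + M n u (l p.2.2)) + 80 * mu with hG
  have hG0 : ∀ p l, 0 ≤ G p l := by
    intro p l
    have h1 := M_nonneg n u (l p.2.1)
    have h2 := M_nonneg n u (l p.2.2)
    simp only [hG]
    positivity
  have hr0 : (0 : ℝ) < r := by
    have : (20 : ℝ) ≤ r := by exact_mod_cast hr
    linarith
  -- step A
  have hA : ∑ l ∈ (Lam (n + 2)).filter (fun l => Collar r B l), √(q (u l)) ≤ ∑ p ∈ P, ∑ l ∈ T p, G p l := by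
    have h1 : ∀ l ∈ (Lam (n + 2)).filter (fun l => Collar r B l),
        √(q (u l)) ≤ ∑ p ∈ P, if l ∈ T p then G p l else 0 := by
      intro l hl
      simp only [mem_filter] at hl
      obtain ⟨z, hz, i, j, hij, hi, hj, hzi, hzj⟩ := collar_shell hd hr hsep hl.1 hl.2
      have h2 := u_bound hd hn hmu Bd hBd hcard hl.1 hij (P9_far_mono (Nat.zero_le _) hi.1)
        (P9_far_mono (Nat.zero_le _) hj.1)
      have hp : (z, (i, j)) ∈ P := by
        simp only [hP, mem_product, mem_filter, mem_univ, true_and]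
        exact ⟨hz, hij⟩
      have hlT : l ∈ T (z, (i, j)) := by
        simp only [hT, mem_filter]
        exact ⟨hl.1, hi, hj, hzi, hzj⟩
      refine le_trans ?_ (Finset.single_le_sum
        (f := fun p => if l ∈ T p then G p l else 0) (fun p _ => ?_) hp)
      · simp only [if_pos hlT]
        exact h2
      · split_ifs
        · exact hG0 p l
        · exact le_rfl
    refine le_trans (Finset.sum_le_sum h1) ?_
    rw [Finset.sum_comm]
    refine Finset.sum_le_sum fun p _ => ?_
    rw [← Finset.sum_filter]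
    refine Finset.sum_le_sum_of_subset_of_nonneg ?_ (fun l _ _ => hG0 p l)
    intro l hl
    simp only [mem_filter] at hl
    exact hl.2
  -- step B
  have hB2 : ∀ p ∈ P, ∑ l ∈ T p, G p l ≤ 132 * r * mr n B u r + 9680 * r ^ 2 * mu := by
    intro p hp
    simp only [hP, mem_product, mem_filter, mem_univ, true_and] at hp
    have hij := hp.2
    have c1 : ∑ l ∈ T p, M n u (l p.2.1) ≤ (11 * r : ℝ) * mr n B u r := by
      refine P9_fiber hr hij (z := p.1) ?_
      intro l hl
      simp only [hT, mem_filter] at hl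
      exact ⟨hl.1, hl.2.1, hl.2.2.2.2⟩
    have c2 : ∑ l ∈ T p, M n u (l p.2.2) ≤ (11 * r : ℝ) * mr n B u r := by
      refine P9_fiber hr (Ne.symm hij) (z := p.1) ?_
      intro l hl
      simp only [hT, mem_filter] at hl
      exact ⟨hl.1, hl.2.2.1, hl.2.2.2.1⟩
    have c3 : ((T p).card : ℝ) ≤ (11 * r : ℝ) ^ 2 := by
      have h3 : (T p).card ≤ (11 * r) * (11 * r) := by
        have h4 : (T p).card ≤ ((Finset.Icc ((p.1 p.2.1 : ℤ) - 5 * r) (p.1 p.2.1 + 5 * r)) ×ˢ
            (Finset.Icc ((p.1 p.2.2 : ℤ) - 5 * r) (p.1 p.2.2 + 5 * r))).card := by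
          refine Finset.card_le_card_of_injOn (fun l => ((l p.2.1 : ℤ), (l p.2.2 : ℤ))) ?_ ?_
          · intro l hl
            simp only [hT, coe_filter, Set.mem_ofPred_eq] at hl
            simp only [coe_product, Set.mem_prod, mem_coe, mem_Icc]
            have h5 := abs_le.1 hl.2.2.2.1
            have h6 := abs_le.1 hl.2.2.2.2
            constructor <;> constructor <;> linarith
          · intro l hl l' hl' he
            simp only [hT, coe_filter, Set.mem_ofPred_eq] at hl hl'
            simp only [Prod.mk.injEq, Nat.cast_inj] at he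
            exact P9_ext hl.1 hl'.1 hij he.1 he.2
        rw [card_product, Int.card_Icc, Int.card_Icc] at h4
        refine le_trans h4 (Nat.mul_le_mul ?_ ?_) <;> omega
      have h7 : ((T p).card : ℝ) ≤ ((11 * r) * (11 * r) : ℕ) := by exact_mod_cast h3
      push_cast at h7
      nlinarith
    have e1 : ∑ l ∈ T p, G p l = 6 * (∑ l ∈ T p, M n u (l p.2.1) + ∑ l ∈ T p, M n u (l p.2.2)) +
        (T p).card * (80 * mu) := by
      simp only [hG]
      rw [Finset.sum_add_distrib, ← Finset.mul_sum, Finset.sum_add_distrib, Finset.sum_const,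
        nsmul_eq_mul]
    rw [e1]
    have h8 : ((T p).card : ℝ) * (80 * mu) ≤ (11 * r : ℝ) ^ 2 * (80 * mu) :=
      mul_le_mul_of_nonneg_right c3 (by positivity)
    nlinarith
  have hcardP : (P.card : ℝ) = 6 * B.card := by
    have : P.card = B.card * 6 := by
      rw [hP, card_product]
      congr 1
    rw [this]; push_cast; ring
  have hC : ∑ p ∈ P, ∑ l ∈ T p, G p l ≤ (6 * B.card : ℝ) * (132 * r * mr n B u r + 9680 * r ^ 2 * mu) := by
    refine le_trans (Finset.sum_le_sum hB2) ?_
    rw [Finset.sum_const, nsmul_eq_mul, hcardP]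
  unfold Fc
  have hm := mr_nonneg (n := n) (B := B) (u := u) (r := r)
  have h9 := le_trans hA hC
  have h10 : (1 / (r : ℝ)) * ∑ l ∈ (Lam (n + 2)).filter (fun l => Collar r B l), √(q (u l)) ≤
      (1 / (r : ℝ)) * ((6 * B.card : ℝ) * (132 * r * mr n B u r + 9680 * r ^ 2 * mu)) :=
    mul_le_mul_of_nonneg_left h9 (by positivity)
  refine le_trans h10 ?_
  have e2 : (1 / (r : ℝ)) * ((6 * B.card : ℝ) * (132 * r * mr n B u r + 9680 * r ^ 2 * mu)) =
      B.card * (792 * mr n B u r + 58080 * (r * mu)) := by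
    field_simp
    ring
  rw [e2]
  have h11 : (792 * mr n B u r + 58080 * (r * mu)) ≤ 60000 * (mr n B u r + r * mu) := by
    have : 0 ≤ (r : ℝ) * mu := by positivity
    nlinarith
  have h12 := mul_le_mul_of_nonneg_left h11 (by positivity : (0 : ℝ) ≤ (B.card : ℝ))
  linarith

/-- the set `Bd` for `mu = 2000 S8 / (n+2)`: `Bd = {a ≤ n+2 : ¬ Far (8r) a ∨ mu < M a}`; at most `6 |B| (16 r + 1)` indices are not `Far (8r)`,
and fewer than `S8 / mu = (n+2)/2000` (none if `S8 = 0`) are `Far (8r)` with `M a > mu`. -/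
theorem light_set (hr : 20 ≤ r) (hrn : 204000 * r * B.card ≤ n + 2) :
    ∃ Bd : Finset ℕ, (∀ a ≤ n + 2, a ∉ Bd → Far n B 0 a ∧ M n u a ≤ 2000 * S8 n B u r / (n + 2)) ∧
      1000 * Bd.card ≤ n + 2 := by
  classical
  set S := S8 n B u r with hS
  set mu : ℝ := 2000 * S / (n + 2) with hmu
  have hS0 : 0 ≤ S := S8_nonneg
  have hn0 : (0 : ℝ) < (n : ℝ) + 2 := by positivity
  set A1 := (range (n + 3)).filter (fun a => ¬ Far n B (8 * r) a) with hA1
  set A2 := (range (n + 3)).filter (fun a => Far n B (8 * r) a ∧ mu < M n u a) with hA2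
  refine ⟨A1 ∪ A2, ?_, ?_⟩
  · intro a ha hna
    simp only [hA1, hA2, mem_union, mem_filter, mem_range, not_or, not_and, not_not, not_lt] at hna
    have h1 := hna.1 (by omega)
    exact ⟨P9_far_mono (Nat.zero_le _) h1, hna.2 (by omega) h1⟩
  · have c1 : A1.card ≤ B.card * (3 * (2 * (16 * r + 1))) := by
      have hsub : A1 ⊆ B.biUnion (fun l => Finset.univ.biUnion (fun i : Fin 3 =>
          (Finset.Icc (l i - 8 * r) (l i + 8 * r)) ∪
            (Finset.Icc (n + 2 - l i - 8 * r) (n + 2 - l i + 8 * r)))) := by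
        intro a ha
        simp only [hA1, mem_filter, mem_range] at ha
        obtain ⟨ha1, ha2⟩ := ha
        unfold Far at ha2
        push Not at ha2
        obtain ⟨l, hl, i, hi⟩ := ha2
        simp only [mem_biUnion, mem_union, mem_Icc, mem_univ, true_and]
        refine ⟨l, hl, i, ?_⟩
        by_cases h : ((8 * r : ℕ) : ℤ) < |(a : ℤ) - l i|
        · right
          have h2 := hi h
          have h3 := abs_le.1 h2
          push_cast at h3
          omega
        · left
          push Not at h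
          have h3 := abs_le.1 h
          push_cast at h3
          omega
      refine le_trans (card_le_card hsub) ?_
      refine card_biUnion_le_card_mul _ _ _ (fun l _ => ?_)
      have h3 := card_biUnion_le_card_mul (Finset.univ : Finset (Fin 3)) (fun i : Fin 3 =>
          (Finset.Icc (l i - 8 * r) (l i + 8 * r)) ∪
            (Finset.Icc (n + 2 - l i - 8 * r) (n + 2 - l i + 8 * r))) (2 * (16 * r + 1))
          (fun i _ => by
            refine le_trans (card_union_le _ _) ?_
            rw [Nat.card_Icc, Nat.card_Icc]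
            omega)
      simpa using h3
    have c2 : 2000 * A2.card ≤ n + 2 := by
      rcases eq_or_lt_of_le hS0 with h0 | h0
      · have : A2 = ∅ := by
          rw [Finset.eq_empty_iff_forall_notMem]
          intro a ha
          simp only [hA2, mem_filter, mem_range] at ha
          have h1 : M n u a ≤ S := by
            rw [hS]
            unfold S8
            refine Finset.single_le_sum (f := fun a => M n u a) (fun b _ => M_nonneg n u b) ?_
            simp only [mem_filter, mem_range]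
            exact ⟨ha.1, ha.2.1⟩
          have h2 : mu = 0 := by rw [hmu, ← h0]; simp
          have h3 := ha.2.2
          rw [h2] at h3
          linarith
        rw [this]; simp
      · have h1 : (A2.card : ℝ) * mu ≤ S := by
          have h2 : (A2.card : ℝ) * mu = ∑ a ∈ A2, mu := by
            rw [sum_const, nsmul_eq_mul]
          rw [h2]
          refine le_trans (Finset.sum_le_sum (g := fun a => M n u a) ?_) ?_
          · intro a ha
            simp only [hA2, mem_filter, mem_range] at ha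
            exact ha.2.2.le
          · rw [hS]
            unfold S8
            refine Finset.sum_le_sum_of_subset_of_nonneg ?_ (fun a _ _ => M_nonneg n u a)
            intro a ha
            simp only [hA2, mem_filter, mem_range] at ha ⊢
            exact ⟨ha.1, ha.2.1⟩
        have h3 : (A2.card : ℝ) * (2000 * S) ≤ S * (n + 2) := by
          have h4 : (A2.card : ℝ) * mu * (n + 2) = (A2.card : ℝ) * (2000 * S) := by
            rw [hmu]; field_simp
          rw [← h4]
          exact mul_le_mul_of_nonneg_right h1 hn0.le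
        have h5 : (2000 * A2.card : ℝ) ≤ n + 2 := by
          by_contra hcon
          push Not at hcon
          nlinarith
        exact_mod_cast h5
    have c3 := card_union_le A1 A2
    have h6 : B.card * (3 * (2 * (16 * r + 1))) ≤ B.card * (102 * r) :=
      Nat.mul_le_mul_left _ (by omega)
    have h7 : 204000 * r * B.card = 2000 * (B.card * (102 * r)) := by ring
    rw [h7] at hrn
    omega

open Classical in
/-- reflection of the index -/
private theorem P9_mirror (t : ℕ) (F : ℕ → ℝ) :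
    ∑ a ∈ (range (n + 3)).filter (fun a => Far n B t a), F (n + 2 - a) =
      ∑ a ∈ (range (n + 3)).filter (fun a => Far n B t a), F a := by
  refine Finset.sum_nbij' (fun a => n + 2 - a) (fun a => n + 2 - a) ?_ ?_ ?_ ?_ ?_
  · intro a ha
    simp only [mem_filter, mem_range] at ha ⊢
    exact ⟨by omega, Far_symm n B t a (by omega) ha.2⟩
  · intro a ha
    simp only [mem_filter, mem_range] at ha ⊢
    exact ⟨by omega, Far_symm n B t a (by omega) ha.2⟩
  · intro a ha
    simp only [mem_filter, mem_range] at ha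
    show n + 2 - (n + 2 - a) = a
    omega
  · intro a ha
    simp only [mem_filter, mem_range] at ha
    show n + 2 - (n + 2 - a) = a
    omega
  · intro a ha
    rfl

open Classical in
/-- sums over rows -/
private theorem P9_rowsum (i : Fin 3) (t : ℕ) (F : (Fin 3 → ℕ) → ℝ) :
    ∑ a ∈ (range (n + 3)).filter (fun a => Far n B t a),
        ∑ c ∈ (Lam (n + 1)).filter (fun c => c i = a), F c =
      ∑ c ∈ (Lam (n + 1)).filter (fun c => Far n B t (c i)), F c := by
  rw [← Finset.sum_fiberwise_of_maps_to (s := (Lam (n + 1)).filter (fun c => Far n B t (c i)))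
    (t := (range (n + 3)).filter (fun a => Far n B t a)) (g := fun c => c i)]
  · refine Finset.sum_congr rfl fun a ha => ?_
    simp only [mem_filter, mem_range] at ha
    refine Finset.sum_congr ?_ fun c _ => rfl
    ext c
    simp only [mem_filter]
    constructor
    · rintro ⟨h1, h2⟩
      exact ⟨⟨h1, by rw [h2]; exact ha.2⟩, h2⟩
    · rintro ⟨⟨h1, _⟩, h2⟩
      exact ⟨h1, h2⟩
  · intro c hc
    simp only [mem_filter, mem_range] at hc ⊢
    exact ⟨by have := P9_le hc.1 i; omega, hc.2⟩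

/-- `S8 = 2 sum_i sum_{c ∈ Lam (n+1), Far (8r) (c i)} q(ed u i c)` (the set `Far` is symmetric under `a ↦ n+2-a`; the index `a = n+2` has no
edges and `Far (8r) 0` is false because of the corners) and such `c` have `wt r B c = 1` (`wt_one_of_far`). -/
theorem S8_le_EE (hd : RData n B u δ C1) (hr : 20 ≤ r) : S8 n B u r ≤ 2 * EE n u (wt r B) := by
  classical
  have hB := P9_nonempty hd
  -- symmetric form of the sum
  have h1 : S8 n B u r = 2 * ∑ i, ∑ a ∈ (range (n + 3)).filter (fun a => Far n B (8 * r) a), rowq n u i a := by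
    unfold S8 M
    rw [Finset.sum_comm]
    rw [Finset.mul_sum]
    refine Finset.sum_congr rfl fun i _ => ?_
    rw [Finset.sum_add_distrib, P9_mirror (8 * r) (fun a => rowq n u i a)]
    ring
  have h2 : ∀ i : Fin 3, ∑ a ∈ (range (n + 3)).filter (fun a => Far n B (8 * r) a), rowq n u i a =
      ∑ c ∈ (Lam (n + 1)).filter (fun c => Far n B (8 * r) (c i)), q (ed u i c) := by
    intro i
    exact P9_rowsum i _ (fun c => q (ed u i c))
  have h3 : EE n u (wt r B) ≥ ∑ c ∈ Lam (n + 1), wt r B c * ∑ i, q (ed u i c) := by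
    unfold EE
    have : 0 ≤ ∑ b ∈ Lam n, wt r B b * ∑ i, q (ed u i (b + s i)) :=
      Finset.sum_nonneg fun b _ => mul_nonneg (wt_nonneg r B b)
        (Finset.sum_nonneg fun i _ => q_nonneg _)
    linarith
  have h4 : ∑ c ∈ Lam (n + 1), wt r B c * ∑ i, q (ed u i c) =
      ∑ i, ∑ c ∈ Lam (n + 1), wt r B c * q (ed u i c) := by
    rw [Finset.sum_comm]
    refine Finset.sum_congr rfl fun c _ => ?_
    rw [Finset.mul_sum]
  have h5 : ∀ i : Fin 3, ∑ c ∈ (Lam (n + 1)).filter (fun c => Far n B (8 * r) (c i)), q (ed u i c) ≤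
      ∑ c ∈ Lam (n + 1), wt r B c * q (ed u i c) := by
    intro i
    rw [Finset.sum_filter]
    refine Finset.sum_le_sum fun c hc => ?_
    split_ifs with hf
    · rw [mem_Lam] at hc
      have hw : wt r B c = 1 := by
        refine wt_one_of_far (n := n) hB hd.sub (by omega) (by omega) (by omega) ?_
        intro z hz
        refine ⟨i, ?_⟩
        have h6 := (hf z hz i).1
        push_cast at h6
        have h7 : (0 : ℤ) ≤ (r : ℤ) := by positivity
        have h8 : (20 : ℤ) ≤ (r : ℤ) := by exact_mod_cast hr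
        omega
      rw [hw, one_mul]
    · exact mul_nonneg (wt_nonneg r B c) (q_nonneg _)
  rw [h1]
  have h9 : ∑ i, ∑ a ∈ (range (n + 3)).filter (fun a => Far n B (8 * r) a), rowq n u i a ≤
      ∑ i, ∑ c ∈ Lam (n + 1), wt r B c * q (ed u i c) := by
    refine Finset.sum_le_sum fun i _ => ?_
    rw [h2 i]
    exact h5 i
  linarith

open Classical in
/-- `sum_{clear a} M_a ≤ 8 C1`: `orbit_identity`; every edge with both ends outside `B` is counted at most twice, every wall label outside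
`B` at most twice (times 3). -/
theorem total_M (hd : RData n B u δ C1) :
    ∑ a ∈ (range (n + 3)).filter (fun a => Far n B 0 a), M n u a ≤ 8 * C1 := by
  classical
  set A := (range (n + 3)).filter (fun a => Far n B 0 a) with hA
  have h1 : ∑ a ∈ A, M n u a = 2 * ∑ i, ∑ a ∈ A, rows n u i a + 6 * ∑ i, ∑ a ∈ A, Wd n u i a := by
    have e1 : ∑ a ∈ A, M n u a = ∑ a ∈ A, (∑ i, (rows n u i a + rows n u i (n + 2 - a)) +
        3 * ∑ i, (Wd n u i a + Wd n u i (n + 2 - a))) := by
      refine Finset.sum_congr rfl fun a ha => ?_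
      simp only [hA, mem_filter, mem_range] at ha
      exact orbit_identity n u hd.sum0 a (by omega)
    rw [e1, Finset.sum_add_distrib, ← Finset.mul_sum, Finset.sum_comm, Finset.sum_comm (s := A)]
    have e2 : ∀ i : Fin 3, ∑ a ∈ A, (rows n u i a + rows n u i (n + 2 - a)) = 2 * ∑ a ∈ A, rows n u i a := by
      intro i
      rw [Finset.sum_add_distrib, hA, P9_mirror 0 (fun a => rows n u i a)]
      ring
    have e3 : ∀ i : Fin 3, ∑ a ∈ A, (Wd n u i a + Wd n u i (n + 2 - a)) = 2 * ∑ a ∈ A, Wd n u i a := by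
      intro i
      rw [Finset.sum_add_distrib, hA, P9_mirror 0 (fun a => Wd n u i a)]
      ring
    simp only [e2, e3, ← Finset.mul_sum]
    ring
  have h2 : ∑ i, ∑ a ∈ A, rows n u i a ≤ C1 := by
    refine le_trans (Finset.sum_le_sum fun i _ => ?_) hd.sumsig
    unfold rows
    rw [hA, P9_rowsum i 0 (fun c => sg u i c)]
    refine Finset.sum_le_sum_of_subset_of_nonneg ?_ ?_
    · intro c hc
      simp only [mem_filter] at hc ⊢
      have h3 := P9_le hc.1 i
      have h4 := clear_edge hd hc.2 (by omega) hc.1 (i := i) (Or.inl rfl)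
      exact ⟨hc.1, h4.1, h4.2.1⟩
    · intro c hc _
      simp only [mem_filter] at hc
      exact hd.sig i c hc.1 hc.2.1 hc.2.2
  have h3 : ∀ i : Fin 3, ∑ a ∈ A, Wd n u i a ≤
      ∑ l ∈ (Lam (n + 2)).filter (fun l => l (i + 2) = 0 ∧ l ∉ B), u l (i + 2) := by
    intro i
    unfold Wd
    rw [← Finset.sum_image (s := A) (g := fun a => lab (n + 2) i a (n + 2 - a))
      (f := fun l => u l (i + 2))]
    · refine Finset.sum_le_sum_of_subset_of_nonneg ?_ ?_
      · intro l hl
        rw [mem_image] at hl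
        obtain ⟨a, ha, rfl⟩ := hl
        simp only [hA, mem_filter, mem_range] at ha
        simp only [mem_filter]
        refine ⟨lab_mem _ _ _ _ (by omega), ?_, ?_⟩
        · rw [lab_i2]; omega
        · exact notMem_of_clear ha.2 (by omega) (i := i) (Or.inl (lab_i _ _ _ _))
      · intro l hl _
        simp only [mem_filter] at hl
        have h4 := hd.wall (i + 2) l hl.1 hl.2.2 hl.2.1
        have h5 := hd.dpos
        linarith
    · intro a ha b hb hab
      have h4 := congrFun hab i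
      simp only [lab_i] at h4
      exact h4
  have h4 : ∑ i, ∑ a ∈ A, Wd n u i a ≤ C1 := by
    refine le_trans (Finset.sum_le_sum fun i _ => h3 i) ?_
    refine le_trans (le_of_eq ?_) hd.sumwall
    exact Equiv.sum_comp (Equiv.addRight (2 : Fin 3))
      (fun i => ∑ l ∈ (Lam (n + 2)).filter (fun l => l i = 0 ∧ l ∉ B), u l i)
  rw [h1]
  linarith

/-- consecutive scales: the shell at scale `r'` is inside `Far (8r)` if `40 r ≤ r'` -/
theorem mr_le_S8 {r' : ℕ} (h : 40 * r ≤ r') : mr n B u r' ≤ S8 n B u r := by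
  classical
  unfold mr S8
  refine Finset.sum_le_sum_of_subset_of_nonneg ?_ (fun a _ _ => M_nonneg n u a)
  intro a ha
  simp only [mem_filter, mem_range] at ha ⊢
  exact ⟨ha.1, P9_far_mono (by omega) ha.2.1⟩

theorem S8_anti {r' : ℕ} (h : r ≤ r') : S8 n B u r' ≤ S8 n B u r := by
  classical
  unfold S8
  refine Finset.sum_le_sum_of_subset_of_nonneg ?_ (fun a _ _ => M_nonneg n u a)
  intro a ha
  simp only [mem_filter, mem_range] at ha ⊢
  exact ⟨ha.1, P9_far_mono (by omega) ha.2⟩

/-- shells at scales `R0 * 64^j` are disjoint (`5 r_j ≤ r_(j+1)/4`) -/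
theorem sum_mr (hd : RData n B u δ C1) (R0 : ℕ) (hR : 20 ≤ R0) (J : Finset ℕ) :
    ∑ j ∈ J, mr n B u (R0 * 64 ^ j) ≤ 8 * C1 := by
  classical
  refine le_trans ?_ (total_M hd)
  unfold mr
  rw [← Finset.sum_biUnion]
  · refine Finset.sum_le_sum_of_subset_of_nonneg ?_ (fun a _ _ => M_nonneg n u a)
    intro a ha
    simp only [mem_biUnion, mem_filter, mem_range] at ha ⊢
    obtain ⟨j, _, ha, hs⟩ := ha
    exact ⟨ha, P9_far_mono (Nat.zero_le _) hs.1⟩
  · have key : ∀ i j : ℕ, i < j → ∀ a, Shell n B (R0 * 64 ^ i) a → Shell n B (R0 * 64 ^ j) a → False := by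
      intro i j hij a hi hj
      apply hi.2
      refine P9_far_mono ?_ hj.1
      have h1 : 64 ^ (i + 1) ≤ 64 ^ j := Nat.pow_le_pow_right (by norm_num) hij
      have h2 : R0 * 64 ^ (i + 1) ≤ R0 * 64 ^ j := Nat.mul_le_mul_left _ h1
      rw [pow_succ, ← mul_assoc] at h2
      omega
    intro i _ j _ hij
    rw [Function.onFun, Finset.disjoint_left]
    intro a ha hb
    simp only [mem_filter, mem_range] at ha hb
    rcases lt_or_gt_of_ne hij with h | h
    · exact key i j h a ha.2 hb.2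
    · exact key j i h a hb.2 ha.2

end H24
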