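import Pool.Agent.Lib_MP_27c196_co.R.P8
import Pool.Agent.Lib_MP_27c196_co.R.P9

/-! H24 R, piece P10b: first scale and one step of the iteration (blueprint R10), enlargement of `B` -/

set_option linter.unusedVariables false

noncomputable section

namespace H24

open Finset

variable {n r : ℕ} {B : Finset (Fin 3 → ℕ)} {u : (Fin 3 → ℕ) → Fin 3 → ℝ} {δ C1 : ℝ}

/-- Markov inequality for a sum over `Fin 3` of sums over finite sets of nonnegative terms. -/
private theorem P10b_count {α : Type} [DecidableEq α] (A : Fin 3 → Finset α) (f : Fin 3 → α → ℝ) {t C : ℝ} (ht : 0 < t)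
    (hf : ∀ i, ∀ c ∈ A i, 0 ≤ f i c) (hsum : ∑ i, ∑ c ∈ A i, f i c ≤ C) :
    ((∑ i, ((A i).filter (fun c => t < f i c)).card : ℕ) : ℝ) * t ≤ C := by
  refine le_trans ?_ hsum
  rw [Nat.cast_sum, Finset.sum_mul]
  refine Finset.sum_le_sum fun i _ => ?_
  calc (((A i).filter (fun c => t < f i c)).card : ℝ) * t
      = ∑ c ∈ (A i).filter (fun c => t < f i c), t := by rw [Finset.sum_const, nsmul_eq_mul]
    _ ≤ ∑ c ∈ (A i).filter (fun c => t < f i c), f i c :=
        Finset.sum_le_sum fun c hc => (Finset.mem_filter.1 hc).2.le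
    _ ≤ ∑ c ∈ A i, f i c :=
        Finset.sum_le_sum_of_subset_of_nonneg (Finset.filter_subset _ _) fun c hc _ => hf i c hc

private theorem P10b_end1 {i : Fin 3} {c : Fin 3 → ℕ} (hc : c ∈ Lam (n + 1)) (j : Fin 3) : c + s j ∈ Lam (n + 2) := by
  rw [mem_Lam] at hc ⊢
  fin_cases j <;> simp [s, Pi.add_apply] <;> omega

/-- Enlarge `B` by the ends of the edges with `sg > 1/20` (there are at most `20 C1` such edges) and the wall labels with `u_i > 1/3`
(at most `3 C1`). -/
theorem enlarge (hd : RData n B u δ C1) (hC : 0 ≤ C1) :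
    ∃ B' : Finset (Fin 3 → ℕ), B ⊆ B' ∧ RData n B' u δ C1 ∧ (B'.card : ℝ) ≤ B.card + 43 * C1 ∧
      (∀ i, ∀ c ∈ Lam (n + 1), c + s (i + 1) ∉ B' → c + s (i + 2) ∉ B' → sg u i c ≤ 1 / 20) ∧
      (∀ i, ∀ l ∈ Lam (n + 2), l ∉ B' → l i = 0 → u l i ≤ 1 / 3) := by
  classical
  set A : Fin 3 → Finset (Fin 3 → ℕ) := fun i =>
    (Lam (n + 1)).filter (fun c => c + s (i + 1) ∉ B ∧ c + s (i + 2) ∉ B) with hA
  set W : Fin 3 → Finset (Fin 3 → ℕ) := fun i =>
    (Lam (n + 2)).filter (fun l => l i = 0 ∧ l ∉ B) with hW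
  set A' : Fin 3 → Finset (Fin 3 → ℕ) := fun i => (A i).filter (fun c => (1 / 20 : ℝ) < sg u i c) with hA'
  set W' : Fin 3 → Finset (Fin 3 → ℕ) := fun i => (W i).filter (fun l => (1 / 3 : ℝ) < u l i) with hW'
  have hAn : ∀ i, ∀ c ∈ A i, 0 ≤ sg u i c := by
    intro i c hc
    simp only [hA, mem_filter] at hc
    exact hd.sig i c hc.1 hc.2.1 hc.2.2
  have hWn : ∀ i, ∀ l ∈ W i, 0 ≤ u l i := by
    intro i l hl
    simp only [hW, mem_filter] at hl
    have h1 := hd.wall i l hl.1 hl.2.2 hl.2.1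
    have h2 := hd.dpos
    linarith
  have hcA := P10b_count A (fun i c => sg u i c) (t := 1 / 20) (by norm_num) hAn hd.sumsig
  have hcW := P10b_count W (fun i l => u l i) (t := 1 / 3) (by norm_num) hWn hd.sumwall
  set X : Finset (Fin 3 → ℕ) := Finset.univ.biUnion (fun i : Fin 3 => (A' i).image (fun c => c + s (i + 1))) with hX
  set Y : Finset (Fin 3 → ℕ) := Finset.univ.biUnion (fun i : Fin 3 => (A' i).image (fun c => c + s (i + 2))) with hY
  set Z : Finset (Fin 3 → ℕ) := Finset.univ.biUnion (fun i : Fin 3 => W' i) with hZ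
  have hXc : X.card ≤ ∑ i, (A' i).card :=
    Finset.card_biUnion_le.trans (Finset.sum_le_sum fun i _ => Finset.card_image_le)
  have hYc : Y.card ≤ ∑ i, (A' i).card :=
    Finset.card_biUnion_le.trans (Finset.sum_le_sum fun i _ => Finset.card_image_le)
  have hZc : Z.card ≤ ∑ i, (W' i).card := Finset.card_biUnion_le
  have hcard : ((B ∪ (X ∪ (Y ∪ Z))).card : ℝ) ≤ B.card + 43 * C1 := by
    have h1 : (B ∪ (X ∪ (Y ∪ Z))).card ≤ B.card + (X.card + (Y.card + Z.card)) := by
      refine (Finset.card_union_le _ _).trans ?_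
      have h2 := Finset.card_union_le X (Y ∪ Z)
      have h3 := Finset.card_union_le Y Z
      omega
    have h4 : (B ∪ (X ∪ (Y ∪ Z))).card ≤ B.card + 2 * (∑ i, (A' i).card) + ∑ i, (W' i).card := by omega
    have h5 : ((B ∪ (X ∪ (Y ∪ Z))).card : ℝ) ≤ B.card + 2 * ((∑ i, (A' i).card : ℕ) : ℝ) + ((∑ i, (W' i).card : ℕ) : ℝ) := by
      exact_mod_cast h4
    have h6 : ((∑ i, (A' i).card : ℕ) : ℝ) * (1 / 20) ≤ C1 := hcA
    have h7 : ((∑ i, (W' i).card : ℕ) : ℝ) * (1 / 3) ≤ C1 := hcW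
    linarith
  have hsub : B ⊆ B ∪ (X ∪ (Y ∪ Z)) := Finset.subset_union_left
  have hmem : ∀ l, l ∉ B ∪ (X ∪ (Y ∪ Z)) → l ∉ B := fun l hl h => hl (hsub h)
  refine ⟨B ∪ (X ∪ (Y ∪ Z)), hsub, ?_, hcard, ?_, ?_⟩
  · refine ⟨hd.sum0, fun i => hsub (hd.corner i), ?_, hd.dpos, fun i l hl h => hd.wall i l hl (hmem l h),
      fun i c hc h1 h2 => hd.sig i c hc (hmem _ h1) (hmem _ h2),
      fun i c hc h1 h2 => hd.small i c hc (hmem _ h1) (hmem _ h2), ?_, ?_⟩
    · refine Finset.union_subset hd.sub (Finset.union_subset ?_ (Finset.union_subset ?_ ?_))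
      · intro l hl
        simp only [hX, hA', hA, mem_biUnion, mem_image, mem_filter, mem_univ, true_and] at hl
        obtain ⟨i, c, hc, rfl⟩ := hl
        exact P10b_end1 (i := i) hc.1.1 _
      · intro l hl
        simp only [hY, hA', hA, mem_biUnion, mem_image, mem_filter, mem_univ, true_and] at hl
        obtain ⟨i, c, hc, rfl⟩ := hl
        exact P10b_end1 (i := i) hc.1.1 _
      · intro l hl
        simp only [hZ, hW', hW, mem_biUnion, mem_filter, mem_univ, true_and] at hl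
        obtain ⟨i, hc⟩ := hl
        exact hc.1.1
    · refine le_trans (Finset.sum_le_sum fun i _ => ?_) hd.sumsig
      refine Finset.sum_le_sum_of_subset_of_nonneg ?_ fun c hc _ => hAn i c hc
      intro c hc
      rw [mem_filter] at hc ⊢
      exact ⟨hc.1, hmem _ hc.2.1, hmem _ hc.2.2⟩
    · refine le_trans (Finset.sum_le_sum fun i _ => ?_) hd.sumwall
      refine Finset.sum_le_sum_of_subset_of_nonneg ?_ fun c hc _ => hWn i c hc
      intro c hc
      rw [mem_filter] at hc ⊢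
      exact ⟨hc.1, hc.2.1, hmem _ hc.2.2⟩
  · intro i c hc h1 h2
    by_contra h
    push Not at h
    apply h1
    refine Finset.mem_union_right _ (Finset.mem_union_left _ ?_)
    rw [hX, mem_biUnion]
    refine ⟨i, mem_univ _, mem_image_of_mem _ ?_⟩
    simp only [hA', hA, mem_filter]
    exact ⟨⟨hc, hmem _ h1, hmem _ h2⟩, h⟩
  · intro i l hl h1 h2
    by_contra h
    push Not at h
    apply h1
    refine Finset.mem_union_right _ (Finset.mem_union_right _ (Finset.mem_union_right _ ?_))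
    rw [hZ, mem_biUnion]
    refine ⟨i, mem_univ _, ?_⟩
    simp only [hW', hW, mem_filter]
    exact ⟨⟨hl, h2, hmem _ h1⟩, h⟩

private theorem P10b_act_edge {t : ℕ} (ht : 1 ≤ t) {c : Fin 3 → ℕ} (hc : Act t B c) (j : Fin 3) : c + s j ∉ B := by
  intro h
  obtain ⟨i, k, hik, hi, hk⟩ := hc _ h
  have h1 : |(c i : ℤ) - ((c + s j) i : ℕ)| ≤ 1 := by
    rw [Pi.add_apply]
    unfold s
    by_cases hj : i = j
    · subst hj
      rw [Pi.single_eq_same]
      push_cast
      rw [abs_le]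
      constructor <;> linarith
    · rw [Pi.single_eq_of_ne hj]
      simp
  have h2 : (1 : ℤ) ≤ t := by exact_mod_cast ht
  linarith

private theorem P10b_nonempty (hd : RData n B u δ C1) : B.Nonempty := ⟨_, hd.corner 0⟩

private theorem P10b_card (hd : RData n B u δ C1) : (1 : ℝ) ≤ B.card := by
  have h := (P10b_nonempty hd).card_pos
  exact_mod_cast h

private theorem P10b_Fc (n r : ℕ) (B : Finset (Fin 3 → ℕ)) (u : (Fin 3 → ℕ) → Fin 3 → ℝ) : 0 ≤ Fc n r B u := by
  unfold Fc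
  exact mul_nonneg (by positivity) (Finset.sum_nonneg fun l _ => Real.sqrt_nonneg _)

open Classical in
private theorem P10b_S8 (hd : RData n B u δ C1) : S8 n B u r ≤ 8 * C1 := by
  refine le_trans ?_ (total_M hd)
  unfold S8
  refine Finset.sum_le_sum_of_subset_of_nonneg ?_ fun a _ _ => M_nonneg n u a
  intro a ha
  rw [mem_filter] at ha ⊢
  refine ⟨ha.1, fun l hl i => ?_⟩
  have h := ha.2 l hl i
  have h8 : (0 : ℤ) ≤ ((8 * r : ℕ) : ℤ) := Int.natCast_nonneg _
  refine ⟨?_, ?_⟩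
  · push_cast at h ⊢
    push_cast at h8
    linarith [h.1]
  · push_cast at h ⊢
    push_cast at h8
    linarith [h.2]

/-- FIRST SCALE. `one_scale` with `η = 1/20`, `Wst = 1/3`, `Q = 12 mr + 80 mu`, `mu = 2000 S8/(n+2)` (`light_set`, `collar_Q`, `Fc_bound`):
`Q ≤ 1/4`, so `EE ≤ 50 Fc ≤ 50 K1 (mr + r mu)`, `K1 = 60000 |B|`, and `r mu = 2000 r S8/(n+2) ≤ 4000 r EE/(n+2)` (`S8_le_EE`), so
`EE ≤ 100 K1 mr`, `r mu ≤ mr`, `Fc ≤ 2 K1 mr`. (`S8 ≤ total ≤ 8 C1` gives `80 mu ≤ 1/10`.) -/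
theorem first_scale (hd : RData n B u δ C1) (hn : 100000 ≤ n) (hr : 20 ≤ r) (hsep : Sep n B r)
    (hη : ∀ i, ∀ c ∈ Lam (n + 1), c + s (i + 1) ∉ B → c + s (i + 2) ∉ B → sg u i c ≤ 1 / 20)
    (hW : ∀ i, ∀ l ∈ Lam (n + 2), l ∉ B → l i = 0 → u l i ≤ 1 / 3)
    (hC : 20000000 * C1 ≤ n) (hrn : 24000000000 * B.card * r ≤ n) (hm : mr n B u r ≤ 1 / 100) :
    EE n u (wt r B) ≤ 100 * (60000 * B.card) * mr n B u r ∧
      Fc n r B u ≤ 2 * (60000 * B.card) * mr n B u r := by
  have hb1 := P10b_card hd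
  have hn0 : (0 : ℝ) < (n : ℝ) + 2 := by positivity
  have hS0 : 0 ≤ S8 n B u r := S8_nonneg
  have hm0 : 0 ≤ mr n B u r := mr_nonneg
  have hF0 := P10b_Fc n r B u
  have hE0 := EE_nonneg n u r B
  have hrnR : 24000000000 * (B.card : ℝ) * r ≤ n := by exact_mod_cast hrn
  have hrR : (20 : ℝ) ≤ r := by exact_mod_cast hr
  obtain ⟨Bd, hBd, hBc⟩ := light_set (n := n) (r := r) (B := B) (u := u) hr (by
    have h1 : 204000 * r * B.card ≤ 24000000000 * B.card * r := by
      have : 204000 * r * B.card = 204000 * (B.card * r) := by ring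
      have h2 : 24000000000 * B.card * r = 24000000000 * (B.card * r) := by ring
      rw [this, h2]
      exact Nat.mul_le_mul_right _ (by norm_num)
    omega)
  set mu : ℝ := 2000 * S8 n B u r / (n + 2) with hmu
  have hmu0 : 0 ≤ mu := by positivity
  have hmuE : mu * (n + 2) = 2000 * S8 n B u r := by
    rw [hmu]
    field_simp
  have hQ := fun l (hl : l ∈ Lam (n + 2)) (h : Collar r B l) => collar_Q hd hn hr hsep hmu0 Bd hBd hBc hl h
  have hFb := Fc_bound hd hn hr hsep hmu0 Bd hBd hBc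
  have hSE := S8_le_EE hd hr
  have hSC : S8 n B u r ≤ 8 * C1 := P10b_S8 hd
  have hmu1 : 80 * mu ≤ 1 / 10 := by
    by_contra hcon
    push Not at hcon
    have h1 : (n : ℝ) + 2 < 800 * (mu * (n + 2)) := by nlinarith
    rw [hmuE] at h1
    nlinarith
  have hone := one_scale hd hr (η := 1 / 20) (Wst := 1 / 3) (Q := 12 * mr n B u r + 80 * mu) (by norm_num) (by norm_num)
    (by positivity)
    (fun i c hc ha => hη i c hc (P10b_act_edge (by omega) ha _) (P10b_act_edge (by omega) ha _))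
    (fun i l hl hi ha => hW i l hl (notMem_of_act ha) hi) hQ (by norm_num)
  have hE1 : EE n u (wt r B) ≤ 50 * Fc n r B u := by
    refine hone.1.trans ?_
    have : 100 * (1 / 20 + (1 / 3 : ℝ) ^ 2 + (12 * mr n B u r + 80 * mu)) ≤ 50 := by
      norm_num
      linarith
    exact mul_le_mul_of_nonneg_right this hF0
  have hrmu : (r : ℝ) * mu * (n + 2) ≤ 4000 * r * EE n u (wt r B) := by
    have h1 : (r : ℝ) * mu * (n + 2) = r * (2000 * S8 n B u r) := by rw [← hmuE]; ring
    rw [h1]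
    nlinarith
  have hbr0 : (0 : ℝ) ≤ (B.card : ℝ) * r := by positivity
  -- `50 K1 r mu ≤ EE / 2`
  have hK : 50 * (60000 * (B.card : ℝ)) * (r * mu) ≤ EE n u (wt r B) / 2 := by
    by_contra hcon
    push Not at hcon
    have h1 : EE n u (wt r B) / 2 * (n + 2) < 50 * (60000 * (B.card : ℝ)) * (r * mu) * (n + 2) :=
      mul_lt_mul_of_pos_right hcon hn0
    have h2 : 50 * (60000 * (B.card : ℝ)) * (r * mu) * (n + 2) ≤ 3000000 * (B.card : ℝ) * (4000 * r * EE n u (wt r B)) := by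
      have : 50 * (60000 * (B.card : ℝ)) * (r * mu) * (n + 2) = 3000000 * (B.card : ℝ) * (r * mu * (n + 2)) := by ring
      rw [this]
      exact mul_le_mul_of_nonneg_left hrmu (by positivity)
    have h3 : 3000000 * (B.card : ℝ) * (4000 * r * EE n u (wt r B)) = (24000000000 * (B.card : ℝ) * r) * EE n u (wt r B) / 2 := by ring
    have h4 : (24000000000 * (B.card : ℝ) * r) * EE n u (wt r B) ≤ n * EE n u (wt r B) :=
      mul_le_mul_of_nonneg_right hrnR hE0
    nlinarith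
  have hEE : EE n u (wt r B) ≤ 100 * (60000 * B.card) * mr n B u r := by
    have h1 : 50 * Fc n r B u ≤ 50 * (60000 * B.card * (mr n B u r + r * mu)) := by linarith
    have h2 : 50 * (60000 * (B.card : ℝ) * (mr n B u r + r * mu)) =
        50 * (60000 * (B.card : ℝ)) * mr n B u r + 50 * (60000 * (B.card : ℝ)) * (r * mu) := by ring
    linarith
  refine ⟨hEE, ?_⟩
  -- `r mu ≤ mr`
  have hrm : (r : ℝ) * mu ≤ mr n B u r := by
    by_contra hcon
    push Not at hcon
    have h1 : mr n B u r * (n + 2) < r * mu * (n + 2) := mul_lt_mul_of_pos_right hcon hn0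
    have h2 : 4000 * (r : ℝ) * EE n u (wt r B) ≤ 4000 * r * (100 * (60000 * B.card) * mr n B u r) :=
      mul_le_mul_of_nonneg_left hEE (by positivity)
    have h3 : 4000 * (r : ℝ) * (100 * (60000 * B.card) * mr n B u r) = (24000000000 * (B.card : ℝ) * r) * mr n B u r := by ring
    have h4 : (24000000000 * (B.card : ℝ) * r) * mr n B u r ≤ n * mr n B u r := mul_le_mul_of_nonneg_right hrnR hm0
    nlinarith
  refine hFb.trans ?_
  have h5 : 60000 * (B.card : ℝ) * (mr n B u r + r * mu) ≤ 60000 * (B.card : ℝ) * (mr n B u r + mr n B u r) :=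
    mul_le_mul_of_nonneg_left (by linarith) (by positivity)
  refine h5.trans (le_of_eq ?_)
  ring

/-- STEP from the scale `r` to the scale `r' ≥ 40 r`. Put `E = EE(r)`, `Y = E + 12 Fc(r)` (`≥ SS(r) + 6 WW(r)` by `hY`), `Y ≤ 1/10`.
`Act (r'-4)` implies `Act (2r)`, so `sg ≤ SS(r) ≤ Y`, `u ≤ WW(r) ≤ Y` there (`sg_le_SS`, `u_le_WW`). `mr(r') ≤ S8(r) ≤ 2E`, `S8(r') ≤ S8(r) ≤ 2E`,
`mu' = 2000 S8(r')/(n+2) ≤ E`, `r' mu' ≤ E`, `Q' = 12 mr(r') + 80 mu' ≤ 104 E`; `one_scale` at `r'` with `η = Wst = Y`: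
`EE(r') ≤ 100 (2Y + 104 E) Fc(r')`, `Fc(r') ≤ K1 (2E + E)`. -/
theorem step_scale (hd : RData n B u δ C1) (hn : 100000 ≤ n) (hr : 20 ≤ r) {r' : ℕ} (hrr : 40 * r ≤ r')
    (hsep' : Sep n B r') (hrn : 24000000000 * B.card * r' ≤ n)
    (hY : SS n u (wt r B) + 6 * WW n u (wt r B) ≤ EE n u (wt r B) + 12 * Fc n r B u)
    (hY1 : EE n u (wt r B) + 12 * Fc n r B u ≤ 1 / 10) :
    EE n u (wt r' B) ≤ 31800 * (60000 * B.card) * (EE n u (wt r B) + 12 * Fc n r B u) * EE n u (wt r B) ∧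
      Fc n r' B u ≤ 3 * (60000 * B.card) * EE n u (wt r B) := by
  have hb1 := P10b_card hd
  have hn0 : (0 : ℝ) < (n : ℝ) + 2 := by positivity
  have hr' : 20 ≤ r' := by omega
  have hS0 : 0 ≤ S8 n B u r' := S8_nonneg
  have hm0 : 0 ≤ mr n B u r' := mr_nonneg
  have hF0 := P10b_Fc n r B u
  have hF0' := P10b_Fc n r' B u
  have hE0 := EE_nonneg n u r B
  have hSS0 := SS_nonneg hd hr
  have hWW0 := WW_nonneg hd hr
  have hrnR : 24000000000 * (B.card : ℝ) * r' ≤ n := by exact_mod_cast hrn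
  have hrR : (20 : ℝ) ≤ r' := by exact_mod_cast hr'
  obtain ⟨Bd, hBd, hBc⟩ := light_set (n := n) (r := r') (B := B) (u := u) hr' (by
    have h1 : 204000 * r' * B.card ≤ 24000000000 * B.card * r' := by
      have : 204000 * r' * B.card = 204000 * (B.card * r') := by ring
      have h2 : 24000000000 * B.card * r' = 24000000000 * (B.card * r') := by ring
      rw [this, h2]
      exact Nat.mul_le_mul_right _ (by norm_num)
    omega)
  set mu : ℝ := 2000 * S8 n B u r' / (n + 2) with hmu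
  have hmu0 : 0 ≤ mu := by positivity
  have hmuE : mu * (n + 2) = 2000 * S8 n B u r' := by
    rw [hmu]
    field_simp
  have hSE := S8_le_EE hd hr
  have hanti : S8 n B u r' ≤ S8 n B u r := S8_anti (by omega)
  have hmr : mr n B u r' ≤ S8 n B u r := mr_le_S8 hrr
  set E : ℝ := EE n u (wt r B) with hE
  set Y : ℝ := E + 12 * Fc n r B u with hYdef
  have hY0 : 0 ≤ Y := by linarith
  have hEY : E ≤ Y := by linarith
  have hQ := fun l (hl : l ∈ Lam (n + 2)) (h : Collar r' B l) => collar_Q hd hn hr' hsep' hmu0 Bd hBd hBc hl h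
  have hFb := Fc_bound hd hn hr' hsep' hmu0 Bd hBd hBc
  have hmr2 : mr n B u r' ≤ 2 * E := hmr.trans hSE
  have hnR : (100000 : ℝ) ≤ n := by exact_mod_cast hn
  have hmu1 : mu ≤ E := by
    by_contra hcon
    push Not at hcon
    have h1 : E * (n + 2) < mu * (n + 2) := mul_lt_mul_of_pos_right hcon hn0
    rw [hmuE] at h1
    nlinarith
  have hrmu : (r' : ℝ) * mu ≤ E := by
    by_contra hcon
    push Not at hcon
    have h1 : E * (n + 2) < r' * mu * (n + 2) := mul_lt_mul_of_pos_right hcon hn0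
    have h2 : (r' : ℝ) * mu * (n + 2) = r' * (2000 * S8 n B u r') := by rw [← hmuE]; ring
    have h3 : (r' : ℝ) * (2000 * S8 n B u r') ≤ r' * (4000 * E) := by
      refine mul_le_mul_of_nonneg_left ?_ (by positivity)
      linarith
    have h4 : 24000000000 * (r' : ℝ) ≤ 24000000000 * (B.card : ℝ) * r' := by nlinarith
    have h5 : (4000 * r' : ℝ) ≤ n := by linarith
    have h6 : (4000 * r' : ℝ) * E ≤ n * E := mul_le_mul_of_nonneg_right h5 hE0
    nlinarith
  have hact : ∀ c : Fin 3 → ℕ, Act (r' - 4) B c → Act (2 * r) B c := fun c hc => act_mono (by omega) hc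
  have hone := one_scale hd hr' (η := Y) (Wst := Y) (Q := 12 * mr n B u r' + 80 * mu) hY0 hY0 (by positivity)
    (fun i c hc ha => (sg_le_SS hd hr i hc (hact c ha)).trans (by linarith))
    (fun i l hl hi ha => (u_le_WW hd hr i hl hi (hact l ha)).trans (by linarith)) hQ (by nlinarith)
  have hF3 : Fc n r' B u ≤ 3 * (60000 * B.card) * E := by
    refine hFb.trans ?_
    have h5 : 60000 * (B.card : ℝ) * (mr n B u r' + r' * mu) ≤ 60000 * (B.card : ℝ) * (2 * E + E) :=
      mul_le_mul_of_nonneg_left (by linarith) (by positivity)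
    refine h5.trans (le_of_eq ?_)
    ring
  refine ⟨?_, hF3⟩
  refine hone.1.trans ?_
  have h7 : Y + Y ^ 2 + (12 * mr n B u r' + 80 * mu) ≤ 106 * Y := by nlinarith
  calc 100 * (Y + Y ^ 2 + (12 * mr n B u r' + 80 * mu)) * Fc n r' B u
      ≤ 100 * (106 * Y) * Fc n r' B u := by
        refine mul_le_mul_of_nonneg_right ?_ hF0'
        linarith
    _ ≤ 100 * (106 * Y) * (3 * (60000 * B.card) * E) := mul_le_mul_of_nonneg_left hF3 (by positivity)
    _ = 31800 * (60000 * B.card) * Y * E := by ring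

/-- there is an index `a ≤ n+2` with `Far (8r) a` (at most `6 |B| (16 r + 1)` indices are not), and `6 δ ≤ M_a ≤ S8 ≤ 2 EE`. -/
theorem last_scale (hd : RData n B u δ C1) (hr : 20 ≤ r) (hrn : 204000 * r * B.card ≤ n + 2) :
    6 * δ ≤ 2 * EE n u (wt r B) := by
  obtain ⟨Bd, hBd, hBc⟩ := light_set (n := n) (r := r) (B := B) (u := u) hr hrn
  have hS0 : 0 ≤ S8 n B u r := S8_nonneg
  have hb := (P10b_nonempty hd).card_pos
  have hn2 : 4080000 ≤ n + 2 := by
    have h0 : (20 : ℕ) * 1 ≤ r * B.card := Nat.mul_le_mul hr hb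
    have h1 : 204000 * (20 * 1) ≤ 204000 * (r * B.card) := Nat.mul_le_mul_left _ h0
    have h2 : 204000 * (r * B.card) = 204000 * r * B.card := by ring
    have h3 : (4080000 : ℕ) = 204000 * (20 * 1) := by norm_num
    rw [h3]
    exact (h1.trans h2.le).trans hrn
  obtain ⟨a, ha, haB⟩ : ∃ a ∈ range (n + 3), a ∉ Bd := by
    by_contra hcon
    push Not at hcon
    have h1 : range (n + 3) ⊆ Bd := fun a ha => hcon a ha
    have h2 := Finset.card_le_card h1
    rw [card_range] at h2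
    omega
  rw [mem_range] at ha
  obtain ⟨hf, hM⟩ := hBd a (by omega) haB
  have h3 := M_ge hd hf (by omega : a ≤ n + 2)
  have hSE := S8_le_EE hd hr
  have hn2R : (4080000 : ℝ) ≤ (n : ℝ) + 2 := by exact_mod_cast hn2
  have hn0 : (0 : ℝ) < (n : ℝ) + 2 := by positivity
  have h4 : 2000 * S8 n B u r / (n + 2) ≤ S8 n B u r := by
    rw [div_le_iff₀ hn0]
    have h5 : S8 n B u r * 2000 ≤ S8 n B u r * ((n : ℝ) + 2) := mul_le_mul_of_nonneg_left (by linarith) hS0
    linarith
  linarith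

end H24
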