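import Pool.Agent.Lib_MP_27c196_co.R.P10a
import Pool.Agent.Lib_MP_27c196_co.R.P10b

/-! H24 R, piece P11: Theorem R (blueprint R10) -/

set_option linter.unusedVariables false

noncomputable section

namespace H24

open Finset

variable {n : ℕ} {B : Finset (Fin 3 → ℕ)} {u : (Fin 3 → ℕ) → Fin 3 → ℝ} {δ C1 : ℝ}

private theorem P11_card_pos (hd : RData n B u δ C1) : 1 ≤ B.card :=
  Finset.card_pos.2 ⟨_, hd.corner 0⟩

private theorem P11_C1_nonneg (hd : RData n B u δ C1) : 0 ≤ C1 := by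
  refine le_trans (Finset.sum_nonneg fun i _ => Finset.sum_nonneg fun c hc => ?_) hd.sumsig
  rw [Finset.mem_filter] at hc
  exact hd.sig i c hc.1 hc.2.1 hc.2.2

private theorem P11_SB_card (n : ℕ) (B : Finset (Fin 3 → ℕ)) : (SB n B).card ≤ 6 * B.card := by
  unfold SB
  refine le_trans Finset.card_biUnion_le ?_
  have h : ∀ l ∈ B, (Finset.univ.biUnion (fun i : Fin 3 =>
      ({(l i : ℤ), (n : ℤ) + 2 - l i} : Finset ℤ))).card ≤ 6 := by
    intro l _
    refine le_trans Finset.card_biUnion_le ?_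
    refine le_trans (Finset.sum_le_sum (fun i _ => Finset.card_le_two)) ?_
    simp
  refine le_trans (Finset.sum_le_sum h) ?_
  simp [mul_comm]

private theorem P11_Fc_nonneg (n r : ℕ) (B : Finset (Fin 3 → ℕ)) (u : (Fin 3 → ℕ) → Fin 3 → ℝ) :
    0 ≤ Fc n r B u := by
  unfold Fc
  positivity

/-- the wall labels: `δ` is small -/
private theorem P11_delta_small (hd : RData n B u δ C1) (hn : 100000 ≤ n)
    (hC : 20000000 * C1 ≤ n) (hb : 2 * B.card ≤ n) : δ ≤ Real.exp (-1) := by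
  have hinj : Function.Injective (fun j : ℕ => lab (n + 2) 0 0 j) := by
    intro a b hab
    have := congrFun hab 1
    simpa [lab] using this
  have hsub : ((range (n + 3)).image (fun j : ℕ => lab (n + 2) 0 0 j)) \ B ⊆
      (Lam (n + 2)).filter (fun l => l 0 = 0 ∧ l ∉ B) := by
    intro l hl
    rw [Finset.mem_sdiff, Finset.mem_image] at hl
    obtain ⟨⟨j, hj, rfl⟩, hlB⟩ := hl
    rw [Finset.mem_range] at hj
    rw [Finset.mem_filter, mem_Lam]
    refine ⟨?_, ?_, hlB⟩
    · simp [lab]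
      omega
    · simp [lab]
  have hcard : n ≤ 2 * ((Lam (n + 2)).filter (fun l => l 0 = 0 ∧ l ∉ B)).card := by
    have h1 := Finset.card_le_card hsub
    have h2 := Finset.le_card_sdiff B ((range (n + 3)).image (fun j : ℕ => lab (n + 2) 0 0 j))
    rw [Finset.card_image_of_injective _ hinj, Finset.card_range] at h2
    omega
  have hsum : (((Lam (n + 2)).filter (fun l => l 0 = 0 ∧ l ∉ B)).card : ℝ) * (δ / 3) ≤ C1 := by
    refine le_trans ?_ hd.sumwall
    have hnn : ∀ i ∈ (Finset.univ : Finset (Fin 3)),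
        0 ≤ ∑ l ∈ (Lam (n + 2)).filter (fun l => l i = 0 ∧ l ∉ B), u l i := by
      intro i _
      refine Finset.sum_nonneg fun l hl => ?_
      rw [Finset.mem_filter] at hl
      have h3 := hd.wall i l hl.1 hl.2.2 hl.2.1
      have h4 := hd.dpos
      linarith
    refine le_trans ?_ (Finset.single_le_sum hnn (Finset.mem_univ 0))
    rw [← nsmul_eq_mul]
    refine Finset.card_nsmul_le_sum _ _ _ fun l hl => ?_
    rw [Finset.mem_filter] at hl
    exact hd.wall 0 l hl.1 hl.2.2 hl.2.1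
  have hcard' : (n : ℝ) ≤ 2 * (((Lam (n + 2)).filter (fun l => l 0 = 0 ∧ l ∉ B)).card : ℝ) := by
    exact_mod_cast hcard
  have hn' : (100000 : ℝ) ≤ n := by exact_mod_cast hn
  have h5 : (n : ℝ) * δ ≤ n / 1000000 := by
    have h6 : (n : ℝ) * (δ / 3) ≤ 2 * C1 := by
      have := mul_le_mul_of_nonneg_right hcard' (by have := hd.dpos; positivity : 0 ≤ δ / 3)
      linarith
    linarith
  have h7 : δ ≤ 1 / 1000000 := by
    by_contra hcon
    rw [not_le] at hcon
    have : (n : ℝ) * (1 / 1000000) < n * δ := mul_lt_mul_of_pos_left hcon (by linarith)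
    linarith
  have h8 : (1 : ℝ) / 1000000 ≤ Real.exp (-1) := by
    rw [Real.exp_neg, one_div]
    refine inv_anti₀ (Real.exp_pos 1) ?_
    have := Real.exp_one_lt_d9
    linarith
  exact h7.trans h8

/-- the increasing chain of scales -/
private theorem P11_chain (hd : RData n B u δ C1) (hn : 100000 ≤ n)
    (hC : 20000000 * C1 ≤ n)
    (hη : ∀ i, ∀ c ∈ Lam (n + 1), c + s (i + 1) ∉ B → c + s (i + 2) ∉ B → sg u i c ≤ 1 / 20)
    (hW : ∀ i, ∀ l ∈ Lam (n + 2), l ∉ B → l i = 0 → u l i ≤ 1 / 3)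
    (T : ℕ) (ρ : ℕ → ℕ) (hρ : ∀ t ≤ T, 20 ≤ ρ t) (hsep : ∀ t ≤ T, Sep n B (ρ t))
    (hlt : ∀ t < T, 40 * ρ t ≤ ρ (t + 1))
    (hrn : ∀ t ≤ T, 24000000000 * B.card * ρ t ≤ n)
    (hm : mr n B u (ρ 0) ≤ 1 / (4 * 10 ^ 8 * (60000 * (B.card : ℝ)) ^ 3)) :
    δ ≤ Real.exp (-(2 : ℝ) ^ (T / 2)) := by
  have hb : (1 : ℝ) ≤ B.card := by exact_mod_cast P11_card_pos hd
  set K : ℝ := 60000 * (B.card : ℝ) with hK
  have hK1 : 60000 ≤ K := by rw [hK]; linarith
  have hK0 : 0 < K := by linarith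
  set E : ℕ → ℝ := fun t => EE n u (wt (ρ t) B) with hE
  set F : ℕ → ℝ := fun t => Fc n (ρ t) B u with hF
  have hE0 : ∀ t, 0 ≤ E t := fun t => EE_nonneg n u (ρ t) B
  have hF0 : ∀ t, 0 ≤ F t := fun t => P11_Fc_nonneg n (ρ t) B u
  set e0 : ℝ := 1 / (4 * 10 ^ 6 * K ^ 2) with he0
  have he0pos : 0 < e0 := by rw [he0]; positivity
  have hKe : K ^ 2 * e0 = 1 / (4 * 10 ^ 6) := by
    rw [he0]; field_simp
  have hKe1 : K * e0 ≤ 1 / (4 * 10 ^ 6) := by
    rw [← hKe]
    nlinarith [mul_pos hK0 he0pos]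
  have hmr0 : 0 ≤ mr n B u (ρ 0) := mr_nonneg
  have hm1 : mr n B u (ρ 0) ≤ 1 / 100 := by
    refine hm.trans ?_
    rw [div_le_div_iff₀ (by positivity) (by norm_num)]
    have : (1 : ℝ) ≤ K ^ 3 := one_le_pow₀ (by linarith)
    linarith
  obtain ⟨hf1, hf2⟩ := first_scale hd hn (hρ 0 (Nat.zero_le _)) (hsep 0 (Nat.zero_le _)) hη hW hC
    (hrn 0 (Nat.zero_le _)) hm1
  rw [← hK] at hf1 hf2
  have hKm : K * mr n B u (ρ 0) ≤ e0 / 100 := by
    have h1 : K * mr n B u (ρ 0) ≤ K * (1 / (4 * 10 ^ 8 * K ^ 3)) :=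
      mul_le_mul_of_nonneg_left hm hK0.le
    refine h1.trans (le_of_eq ?_)
    rw [he0]; field_simp; norm_num
  have hstep : ∀ t < T, E t + 12 * F t ≤ 1 / 10 →
      E (t + 1) ≤ 31800 * K * (E t + 12 * F t) * E t ∧ F (t + 1) ≤ 3 * K * E t := by
    intro t ht hY1
    have hY : SS n u (wt (ρ t) B) + 6 * WW n u (wt (ρ t) B) ≤
        EE n u (wt (ρ t) B) + 12 * Fc n (ρ t) B u := by
      have := (abs_le.1 (SS_EE_WW hd (hρ t ht.le))).2
      linarith
    have := step_scale hd hn (hρ t ht.le) (hlt t ht) (hsep (t + 1) ht) (hrn (t + 1) ht) hY hY1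
    rw [← hK] at this
    exact this
  have hinv : ∀ t, t ≤ T → E t ≤ e0 ∧ E t + 12 * F t ≤ 37 * K * e0 := by
    intro t
    induction t with
    | zero =>
      intro _
      have h1 : E 0 ≤ e0 := by
        have : E 0 ≤ 100 * K * mr n B u (ρ 0) := hf1
        nlinarith
      have h2 : F 0 ≤ 2 * (K * mr n B u (ρ 0)) := by
        have : F 0 ≤ 2 * K * mr n B u (ρ 0) := hf2
        linarith
      refine ⟨h1, ?_⟩
      have h3 : e0 ≤ K * e0 := by nlinarith
      nlinarith
    | succ t ih =>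
      intro ht
      obtain ⟨h1, h2⟩ := ih (by omega)
      have h3 : E t + 12 * F t ≤ 1 / 10 := by
        have : 37 * K * e0 ≤ 37 * (1 / (4 * 10 ^ 6)) := by
          have := mul_le_mul_of_nonneg_left hKe1 (by norm_num : (0 : ℝ) ≤ 37)
          linarith
        have h4 : (37 : ℝ) * (1 / (4 * 10 ^ 6)) ≤ 1 / 10 := by norm_num
        linarith
      obtain ⟨h4, h5⟩ := hstep t (by omega) h3
      have h6 : 31800 * K * (E t + 12 * F t) ≤ 1 := by
        have h7 : K * (E t + 12 * F t) ≤ K * (37 * K * e0) := mul_le_mul_of_nonneg_left h2 hK0.le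
        have h8 : K * (37 * K * e0) = 37 * (1 / (4 * 10 ^ 6)) := by
          rw [← hKe]; ring
        rw [h8] at h7
        have h9 : (31800 : ℝ) * (37 * (1 / (4 * 10 ^ 6))) ≤ 1 := by norm_num
        linarith
      have h7 : E (t + 1) ≤ E t := by
        refine h4.trans ?_
        have := mul_le_mul_of_nonneg_right h6 (hE0 t)
        linarith
      have h8 : E (t + 1) ≤ e0 := h7.trans h1
      refine ⟨h8, ?_⟩
      have h9 : K * E t ≤ K * e0 := mul_le_mul_of_nonneg_left h1 hK0.le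
      have h10 : e0 ≤ K * e0 := by nlinarith
      nlinarith
  have hdec : ∀ t < T, E (t + 1) ≤ E t ∧ E (t + 1) + 12 * F (t + 1) ≤ 37 * K * E t := by
    intro t ht
    obtain ⟨h1, h2⟩ := hinv t ht.le
    have h3 : E t + 12 * F t ≤ 1 / 10 := by
      have : 37 * K * e0 ≤ 37 * (1 / (4 * 10 ^ 6)) := by
        have := mul_le_mul_of_nonneg_left hKe1 (by norm_num : (0 : ℝ) ≤ 37)
        linarith
      have h4 : (37 : ℝ) * (1 / (4 * 10 ^ 6)) ≤ 1 / 10 := by norm_num
      linarith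
    obtain ⟨h4, h5⟩ := hstep t ht h3
    have h6 : 31800 * K * (E t + 12 * F t) ≤ 1 := by
      have h7 : K * (E t + 12 * F t) ≤ K * (37 * K * e0) := mul_le_mul_of_nonneg_left h2 hK0.le
      have h8 : K * (37 * K * e0) = 37 * (1 / (4 * 10 ^ 6)) := by
        rw [← hKe]; ring
      rw [h8] at h7
      have h9 : (31800 : ℝ) * (37 * (1 / (4 * 10 ^ 6))) ≤ 1 := by norm_num
      linarith
    have h7 : E (t + 1) ≤ E t := by
      refine h4.trans ?_
      have := mul_le_mul_of_nonneg_right h6 (hE0 t)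
      linarith
    refine ⟨h7, ?_⟩
    have h10 : E t ≤ K * E t := by
      have := hE0 t
      nlinarith
    nlinarith
  set z : ℕ → ℝ := fun t => 1200000 * K ^ 2 * E t with hz
  have hz0 : ∀ t ≤ T, 0 ≤ z t := fun t _ => by
    have := hE0 t
    simp only [hz]
    positivity
  have hz1 : z 0 ≤ Real.exp (-1) := by
    have h1 : z 0 ≤ 3 / 10 := by
      have h2 : K ^ 2 * E 0 ≤ K ^ 2 * e0 :=
        mul_le_mul_of_nonneg_left (hinv 0 (Nat.zero_le _)).1 (by positivity)
      rw [hKe] at h2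
      simp only [hz]
      have : (1200000 : ℝ) * (1 / (4 * 10 ^ 6)) ≤ 3 / 10 := by norm_num
      nlinarith
    refine h1.trans ?_
    rw [Real.exp_neg]
    rw [show (3 : ℝ) / 10 = (10 / 3)⁻¹ by norm_num]
    refine inv_anti₀ (Real.exp_pos 1) ?_
    have := Real.exp_one_lt_d9
    linarith
  have hfin := iter_seq z T hz0 hz1 (fun hT => by
      have := (hdec 0 (by omega)).1
      simp only [hz]
      exact mul_le_mul_of_nonneg_left this (by positivity)) (fun t ht => by
      have h1 := hdec t (by omega)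
      have h2 := hstep (t + 1) (by omega) (by
        have h3 := (hinv (t + 1) (by omega)).2
        have : 37 * K * e0 ≤ 37 * (1 / (4 * 10 ^ 6)) := by
          have := mul_le_mul_of_nonneg_left hKe1 (by norm_num : (0 : ℝ) ≤ 37)
          linarith
        have h4 : (37 : ℝ) * (1 / (4 * 10 ^ 6)) ≤ 1 / 10 := by norm_num
        linarith)
      have h3 : E (t + 2) ≤ 31800 * K * (37 * K * E t) * E (t + 1) := by
        refine h2.1.trans ?_
        refine mul_le_mul_of_nonneg_right ?_ (hE0 _)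
        exact mul_le_mul_of_nonneg_left h1.2 (by positivity)
      have h4 : E (t + 2) ≤ 1200000 * K ^ 2 * (E t * E (t + 1)) := by
        refine h3.trans ?_
        have h5 : 0 ≤ K ^ 2 * (E t * E (t + 1)) := by
          have := hE0 t
          have := hE0 (t + 1)
          positivity
        nlinarith
      simp only [hz]
      have h6 : 0 ≤ 1200000 * K ^ 2 := by positivity
      calc 1200000 * K ^ 2 * E (t + 2)
          ≤ 1200000 * K ^ 2 * (1200000 * K ^ 2 * (E t * E (t + 1))) :=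
            mul_le_mul_of_nonneg_left h4 h6
        _ = 1200000 * K ^ 2 * E t * (1200000 * K ^ 2 * E (t + 1)) := by ring)
  have hlast := last_scale hd (hρ T le_rfl) (by
    have := hrn T le_rfl
    nlinarith [Nat.zero_le (B.card * ρ T)])
  refine le_trans ?_ hfin
  have h1 : 6 * δ ≤ 2 * E T := hlast
  have h2 := hd.dpos
  have h3 := hE0 T
  have h4 : (1 : ℝ) ≤ K ^ 2 := one_le_pow₀ (by linarith)
  simp only [hz]
  nlinarith

/-- THE ITERATION for a fixed `B` with the bounds of `enlarge`. Put `b = |B| ≥ 1`, `K1 = 60000 b`, `ε = 1 / (4 * 10^8 * K1^3)`, scales `r_j = 20 * 64^j`,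
`j < N` (`hN`: `24000000000 * b * r_j ≤ n`). Among the `j < N` at most `2 (6b)^2` are not separated (`nonsep_card` with `S = SB n B`, card `≤ 6b`), and at most
`8 C1 / ε` have `mr > ε` (`sum_mr`). Let `j_0` be the first separated `j` with `mr ≤ ε`, `j_0 < j_1 < ... < j_T` the separated ones from `j_0` on
(`T ≥ N - 1 - 4 (6b)^2 - 8 C1/ε`). `E_t = EE(r_(j_t))`, `F_t`, `Y_t = E_t + 12 F_t`.
`first_scale`: `E_0 ≤ 100 K1 ε`, `F_0 ≤ 2 K1 ε`, so `Y_0 ≤ 124 K1 ε`. `step_scale`: `E_(t+1) ≤ 31800 K1 Y_t E_t ≤ E_t`, `F_(t+1) ≤ 3 K1 E_t`,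
`Y_(t+1) ≤ 37 K1 E_t ≤ 1/10`; so `z_t = 1200000 K1^2 E_t` satisfies `z_(t+2) ≤ z_t z_(t+1)`, `z_1 ≤ z_0 ≤ exp(-1)` and `iter_seq` gives
`z_T ≤ exp (-(2^(T/2)))`; `last_scale`: `6 δ ≤ 2 E_T ≤ z_T`. (`one_scale` gives `hY` of `step_scale` at each scale.) -/
theorem iteration (hd : RData n B u δ C1) (hn : 100000 ≤ n) (hC0 : 0 ≤ C1) (hC : 20000000 * C1 ≤ n)
    (hη : ∀ i, ∀ c ∈ Lam (n + 1), c + s (i + 1) ∉ B → c + s (i + 2) ∉ B → sg u i c ≤ 1 / 20)
    (hW : ∀ i, ∀ l ∈ Lam (n + 2), l ∉ B → l i = 0 → u l i ≤ 1 / 3)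
    (N : ℕ) (hN : 24000000000 * B.card * (20 * 64 ^ N) ≤ n) :
    ∃ T : ℕ, (N : ℝ) ≤ T + 2 + 4 * (6 * (B.card : ℝ)) ^ 2 + 8 * C1 * (4 * 10 ^ 8 * (60000 * (B.card : ℝ)) ^ 3) ∧
      δ ≤ Real.exp (-(2 : ℝ) ^ (T / 2)) := by
  classical
  have hb := P11_card_pos hd
  have hbR : (1 : ℝ) ≤ B.card := by exact_mod_cast hb
  set ι : ℝ := 4 * 10 ^ 8 * (60000 * (B.card : ℝ)) ^ 3 with hι
  have hι0 : 0 < ι := by rw [hι]; positivity
  have hbound : ∀ j ≤ N, 24000000000 * B.card * (20 * 64 ^ j) ≤ n := fun j hj =>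
    le_trans (Nat.mul_le_mul_left _ (Nat.mul_le_mul_left _ (Nat.pow_le_pow_right (by norm_num) hj)))
      hN
  -- nonseparated scales
  set NS : Finset ℕ := (range N).filter (fun j => ¬ Sep n B (20 * 64 ^ j)) with hNS
  have hNScard : (NS.card : ℝ) ≤ 2 * (6 * (B.card : ℝ)) ^ 2 := by
    have h1 : NS.card ≤ 2 * (SB n B).card ^ 2 := by
      refine le_trans (le_of_eq (congrArg Finset.card ?_))
        (nonsep_card (SB n B) 20 (by norm_num) N)
      rw [hNS]
      ext j
      simp only [Finset.mem_filter]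
      exact Iff.rfl
    have h2 : NS.card ≤ 2 * (6 * B.card) ^ 2 :=
      h1.trans (Nat.mul_le_mul_left _ (Nat.pow_le_pow_left (P11_SB_card n B) 2))
    exact_mod_cast h2
  -- heavy scales
  set HV : Finset ℕ := (range N).filter (fun j => 1 / ι < mr n B u (20 * 64 ^ j)) with hHV
  have hHVcard : (HV.card : ℝ) ≤ 8 * C1 * ι := by
    have h1 := sum_mr hd 20 le_rfl HV
    have h2 : (HV.card : ℝ) * (1 / ι) ≤ ∑ j ∈ HV, mr n B u (20 * 64 ^ j) := by
      rw [← nsmul_eq_mul]
      refine Finset.card_nsmul_le_sum _ _ _ fun j hj => ?_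
      rw [hHV, Finset.mem_filter] at hj
      exact hj.2.le
    have h3 : (HV.card : ℝ) * (1 / ι) ≤ 8 * C1 := h2.trans h1
    rw [mul_one_div, div_le_iff₀ hι0] at h3
    exact h3
  by_cases hex : ∃ j, j < N ∧ Sep n B (20 * 64 ^ j) ∧ mr n B u (20 * 64 ^ j) ≤ 1 / ι
  · have hsp := Nat.find_spec hex
    have hmin : ∀ j < Nat.find hex, ¬ (j < N ∧ Sep n B (20 * 64 ^ j) ∧
      mr n B u (20 * 64 ^ j) ≤ 1 / ι) := fun j hj => Nat.find_min hex hj
    generalize Nat.find hex = j0 at hsp hmin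
    obtain ⟨hj0N, hj0s, hj0m⟩ := hsp
    set S : Finset ℕ := (range N).filter (fun j => j0 ≤ j ∧ Sep n B (20 * 64 ^ j)) with hS
    have hj0S : j0 ∈ S := by
      rw [hS, Finset.mem_filter, Finset.mem_range]
      exact ⟨hj0N, le_rfl, hj0s⟩
    have hSpos : 0 < S.card := Finset.card_pos.2 ⟨j0, hj0S⟩
    obtain ⟨T, hT⟩ : ∃ T, S.card = T + 1 := ⟨S.card - 1, by omega⟩
    have hcover : range N ⊆ S ∪ (NS ∪ HV) := by
      intro j hj
      rw [Finset.mem_union, Finset.mem_union, hS, hNS, hHV, Finset.mem_filter, Finset.mem_filter,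
        Finset.mem_filter]
      have hjN := Finset.mem_range.1 hj
      by_cases hs : Sep n B (20 * 64 ^ j)
      · by_cases hjj : j0 ≤ j
        · exact Or.inl ⟨hj, hjj, hs⟩
        · right; right
          refine ⟨hj, ?_⟩
          have := hmin j (by omega)
          by_contra hcon
          rw [not_lt] at hcon
          exact this ⟨hjN, hs, hcon⟩
      · exact Or.inr (Or.inl ⟨hj, hs⟩)
    have hNle : N ≤ S.card + (NS.card + HV.card) := by
      have h1 := Finset.card_le_card hcover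
      rw [Finset.card_range] at h1
      have h2 := Finset.card_union_le S (NS ∪ HV)
      have h3 := Finset.card_union_le NS HV
      omega
    refine ⟨T, ?_, ?_⟩
    · have h1 : (N : ℝ) ≤ S.card + (NS.card + HV.card) := by exact_mod_cast hNle
      have h2 : (S.card : ℝ) = T + 1 := by rw [hT]; push_cast; ring
      have h3 : 0 ≤ (6 * (B.card : ℝ)) ^ 2 := by positivity
      linarith
    · set e := S.orderEmbOfFin hT with he
      have heS : ∀ t, e t ∈ S := fun t => Finset.orderEmbOfFin_mem S hT t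
      set J : ℕ → ℕ := fun t => e ⟨min t T, by omega⟩ with hJ
      have hJS : ∀ t, J t ∈ S := fun t => heS _
      have hJ0 : J 0 = j0 := by
        have h1 : j0 ≤ J 0 := by
          have := hJS 0
          rw [hS, Finset.mem_filter] at this
          exact this.2.1
        have h2 : J 0 ≤ j0 := by
          have h3 : j0 ∈ Set.range e := by
            rw [he, Finset.range_orderEmbOfFin]
            exact_mod_cast hj0S
          obtain ⟨t, ht⟩ := h3
          rw [← ht]
          exact e.monotone (by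
            rw [Fin.le_def]
            simp)
        omega
      have hJlt : ∀ t < T, J t < J (t + 1) := by
        intro t ht
        refine e.strictMono ?_
        rw [Fin.lt_def]
        simp only
        omega
      refine P11_chain hd hn hC hη hW T (fun t => 20 * 64 ^ J t) ?_ ?_ ?_ ?_ ?_
      · intro t _
        have : 1 ≤ 64 ^ J t := Nat.one_le_pow _ _ (by norm_num)
        show 20 ≤ 20 * 64 ^ J t
        omega
      · intro t _
        have := hJS t
        rw [hS, Finset.mem_filter] at this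
        exact this.2.2
      · intro t ht
        have h1 : 64 ^ (J t + 1) ≤ 64 ^ J (t + 1) := Nat.pow_le_pow_right (by norm_num) (hJlt t ht)
        rw [pow_succ] at h1
        show 40 * (20 * 64 ^ J t) ≤ 20 * 64 ^ J (t + 1)
        omega
      · intro t _
        have := hJS t
        rw [hS, Finset.mem_filter, Finset.mem_range] at this
        exact hbound _ this.1.le
      · show mr n B u (20 * 64 ^ J 0) ≤ _
        rw [hJ0]
        exact hj0m
  · refine ⟨0, ?_, ?_⟩
    · have hcover : range N ⊆ NS ∪ HV := by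
        intro j hj
        rw [Finset.mem_union, hNS, hHV, Finset.mem_filter, Finset.mem_filter]
        by_cases hs : Sep n B (20 * 64 ^ j)
        · right
          refine ⟨hj, ?_⟩
          by_contra hcon
          rw [not_lt] at hcon
          exact hex ⟨j, Finset.mem_range.1 hj, hs, hcon⟩
        · exact Or.inl ⟨hj, hs⟩
      have hNle : N ≤ NS.card + HV.card := by
        have h1 := Finset.card_le_card hcover
        rw [Finset.card_range] at h1
        have h3 := Finset.card_union_le NS HV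
        omega
      have h1 : (N : ℝ) ≤ NS.card + HV.card := by exact_mod_cast hNle
      have h3 : 0 ≤ (6 * (B.card : ℝ)) ^ 2 := by positivity
      push_cast
      linarith
    · have h1 : 2 * B.card ≤ n := by
        have := hbound 0 (Nat.zero_le _)
        omega
      have h2 := P11_delta_small hd hn hC h1
      simpa using h2

/-- THEOREM R: `enlarge`, `iteration`, `param_choice`. -/
theorem theoremR (C1 : ℝ) (Z0 : ℕ) : ∃ n0 : ℕ, ∀ n ≥ n0, ∀ (B : Finset (Fin 3 → ℕ))
    (u : (Fin 3 → ℕ) → Fin 3 → ℝ) (δ : ℝ), RData n B u δ C1 → B.card ≤ Z0 →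
    δ ≤ Real.exp (-((n : ℝ) + 2) ^ ((1 : ℝ) / 20)) := by
  set Bm : ℕ := ⌈(Z0 : ℝ) + 43 * C1⌉₊ with hBm
  set C : ℕ := ⌈2 + 4 * (6 * (Bm : ℝ)) ^ 2 + 8 * C1 * (4 * 10 ^ 8 * (60000 * (Bm : ℝ)) ^ 3)⌉₊ with hC
  obtain ⟨n1, hn1⟩ := param_choice (24000000000 * (Bm + 1)) C (by positivity)
  refine ⟨n1 + 100000 + ⌈20000000 * C1⌉₊, fun n hn B u δ hd hB => ?_⟩
  have hC1 := P11_C1_nonneg hd
  obtain ⟨B', hBB, hd', hcard, hη, hW⟩ := enlarge hd hC1
  have hcard' : (B'.card : ℝ) ≤ Bm := by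
    refine le_trans ?_ (Nat.le_ceil _)
    have : (B.card : ℝ) ≤ Z0 := by exact_mod_cast hB
    linarith
  have hcardN : B'.card ≤ Bm := by exact_mod_cast hcard'
  obtain ⟨N, hN, hNT⟩ := hn1 n (by omega)
  have hC20 : 20000000 * C1 ≤ n := by
    refine le_trans (Nat.le_ceil _) ?_
    have : ⌈20000000 * C1⌉₊ ≤ n := by omega
    exact_mod_cast this
  have hN' : 24000000000 * B'.card * (20 * 64 ^ N) ≤ n := by
    refine le_trans ?_ hN
    have h1 : 24000000000 * B'.card ≤ 24000000000 * (Bm + 1) := by omega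
    calc 24000000000 * B'.card * (20 * 64 ^ N)
        ≤ 24000000000 * (Bm + 1) * (20 * 64 ^ N) := Nat.mul_le_mul_right _ h1
      _ = 20 * 64 ^ N * (24000000000 * (Bm + 1)) := by ring
  obtain ⟨T, hT, hδ⟩ := iteration hd' (by omega) hC1 hC20 hη hW N hN'
  refine hδ.trans (hNT T ?_)
  have hb0 : (0 : ℝ) ≤ B'.card := Nat.cast_nonneg _
  have h1 : (6 * (B'.card : ℝ)) ^ 2 ≤ (6 * (Bm : ℝ)) ^ 2 := by
    gcongr
  have h2 : (60000 * (B'.card : ℝ)) ^ 3 ≤ (60000 * (Bm : ℝ)) ^ 3 := by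
    gcongr
  have h3 : 8 * C1 * (4 * 10 ^ 8 * (60000 * (B'.card : ℝ)) ^ 3) ≤
      8 * C1 * (4 * 10 ^ 8 * (60000 * (Bm : ℝ)) ^ 3) := by
    gcongr
  have h4 : (N : ℝ) ≤ T + C := by
    have h5 := Nat.le_ceil (2 + 4 * (6 * (Bm : ℝ)) ^ 2 + 8 * C1 * (4 * 10 ^ 8 * (60000 * (Bm : ℝ)) ^ 3))
    rw [← hC] at h5
    linarith
  exact_mod_cast h4

end H24
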