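import Mathlib

/-! H24, part R (rigidity), definitions.  See `Pool/Agent/Lib_MP_27c196_co/Blueprint.md`. -/

noncomputable section

namespace H24

open Finset

/-- squared Euclidean length of a sum-zero triple -/
def q (v : Fin 3 → ℝ) : ℝ := (v 0 ^ 2 + v 1 ^ 2 + v 2 ^ 2) / 2

def g (i : Fin 3) (v : Fin 3 → ℝ) : ℝ := v (i + 1) - v (i + 2)

def om (a b : Fin 3 → ℝ) : ℝ := a 0 * b 1 - a 1 * b 0

/-- unit vector (natural number labels) -/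
def s (i : Fin 3) : Fin 3 → ℕ := Pi.single i 1

/-- labels with sum `n` -/
def Lam (n : ℕ) : Finset (Fin 3 → ℕ) := Finset.piAntidiag Finset.univ n

/-- the label with coordinate `i` equal to `a`, coordinate `i+1` equal to `j`, sum `k` (if `a + j ≤ k`) -/
def lab (k : ℕ) (i : Fin 3) (a j : ℕ) : Fin 3 → ℕ :=
  fun t => if t = i then a else if t = i + 1 then j else k - a - j

/-- displacement difference along the edge `(i,c)`, from `c + s (i+2)` to `c + s (i+1)` -/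
def ed (u : (Fin 3 → ℕ) → Fin 3 → ℝ) (i : Fin 3) (c : Fin 3 → ℕ) : Fin 3 → ℝ :=
  fun t => u (c + s (i + 1)) t - u (c + s (i + 2)) t

/-- `sigma`: excess of the squared length of the edge `(i,c)` over 1 -/
def sg (u : (Fin 3 → ℕ) → Fin 3 → ℝ) (i : Fin 3) (c : Fin 3 → ℕ) : ℝ :=
  g i (ed u i c) + q (ed u i c)

/-- `tau(i,c)` -/
def tau (u : (Fin 3 → ℕ) → Fin 3 → ℝ) (i : Fin 3) (c : Fin 3 → ℕ) : ℝ :=
  om (u (c + s (i + 1))) (u (c + s (i + 2)))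

/-- the data of part R, `k = n + 2` -/
structure RData (n : ℕ) (B : Finset (Fin 3 → ℕ)) (u : (Fin 3 → ℕ) → Fin 3 → ℝ) (δ C1 : ℝ) : Prop where
  sum0 : ∀ l, u l 0 + u l 1 + u l 2 = 0
  corner : ∀ i, lab (n + 2) i (n + 2) 0 ∈ B
  sub : B ⊆ Lam (n + 2)
  dpos : 0 ≤ δ
  wall : ∀ i, ∀ l ∈ Lam (n + 2), l ∉ B → l i = 0 → δ / 3 ≤ u l i
  sig : ∀ i, ∀ c ∈ Lam (n + 1), c + s (i + 1) ∉ B → c + s (i + 2) ∉ B → 0 ≤ sg u i c
  small : ∀ i, ∀ c ∈ Lam (n + 1), c + s (i + 1) ∉ B → c + s (i + 2) ∉ B → q (ed u i c) ≤ 1 / 100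
  sumsig : ∑ i, ∑ c ∈ (Lam (n + 1)).filter (fun c => c + s (i + 1) ∉ B ∧ c + s (i + 2) ∉ B), sg u i c ≤ C1
  sumwall : ∑ i, ∑ l ∈ (Lam (n + 2)).filter (fun l => l i = 0 ∧ l ∉ B), u l i ≤ C1

/-- `m_i(a)`: sum of `q` over the edges of the row `i` with index `a` -/
def rowq (n : ℕ) (u : (Fin 3 → ℕ) → Fin 3 → ℝ) (i : Fin 3) (a : ℕ) : ℝ :=
  ∑ c ∈ (Lam (n + 1)).filter (fun c => c i = a), q (ed u i c)

/-- sum of `sigma` over the edges of the row `i` with index `a` -/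
def rows (n : ℕ) (u : (Fin 3 → ℕ) → Fin 3 → ℝ) (i : Fin 3) (a : ℕ) : ℝ :=
  ∑ c ∈ (Lam (n + 1)).filter (fun c => c i = a), sg u i c

/-- `M_a` -/
def M (n : ℕ) (u : (Fin 3 → ℕ) → Fin 3 → ℝ) (a : ℕ) : ℝ :=
  ∑ i, (rowq n u i a + rowq n u i (n + 2 - a))

/-- the index `a` is farther than `t` from all the indices `l i`, `n + 2 - l i`, `l ∈ B` -/
def Far (n : ℕ) (B : Finset (Fin 3 → ℕ)) (t : ℕ) (a : ℕ) : Prop :=
  ∀ l ∈ B, ∀ i, (t : ℤ) < |(a : ℤ) - l i| ∧ (t : ℤ) < |(a : ℤ) - (n + 2 - l i)|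

/-- `v_a` -/
def vv (n : ℕ) (u : (Fin 3 → ℕ) → Fin 3 → ℝ) (a : ℕ) : ℝ := g 0 (u (lab (n + 2) 0 a 0))

/-! ### weight -/

/-- `clamp ((|t| - r)/r) 0 1` -/
def clampf (r : ℕ) (t : ℤ) : ℝ := max 0 (min 1 ((|(t : ℝ)| - r) / r))

/-- median of three numbers -/
def med (a b c : ℝ) : ℝ := max (min a b) (max (min b c) (min c a))

def wz (r : ℕ) (z x : Fin 3 → ℕ) : ℝ :=
  med (clampf r ((x 0 : ℤ) - z 0)) (clampf r ((x 1 : ℤ) - z 1)) (clampf r ((x 2 : ℤ) - z 2))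

/-- the weight at scale `r` -/
def wt (r : ℕ) (B : Finset (Fin 3 → ℕ)) (x : Fin 3 → ℕ) : ℝ :=
  if h : B.Nonempty then B.inf' h (fun z => wz r z x) else 0

/-- max-norm distance at most `d` -/
def Near (d : ℕ) (x y : Fin 3 → ℕ) : Prop := ∀ i, |(x i : ℤ) - y i| ≤ d

/-- the collar: labels `l` (sum `k`) for which the weight changes within distance 2
(among the points of sum `k`, `k-1`, `k-2`) -/
def Collar (r : ℕ) (B : Finset (Fin 3 → ℕ)) (l : Fin 3 → ℕ) : Prop :=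
  ∃ x, Near 2 l x ∧ x 0 + x 1 + x 2 ≤ l 0 + l 1 + l 2 ∧ l 0 + l 1 + l 2 ≤ x 0 + x 1 + x 2 + 2 ∧
    wt r B x ≠ wt r B l

/-- for every `z ∈ B` two coordinates of `x - z` are larger than `t` in absolute value -/
def Act (t : ℕ) (B : Finset (Fin 3 → ℕ)) (x : Fin 3 → ℕ) : Prop :=
  ∀ z ∈ B, ∃ i j, i ≠ j ∧ (t : ℤ) < |(x i : ℤ) - z i| ∧ (t : ℤ) < |(x j : ℤ) - z j|

/-! ### weighted sums; `w` is any weight -/

def EE (n : ℕ) (u : (Fin 3 → ℕ) → Fin 3 → ℝ) (w : (Fin 3 → ℕ) → ℝ) : ℝ :=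
  ∑ c ∈ Lam (n + 1), w c * ∑ i, q (ed u i c) + ∑ b ∈ Lam n, w b * ∑ i, q (ed u i (b + s i))

def SS (n : ℕ) (u : (Fin 3 → ℕ) → Fin 3 → ℝ) (w : (Fin 3 → ℕ) → ℝ) : ℝ :=
  ∑ c ∈ Lam (n + 1), w c * ∑ i, sg u i c + ∑ b ∈ Lam n, w b * ∑ i, sg u i (b + s i)

def OO (n : ℕ) (u : (Fin 3 → ℕ) → Fin 3 → ℝ) (w : (Fin 3 → ℕ) → ℝ) : ℝ :=
  ∑ c ∈ Lam (n + 1), w c * om (ed u 0 c) (ed u 1 c) +
    ∑ b ∈ Lam n, w b * om (ed u 0 (b + s 0)) (ed u 1 (b + s 1))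

def WW (n : ℕ) (u : (Fin 3 → ℕ) → Fin 3 → ℝ) (w : (Fin 3 → ℕ) → ℝ) : ℝ :=
  ∑ i, ∑ l ∈ (Lam (n + 2)).filter (fun l => l i = 0), w l * u l i

open Classical in
/-- `(1/r) * sum over the collar of sqrt q(u)` -/
def Fc (n r : ℕ) (B : Finset (Fin 3 → ℕ)) (u : (Fin 3 → ℕ) → Fin 3 → ℝ) : ℝ :=
  (1 / (r : ℝ)) * ∑ l ∈ (Lam (n + 2)).filter (fun l => Collar r B l), √(q (u l))

/-! ### basic facts -/

lemma mem_Lam {n : ℕ} {c : Fin 3 → ℕ} : c ∈ Lam n ↔ c 0 + c 1 + c 2 = n := by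
  simp [Lam, Fin.sum_univ_three]

lemma q_nonneg (v : Fin 3 → ℝ) : 0 ≤ q v := by unfold q; positivity

end H24
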