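import Pool.Agent.Lib_MP_27c196_co.R.Defs

/-! H24 R, piece P1: identities -/

noncomputable section

namespace H24

open Finset

lemma fin3_11 : (1 : Fin 3) + 1 = 2 := rfl
lemma fin3_12 : (1 : Fin 3) + 2 = 0 := rfl
lemma fin3_21 : (2 : Fin 3) + 1 = 0 := rfl
lemma fin3_22 : (2 : Fin 3) + 2 = 1 := rfl

theorem ident_a (d : Fin 3 → Fin 3 → ℝ) (h0 : ∀ t, d 0 t + d 1 t + d 2 t = 0)
    (hs : ∀ i, d i 0 + d i 1 + d i 2 = 0) :
    ∑ i, q (d i) = 3 * om (d 0) (d 1) + ∑ i, g i (d i) ^ 2 - (1 / 3) * (∑ i, g i (d i)) ^ 2 := by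
  simp only [Fin.sum_univ_three, q, om, g, fin3_11, fin3_12, fin3_21, fin3_22, zero_add]
  have a0 := h0 0
  have a1 := h0 1
  have b0 := hs 0
  have b1 := hs 1
  have b2 := hs 2
  have e20 : d 2 0 = - d 0 0 - d 1 0 := by linarith
  have e21 : d 2 1 = - d 0 1 - d 1 1 := by linarith
  have e02 : d 0 2 = - d 0 0 - d 0 1 := by linarith
  have e12 : d 1 2 = - d 1 0 - d 1 1 := by linarith
  have e22 : d 2 2 = d 0 0 + d 1 0 + d 0 1 + d 1 1 := by linarith
  rw [e20, e21, e02, e12, e22]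
  ring

/-- `6 q = sum g^2` -/
theorem six_q (v : Fin 3 → ℝ) (hv : v 0 + v 1 + v 2 = 0) :
    6 * q v = g 0 v ^ 2 + g 1 v ^ 2 + g 2 v ^ 2 := by
  simp only [q, g, fin3_11, fin3_12, fin3_21, fin3_22, zero_add]
  have e : v 2 = - v 0 - v 1 := by linarith
  rw [e]; ring

theorem g_sum (v : Fin 3 → ℝ) : g 0 v + g 1 v + g 2 v = 0 := by
  simp only [g, fin3_11, fin3_12, fin3_21, fin3_22, zero_add]
  ring

/-- `q v = 3/4 v_i^2 + 1/4 g_i^2` -/
theorem q_split (i : Fin 3) (v : Fin 3 → ℝ) (hv : v 0 + v 1 + v 2 = 0) :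
    q v = 3 / 4 * v i ^ 2 + 1 / 4 * g i v ^ 2 := by
  have e : v 2 = - v 0 - v 1 := by linarith
  fin_cases i <;>
  simp only [q, g, fin3_11, fin3_12, fin3_21, fin3_22, zero_add, Fin.zero_eta, Fin.mk_one,
    Fin.reduceFinMk] <;> rw [e] <;> ring

theorem om_cyc (i : Fin 3) (a b : Fin 3 → ℝ) (ha : a 0 + a 1 + a 2 = 0) (hb : b 0 + b 1 + b 2 = 0) :
    om a b = (a i * g i b - b i * g i a) / 2 := by
  have e : a 2 = - a 0 - a 1 := by linarith
  have e' : b 2 = - b 0 - b 1 := by linarith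
  fin_cases i <;>
  simp only [om, g, fin3_11, fin3_12, fin3_21, fin3_22, zero_add, Fin.zero_eta, Fin.mk_one,
    Fin.reduceFinMk] <;> rw [e, e'] <;> ring

/-- `om^2 <= (4/3) q q'` -/
theorem om_sq_le (a b : Fin 3 → ℝ) (ha : a 0 + a 1 + a 2 = 0) (hb : b 0 + b 1 + b 2 = 0) :
    om a b ^ 2 ≤ 4 / 3 * (q a * q b) := by
  have e : a 2 = - a 0 - a 1 := by linarith
  have e' : b 2 = - b 0 - b 1 := by linarith
  simp only [om, q]
  rw [e, e']
  nlinarith [sq_nonneg (2 * a 0 * b 0 + a 0 * b 1 + a 1 * b 0 + 2 * a 1 * b 1)]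

theorem om_abs_le (a b : Fin 3 → ℝ) (ha : a 0 + a 1 + a 2 = 0) (hb : b 0 + b 1 + b 2 = 0) :
    |om a b| ≤ 1.2 * (√(q a) * √(q b)) := by
  have h := om_sq_le a b ha hb
  have h1 : 0 ≤ √(q a) * √(q b) := by positivity
  apply abs_le_of_sq_le_sq _ (by positivity)
  have h2 : (√(q a) * √(q b)) ^ 2 = q a * q b := by
    rw [mul_pow, Real.sq_sqrt (q_nonneg a), Real.sq_sqrt (q_nonneg b)]
  have h3 := mul_nonneg (q_nonneg a) (q_nonneg b)
  rw [mul_pow, h2]
  nlinarith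

theorem comp_le (i : Fin 3) (v : Fin 3 → ℝ) (hv : v 0 + v 1 + v 2 = 0) : |v i| ≤ 1.2 * √(q v) := by
  have h := q_split i v hv
  apply abs_le_of_sq_le_sq _ (by positivity)
  rw [mul_pow, Real.sq_sqrt (q_nonneg v)]
  nlinarith [sq_nonneg (v i), sq_nonneg (g i v)]

theorem g_le (i : Fin 3) (v : Fin 3 → ℝ) (hv : v 0 + v 1 + v 2 = 0) : |g i v| ≤ 2 * √(q v) := by
  have h := q_split i v hv
  apply abs_le_of_sq_le_sq _ (by positivity)
  rw [mul_pow, Real.sq_sqrt (q_nonneg v)]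
  nlinarith [sq_nonneg (v i), sq_nonneg (g i v)]

theorem sqrt_q_le (i j : Fin 3) (hij : i ≠ j) (v : Fin 3 → ℝ) (hv : v 0 + v 1 + v 2 = 0) :
    √(q v) ≤ |g i v| + |g j v| := by
  have h6 := six_q v hv
  have hs := g_sum v
  rw [Real.sqrt_le_left (by positivity)]
  have e0 : (|g i v| + |g j v|) ^ 2 = g i v ^ 2 + g j v ^ 2 + 2 * |g i v * g j v| := by
    rw [abs_mul]
    nlinarith [sq_abs (g i v), sq_abs (g j v)]
  rw [e0]
  have e2 := le_abs_self (g i v * g j v)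
  have e3 := neg_abs_le (g i v * g j v)
  have hi := sq_nonneg (g i v)
  have hj := sq_nonneg (g j v)
  have key : 6 * q v = 2 * (g i v ^ 2 + g j v ^ 2 + g i v * g j v) := by
    rw [h6]
    have e : g 2 v = - g 0 v - g 1 v := by linarith
    fin_cases i <;> fin_cases j <;> simp at hij ⊢ <;> rw [e] <;> ring
  nlinarith

theorem om_up (u : (Fin 3 → ℕ) → Fin 3 → ℝ) (c : Fin 3 → ℕ) :
    om (ed u 0 c) (ed u 1 c) = ∑ i, tau u i c := by
  simp only [Fin.sum_univ_three, om, ed, tau, fin3_11, fin3_12, fin3_21, fin3_22, zero_add]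
  ring

theorem om_down (u : (Fin 3 → ℕ) → Fin 3 → ℝ) (b : Fin 3 → ℕ) :
    om (ed u 0 (b + s 0)) (ed u 1 (b + s 1)) = - ∑ i, tau u i (b + s i) := by
  simp only [Fin.sum_univ_three, om, ed, tau, fin3_11, fin3_12, fin3_21, fin3_22, zero_add]
  have e1 : b + s 1 + s 0 = b + s 0 + s 1 := by abel
  have e2 : b + s 2 + s 0 = b + s 0 + s 2 := by abel
  have e3 : b + s 2 + s 1 = b + s 1 + s 2 := by abel
  rw [e1, e2, e3]
  ring

theorem g_up (u : (Fin 3 → ℕ) → Fin 3 → ℝ) (hu : ∀ l, u l 0 + u l 1 + u l 2 = 0) (c : Fin 3 → ℕ) :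
    ∑ i, g i (ed u i c) = 3 * ∑ j, u (c + s j) j := by
  simp only [Fin.sum_univ_three, g, ed, fin3_11, fin3_12, fin3_21, fin3_22, zero_add]
  have h0 := hu (c + s 0)
  have h1 := hu (c + s 1)
  have h2 := hu (c + s 2)
  linarith

theorem g_down (u : (Fin 3 → ℕ) → Fin 3 → ℝ) (hu : ∀ l, u l 0 + u l 1 + u l 2 = 0) (b : Fin 3 → ℕ) :
    ∑ i, g i (ed u i (b + s i)) = - 3 * ∑ j, u (b + s (j + 1) + s (j + 2)) j := by
  simp only [Fin.sum_univ_three, g, ed, fin3_11, fin3_12, fin3_21, fin3_22, zero_add]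
  have e1 : b + s 1 + s 0 = b + s 0 + s 1 := by abel
  have e2 : b + s 2 + s 0 = b + s 0 + s 2 := by abel
  have e3 : b + s 2 + s 1 = b + s 1 + s 2 := by abel
  rw [e1, e2, e3]
  have h0 := hu (b + s 0 + s 1)
  have h1 := hu (b + s 0 + s 2)
  have h2 := hu (b + s 1 + s 2)
  linarith

/-- reindexing `b ↦ b + s i` -/
theorem sum_shift1 (n : ℕ) (i : Fin 3) (F : (Fin 3 → ℕ) → ℝ) :
    ∑ b ∈ Lam n, F (b + s i) = ∑ c ∈ (Lam (n + 1)).filter (fun c => 1 ≤ c i), F c := by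
  apply Finset.sum_bij' (fun b _ => b + s i) (fun c _ => c - s i)
  · intro b hb
    rw [mem_Lam] at hb
    rw [mem_filter, mem_Lam]
    fin_cases i <;> simp [s, Pi.add_apply] <;> omega
  · intro c hc
    rw [mem_filter, mem_Lam] at hc
    rw [mem_Lam]
    fin_cases i <;> simp [s] at hc ⊢ <;> omega
  · intro b hb
    funext t
    simp
  · intro c hc
    rw [mem_filter, mem_Lam] at hc
    funext t
    have h := hc.2
    fin_cases i <;> fin_cases t <;> simp [s] at h ⊢ <;> omega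
  · intro b hb
    rfl

/-- reindexing `b ↦ b + s (j+1) + s (j+2)` -/
theorem sum_shift2 (n : ℕ) (j : Fin 3) (F : (Fin 3 → ℕ) → ℝ) :
    ∑ b ∈ Lam n, F (b + s (j + 1) + s (j + 2)) =
      ∑ l ∈ (Lam (n + 2)).filter (fun l => 1 ≤ l (j + 1) ∧ 1 ≤ l (j + 2)), F l := by
  apply Finset.sum_bij' (fun b _ => b + s (j + 1) + s (j + 2)) (fun c _ => c - s (j + 1) - s (j + 2))
  · intro b hb
    rw [mem_Lam] at hb
    rw [mem_filter, mem_Lam]
    fin_cases j <;> simp [s, Pi.add_apply] <;> omega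
  · intro c hc
    rw [mem_filter, mem_Lam] at hc
    rw [mem_Lam]
    fin_cases j <;> simp [s] at hc ⊢ <;> omega
  · intro b hb
    funext t
    simp only [Pi.sub_apply, Pi.add_apply]
    omega
  · intro c hc
    rw [mem_filter, mem_Lam] at hc
    funext t
    have h := hc.2
    fin_cases j <;> fin_cases t <;> simp [s] at h ⊢ <;> omega
  · intro b hb
    rfl

/-- identity (A) -/
theorem ident_A (n : ℕ) (u : (Fin 3 → ℕ) → Fin 3 → ℝ) (w : (Fin 3 → ℕ) → ℝ) :
    OO n u w = ∑ i, ∑ c ∈ Lam (n + 1), tau u i c * (w c - if 1 ≤ c i then w (c - s i) else 0) := by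
  unfold OO
  have h1 : ∑ c ∈ Lam (n + 1), w c * om (ed u 0 c) (ed u 1 c) =
      ∑ i, ∑ c ∈ Lam (n + 1), tau u i c * w c := by
    rw [Finset.sum_comm]
    apply Finset.sum_congr rfl
    intro c _
    rw [om_up, Finset.mul_sum]
    apply Finset.sum_congr rfl
    intro i _
    ring
  have h2 : ∑ b ∈ Lam n, w b * om (ed u 0 (b + s 0)) (ed u 1 (b + s 1)) =
      - ∑ i, ∑ c ∈ Lam (n + 1), tau u i c * (if 1 ≤ c i then w (c - s i) else 0) := by
    have h3 : ∀ i : Fin 3, ∑ c ∈ Lam (n + 1), tau u i c * (if 1 ≤ c i then w (c - s i) else 0) =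
        ∑ b ∈ Lam n, tau u i (b + s i) * w b := by
      intro i
      have h4 := sum_shift1 n i (fun c => tau u i c * w (c - s i))
      simp only [add_tsub_cancel_right] at h4
      rw [h4, Finset.sum_filter]
      apply Finset.sum_congr rfl
      intro c _
      split_ifs <;> simp
    simp only [h3]
    rw [Finset.sum_comm, ← Finset.sum_neg_distrib]
    apply Finset.sum_congr rfl
    intro b _
    rw [om_down, ← Finset.sum_mul]
    ring
  rw [h1, h2, ← sub_eq_add_neg, ← Finset.sum_sub_distrib]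
  apply Finset.sum_congr rfl
  intro i _
  rw [← Finset.sum_sub_distrib]
  apply Finset.sum_congr rfl
  intro c _
  ring

/-- identity (B) -/
theorem ident_B (n : ℕ) (u : (Fin 3 → ℕ) → Fin 3 → ℝ) (w : (Fin 3 → ℕ) → ℝ)
    (hu : ∀ l, u l 0 + u l 1 + u l 2 = 0) :
    SS n u w - EE n u w = 3 * ∑ l ∈ Lam (n + 2), ∑ j, u l j *
      ((if 1 ≤ l j then w (l - s j) else 0) -
        (if 1 ≤ l (j + 1) ∧ 1 ≤ l (j + 2) then w (l - s (j + 1) - s (j + 2)) else 0)) := by
  unfold SS EE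
  have h0 : ∑ c ∈ Lam (n + 1), w c * ∑ i, sg u i c + ∑ b ∈ Lam n, w b * ∑ i, sg u i (b + s i) -
      (∑ c ∈ Lam (n + 1), w c * ∑ i, q (ed u i c) + ∑ b ∈ Lam n, w b * ∑ i, q (ed u i (b + s i))) =
      ∑ c ∈ Lam (n + 1), w c * ∑ i, g i (ed u i c) +
        ∑ b ∈ Lam n, w b * ∑ i, g i (ed u i (b + s i)) := by
    have e : ∀ a b c d : ℝ, a + b - (c + d) = (a - c) + (b - d) := by intros; ring
    rw [e, ← Finset.sum_sub_distrib, ← Finset.sum_sub_distrib]
    congr 1 <;>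
    · apply Finset.sum_congr rfl
      intro c _
      simp only [sg, Finset.sum_add_distrib]
      ring
  rw [h0]
  have h1 : ∑ c ∈ Lam (n + 1), w c * ∑ i, g i (ed u i c) =
      3 * ∑ l ∈ Lam (n + 2), ∑ j, u l j * (if 1 ≤ l j then w (l - s j) else 0) := by
    rw [Finset.sum_comm]
    have h3 : ∀ j : Fin 3, ∑ l ∈ Lam (n + 2), u l j * (if 1 ≤ l j then w (l - s j) else 0) =
        ∑ c ∈ Lam (n + 1), u (c + s j) j * w c := by
      intro j
      have h4 := sum_shift1 (n + 1) j (fun l => u l j * w (l - s j))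
      simp only [add_tsub_cancel_right] at h4
      rw [h4, Finset.sum_filter]
      apply Finset.sum_congr rfl
      intro c _
      split_ifs <;> simp
    simp only [h3]
    rw [Finset.sum_comm, Finset.mul_sum]
    apply Finset.sum_congr rfl
    intro c _
    rw [g_up u hu, ← Finset.sum_mul]
    ring
  have h2 : ∑ b ∈ Lam n, w b * ∑ i, g i (ed u i (b + s i)) =
      - (3 * ∑ l ∈ Lam (n + 2), ∑ j, u l j *
        (if 1 ≤ l (j + 1) ∧ 1 ≤ l (j + 2) then w (l - s (j + 1) - s (j + 2)) else 0)) := by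
    rw [Finset.sum_comm]
    have h3 : ∀ j : Fin 3, ∑ l ∈ Lam (n + 2), u l j *
        (if 1 ≤ l (j + 1) ∧ 1 ≤ l (j + 2) then w (l - s (j + 1) - s (j + 2)) else 0) =
        ∑ b ∈ Lam n, u (b + s (j + 1) + s (j + 2)) j * w b := by
      intro j
      have h4 := sum_shift2 n j (fun l => u l j * w (l - s (j + 1) - s (j + 2)))
      have h5 : ∀ b : Fin 3 → ℕ, b + s (j + 1) + s (j + 2) - s (j + 1) - s (j + 2) = b := by
        intro b
        funext t
        simp only [Pi.sub_apply, Pi.add_apply]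
        omega
      simp only [h5] at h4
      rw [h4, Finset.sum_filter]
      apply Finset.sum_congr rfl
      intro c _
      split_ifs <;> simp
    simp only [h3]
    rw [Finset.sum_comm, Finset.mul_sum, ← Finset.sum_neg_distrib]
    apply Finset.sum_congr rfl
    intro b _
    rw [g_down u hu, ← Finset.sum_mul]
    ring
  rw [h1, h2, ← sub_eq_add_neg, ← mul_sub, ← Finset.sum_sub_distrib]
  congr 1
  apply Finset.sum_congr rfl
  intro l _
  rw [← Finset.sum_sub_distrib]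
  apply Finset.sum_congr rfl
  intro j _
  ring

end H24
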