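import Mathlib

/-! H24 R, piece P10a: two elementary counting facts used in the iteration (blueprint R10) -/

set_option linter.unusedVariables false

noncomputable section

namespace H24

open Finset

/-- first `z (t+1) ≤ z t ≤ exp (-1)` for all `t < T` by induction, then `z (2s+2) ≤ z (2s) * z (2s+1) ≤ (z (2s))^2`. -/
theorem iter_seq (z : ℕ → ℝ) (T : ℕ) (h0 : ∀ t ≤ T, 0 ≤ z t) (hz0 : z 0 ≤ Real.exp (-1))
    (hz1 : 1 ≤ T → z 1 ≤ z 0) (h : ∀ t, t + 2 ≤ T → z (t + 2) ≤ z t * z (t + 1)) :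
    z T ≤ Real.exp (-(2 : ℝ) ^ (T / 2)) := by
  have key : ∀ t : ℕ, t ≤ T → z t ≤ Real.exp (-(2 : ℝ) ^ (t / 2)) := by
    intro t
    induction t using Nat.strong_induction_on with
    | _ t ih =>
      intro ht
      match t, ih, ht with
      | 0, ih, ht => simpa using hz0
      | 1, ih, ht =>
        have h1 := hz1 ht
        have : z 1 ≤ Real.exp (-1) := h1.trans hz0
        simpa using this
      | s + 2, ih, ht =>
        have h1 := h s ht
        have e1 := ih s (by omega) (by omega)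
        have e2 := ih (s + 1) (by omega) (by omega)
        have e3 : Real.exp (-(2 : ℝ) ^ ((s + 1) / 2)) ≤ Real.exp (-(2 : ℝ) ^ (s / 2)) := by
          apply Real.exp_le_exp.mpr
          have : (2 : ℝ) ^ (s / 2) ≤ (2 : ℝ) ^ ((s + 1) / 2) :=
            pow_le_pow_right₀ (by norm_num) (by omega)
          linarith
        have e4 : z (s + 1) ≤ Real.exp (-(2 : ℝ) ^ (s / 2)) := e2.trans e3
        have e5 : z s * z (s + 1) ≤ Real.exp (-(2 : ℝ) ^ (s / 2)) * Real.exp (-(2 : ℝ) ^ (s / 2)) :=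
          mul_le_mul e1 e4 (h0 _ (by omega)) (Real.exp_pos _).le
        have e6 : Real.exp (-(2 : ℝ) ^ (s / 2)) * Real.exp (-(2 : ℝ) ^ (s / 2)) =
            Real.exp (-(2 : ℝ) ^ ((s + 2) / 2)) := by
          rw [← Real.exp_add]
          congr 1
          have : (s + 2) / 2 = s / 2 + 1 := by omega
          rw [this, pow_succ]
          ring
        linarith
  exact key T le_rfl

/-- For a pair `x, y` with `D = |x - y|` the bad `j` satisfy `D / 40 < R0 * 64^j < 10 D`; as `400 < 64^2` there are at most two. -/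
theorem nonsep_card (S : Finset ℤ) (R0 : ℕ) (hR : 0 < R0) (N : ℕ) :
    ((range N).filter (fun j => ¬ ∀ x ∈ S, ∀ y ∈ S,
      10 * |x - y| ≤ ((R0 * 64 ^ j : ℕ) : ℤ) ∨ 40 * ((R0 * 64 ^ j : ℕ) : ℤ) ≤ |x - y|)).card ≤ 2 * S.card ^ 2 := by
  classical
  set B : ℤ × ℤ → Finset ℕ := fun p => (range N).filter (fun j =>
    ((R0 * 64 ^ j : ℕ) : ℤ) < 10 * |p.1 - p.2| ∧ |p.1 - p.2| < 40 * ((R0 * 64 ^ j : ℕ) : ℤ)) with hB
  have hsub : ((range N).filter (fun j => ¬ ∀ x ∈ S, ∀ y ∈ S,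
      10 * |x - y| ≤ ((R0 * 64 ^ j : ℕ) : ℤ) ∨ 40 * ((R0 * 64 ^ j : ℕ) : ℤ) ≤ |x - y|)) ⊆
      (S ×ˢ S).biUnion B := by
    intro j hj
    rw [mem_filter] at hj
    obtain ⟨hjN, hj⟩ := hj
    push Not at hj
    obtain ⟨x, hx, y, hy, h1, h2⟩ := hj
    rw [mem_biUnion]
    refine ⟨(x, y), mem_product.mpr ⟨hx, hy⟩, ?_⟩
    rw [hB, mem_filter]
    exact ⟨hjN, h1, h2⟩
  have hcard : ∀ p ∈ S ×ˢ S, (B p).card ≤ 2 := by
    intro p _
    by_cases hne : (B p).Nonempty
    · set m := (B p).min' hne with hm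
      have hmB : m ∈ B p := min'_mem _ _
      have hsub2 : B p ⊆ {m, m + 1} := by
        intro j hj
        have hmj : m ≤ j := min'_le _ _ hj
        by_contra hcon
        have hj2 : m + 2 ≤ j := by
          simp only [mem_insert, mem_singleton] at hcon
          omega
        rw [hB, mem_filter] at hj hmB
        obtain ⟨_, h1, h2⟩ := hj
        obtain ⟨_, h3, h4⟩ := hmB
        have hpow : (64 : ℕ) ^ m * 4096 ≤ 64 ^ j := by
          have : (64 : ℕ) ^ (m + 2) ≤ 64 ^ j := Nat.pow_le_pow_right (by norm_num) hj2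
          calc (64 : ℕ) ^ m * 4096 = 64 ^ (m + 2) := by rw [pow_add]; norm_num
            _ ≤ _ := this
        have hq : ((R0 * 64 ^ m : ℕ) : ℤ) * 4096 ≤ ((R0 * 64 ^ j : ℕ) : ℤ) := by
          have : R0 * 64 ^ m * 4096 ≤ R0 * 64 ^ j := by
            rw [mul_assoc]
            exact Nat.mul_le_mul_left _ hpow
          exact_mod_cast this
        have hpos : (0 : ℤ) < ((R0 * 64 ^ m : ℕ) : ℤ) := by
          have : 0 < R0 * 64 ^ m := by positivity
          exact_mod_cast this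
        omega
      exact (card_le_card hsub2).trans (card_le_two)
    · rw [not_nonempty_iff_eq_empty] at hne
      rw [hne]
      simp
  calc _ ≤ ((S ×ˢ S).biUnion B).card := card_le_card hsub
    _ ≤ ∑ p ∈ S ×ˢ S, (B p).card := card_biUnion_le
    _ ≤ ∑ p ∈ S ×ˢ S, 2 := sum_le_sum hcard
    _ = 2 * S.card ^ 2 := by
      rw [sum_const, card_product]
      simp
      ring

/-- choice of the parameters: for all constants `A, C` (natural numbers) there is `n0` such that for `n ≥ n0` there is `N` with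
`20 * 64 ^ N * A ≤ n` and, for every `T` with `N ≤ T + C`, `exp (-(2^(T/2))) ≤ exp (-((n+2)^(1/20)))`.
(take `N` maximal; then `64^(N+1) * 20 * A > n`, `2^(T/2) ≥ 2^((N-C-1)/2) = 64^((N-C-1)/12) ≥ c n^(1/12)`) -/
theorem param_choice (A C : ℕ) (hA : 0 < A) : ∃ n0 : ℕ, ∀ n ≥ n0, ∃ N : ℕ, 20 * 64 ^ N * A ≤ n ∧
    ∀ T : ℕ, N ≤ T + C → Real.exp (-(2 : ℝ) ^ (T / 2)) ≤ Real.exp (-((n : ℝ) + 2) ^ ((1 : ℝ) / 20)) := by
  refine ⟨20 * 64 ^ (4 + 22 * A + 10 * C) * A, fun n hn => ?_⟩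
  have h20 : 0 < 20 * A := by omega
  have hdiv : 64 ^ (4 + 22 * A + 10 * C) ≤ n / (20 * A) := by
    rw [Nat.le_div_iff_mul_le h20]
    calc 64 ^ (4 + 22 * A + 10 * C) * (20 * A) = 20 * 64 ^ (4 + 22 * A + 10 * C) * A := by ring
      _ ≤ n := hn
  have hne : n / (20 * A) ≠ 0 := by
    have : 0 < 64 ^ (4 + 22 * A + 10 * C) := by positivity
    omega
  refine ⟨Nat.log 64 (n / (20 * A)), ?_, ?_⟩
  · have h1 := Nat.pow_log_le_self 64 hne
    have h2 := (Nat.le_div_iff_mul_le h20).mp h1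
    calc 20 * 64 ^ Nat.log 64 (n / (20 * A)) * A = 64 ^ Nat.log 64 (n / (20 * A)) * (20 * A) := by ring
      _ ≤ n := h2
  · intro T hT
    set N := Nat.log 64 (n / (20 * A)) with hN
    have hN0 : 4 + 22 * A + 10 * C ≤ N := by
      rw [hN]
      exact Nat.le_log_of_pow_le (by norm_num) hdiv
    have hlt : n / (20 * A) < 64 ^ (N + 1) := Nat.lt_pow_succ_log_self (by norm_num) _
    have hlt2 : n < 64 ^ (N + 1) * (20 * A) := (Nat.div_lt_iff_lt_mul h20).mp hlt
    have hK : 22 * A ≤ 2 ^ (22 * A) := Nat.lt_two_pow_self.le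
    have h64 : (64 : ℕ) ^ (N + 1) = 2 ^ (6 * N + 6) := by
      have : (64 : ℕ) = 2 ^ 6 := by norm_num
      rw [this, ← pow_mul]
      congr 1
    have hn2 : n + 2 ≤ 2 ^ (20 * (T / 2)) := by
      have e1 : 1 ≤ 64 ^ (N + 1) := Nat.one_le_pow _ _ (by norm_num)
      have e2 : n + 2 ≤ 64 ^ (N + 1) * (22 * A) := by
        nlinarith
      have e3 : 64 ^ (N + 1) * (22 * A) ≤ 2 ^ (6 * N + 6) * 2 ^ (22 * A) := by
        rw [h64]
        exact Nat.mul_le_mul_left _ hK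
      have e4 : (2 : ℕ) ^ (6 * N + 6) * 2 ^ (22 * A) ≤ 2 ^ (20 * (T / 2)) := by
        rw [← pow_add]
        apply Nat.pow_le_pow_right (by norm_num)
        omega
      exact e2.trans (e3.trans e4)
    apply Real.exp_le_exp.mpr
    have hreal : ((n : ℝ) + 2) ≤ ((2 : ℝ) ^ (T / 2)) ^ 20 := by
      rw [← pow_mul, mul_comm (T / 2) 20]
      exact_mod_cast hn2
    have hroot : ((n : ℝ) + 2) ^ ((1 : ℝ) / 20) ≤ (2 : ℝ) ^ (T / 2) := by
      have hp : (0 : ℝ) ≤ (2 : ℝ) ^ (T / 2) := by positivity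
      have h1 : ((n : ℝ) + 2) ^ ((1 : ℝ) / 20) ≤ (((2 : ℝ) ^ (T / 2)) ^ 20) ^ ((1 : ℝ) / 20) :=
        Real.rpow_le_rpow (by positivity) hreal (by norm_num)
      have h2 : (((2 : ℝ) ^ (T / 2)) ^ 20) ^ ((1 : ℝ) / 20) = (2 : ℝ) ^ (T / 2) := by
        rw [← Real.rpow_natCast ((2 : ℝ) ^ (T / 2)) 20, ← Real.rpow_mul hp]
        norm_num
      rw [h2] at h1
      exact h1
    linarith

end H24
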