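import Pool.Agent.Lib_MP_27c196_co.R.P1

/-! H24 R, piece P2: orbits -/

set_option linter.unusedSimpArgs false
set_option linter.unusedVariables false
set_option linter.unnecessarySimpa false

noncomputable section

namespace H24

open Finset

lemma lab_add1 (n : ℕ) (i : Fin 3) (a j : ℕ) :
    lab (n + 1) i a j + s (i + 1) = lab (n + 2) i a (j + 1) := by
  funext t
  fin_cases i <;> fin_cases t <;> simp [lab, s, fin3_11, fin3_12, fin3_21, fin3_22] <;> omega

lemma lab_add2 (n : ℕ) (i : Fin 3) (a j : ℕ) (h : a + j ≤ n + 1) :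
    lab (n + 1) i a j + s (i + 2) = lab (n + 2) i a j := by
  funext t
  fin_cases i <;> fin_cases t <;> simp [lab, s, fin3_11, fin3_12, fin3_21, fin3_22] <;> omega

lemma lab_mem (k : ℕ) (i : Fin 3) (a j : ℕ) (h : a + j ≤ k) : lab k i a j ∈ Lam k := by
  rw [mem_Lam]
  fin_cases i <;> simp [lab, fin3_11, fin3_12, fin3_21, fin3_22] <;> omega

lemma lab_i (k : ℕ) (i : Fin 3) (a j : ℕ) : lab k i a j i = a := by simp [lab]

lemma lab_i1 (k : ℕ) (i : Fin 3) (a j : ℕ) : lab k i a j (i + 1) = j := by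
  fin_cases i <;> simp [lab, fin3_11, fin3_12, fin3_21, fin3_22]

lemma lab_i2 (k : ℕ) (i : Fin 3) (a j : ℕ) : lab k i a j (i + 2) = k - a - j := by
  fin_cases i <;> simp [lab, fin3_11, fin3_12, fin3_21, fin3_22]

lemma eq_lab (k : ℕ) (i : Fin 3) (l : Fin 3 → ℕ) (hl : l ∈ Lam k) : l = lab k i (l i) (l (i + 1)) := by
  rw [mem_Lam] at hl
  funext t
  fin_cases i <;> fin_cases t <;> simp [lab, fin3_11, fin3_12, fin3_21, fin3_22] <;> omega

lemma lab_end (n : ℕ) (i : Fin 3) (a : ℕ) (h : a ≤ n + 2) :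
    lab (n + 2) i a (n + 2 - a) = lab (n + 2) (i + 1) (n + 2 - a) 0 := by
  funext t
  fin_cases i <;> fin_cases t <;> simp [lab, fin3_11, fin3_12, fin3_21, fin3_22] <;> omega

theorem row_param (n : ℕ) (i : Fin 3) (a : ℕ) (F : (Fin 3 → ℕ) → ℝ) :
    ∑ c ∈ (Lam (n + 1)).filter (fun c => c i = a), F c = ∑ j ∈ range (n + 2 - a), F (lab (n + 1) i a j) := by
  apply Finset.sum_bij' (fun c _ => c (i + 1)) (fun j _ => lab (n + 1) i a j)
  · intro c hc
    rw [mem_filter, mem_Lam] at hc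
    rw [mem_range]
    fin_cases i <;> simp [fin3_11, fin3_12, fin3_21, fin3_22] at hc ⊢ <;> omega
  · intro j hj
    rw [mem_range] at hj
    rw [mem_filter]
    exact ⟨lab_mem _ _ _ _ (by omega), lab_i _ _ _ _⟩
  · intro c hc
    rw [mem_filter] at hc
    have := eq_lab (n + 1) i c hc.1
    rw [hc.2] at this
    exact this.symm
  · intro j hj
    exact lab_i1 _ _ _ _
  · intro c hc
    rw [mem_filter] at hc
    have := eq_lab (n + 1) i c hc.1
    rw [hc.2] at this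
    rw [← this]

/-- the edge `(i, lab (n+1) i a j)` -/
lemma ed_lab (n : ℕ) (u : (Fin 3 → ℕ) → Fin 3 → ℝ) (i : Fin 3) (a j : ℕ) (h : a + j ≤ n + 1) (t : Fin 3) :
    ed u i (lab (n + 1) i a j) t = u (lab (n + 2) i a (j + 1)) t - u (lab (n + 2) i a j) t := by
  rw [ed, lab_add1, lab_add2 n i a j h]

lemma g_ed_lab (n : ℕ) (u : (Fin 3 → ℕ) → Fin 3 → ℝ) (i t : Fin 3) (a j : ℕ) (h : a + j ≤ n + 1) :
    g t (ed u i (lab (n + 1) i a j)) = g t (u (lab (n + 2) i a (j + 1))) - g t (u (lab (n + 2) i a j)) := by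
  simp only [g, ed_lab n u i a j h]; ring

theorem row_tele (n : ℕ) (u : (Fin 3 → ℕ) → Fin 3 → ℝ) (i : Fin 3) (a : ℕ) :
    ∑ c ∈ (Lam (n + 1)).filter (fun c => c i = a), g i (ed u i c) =
      g i (u (lab (n + 2) i a (n + 2 - a))) - g i (u (lab (n + 2) i a 0)) := by
  rw [row_param]
  rw [← Finset.sum_range_sub (fun j => g i (u (lab (n + 2) i a j))) (n + 2 - a)]
  apply Finset.sum_congr rfl
  intro j hj
  rw [mem_range] at hj
  exact g_ed_lab n u i i a j (by omega)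

/-- junction -/
theorem junction (i : Fin 3) (v : Fin 3 → ℝ) (hv : v 0 + v 1 + v 2 = 0) :
    g i v - g (i + 1) v = - 3 * v (i + 2) := by
  fin_cases i <;> simp [g, fin3_11, fin3_12, fin3_21, fin3_22] <;> linarith

/-- the wall value at the end of the row `i` with index `a` -/
def Wd (n : ℕ) (u : (Fin 3 → ℕ) → Fin 3 → ℝ) (i : Fin 3) (a : ℕ) : ℝ :=
  u (lab (n + 2) i a (n + 2 - a)) (i + 2)

theorem orbit_identity (n : ℕ) (u : (Fin 3 → ℕ) → Fin 3 → ℝ) (hu : ∀ l, u l 0 + u l 1 + u l 2 = 0)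
    (a : ℕ) (ha : a ≤ n + 2) :
    M n u a = ∑ i, (rows n u i a + rows n u i (n + 2 - a)) +
      3 * ∑ i, (Wd n u i a + Wd n u i (n + 2 - a)) := by
  have e : ∀ (i : Fin 3) (b : ℕ), rows n u i b = rowq n u i b +
      (g i (u (lab (n + 2) i b (n + 2 - b))) - g i (u (lab (n + 2) i b 0))) := by
    intro i b
    rw [← row_tele, rows, rowq, ← Finset.sum_add_distrib]
    apply Finset.sum_congr rfl
    intro c _
    rw [sg]; ring
  have j : ∀ (i : Fin 3) (b : ℕ), b ≤ n + 2 → g i (u (lab (n + 2) i b (n + 2 - b))) =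
      g (i + 1) (u (lab (n + 2) (i + 1) (n + 2 - b) 0)) - 3 * Wd n u i b := by
    intro i b hb
    have h1 := junction i (u (lab (n + 2) i b (n + 2 - b))) (hu _)
    have h2 : g (i + 1) (u (lab (n + 2) i b (n + 2 - b))) = g (i + 1) (u (lab (n + 2) (i + 1) (n + 2 - b) 0)) := by
      rw [lab_end n i b hb]
    rw [← h2, Wd]
    linarith
  have hb : n + 2 - (n + 2 - a) = a := by omega
  unfold M
  simp only [Fin.sum_univ_three, e]
  rw [j 0 a ha, j 1 a ha, j 2 a ha, j 0 (n + 2 - a) (by omega), j 1 (n + 2 - a) (by omega),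
    j 2 (n + 2 - a) (by omega), hb]
  simp only [fin3_11, fin3_21, zero_add]
  ring

end H24
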