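import Pool.Agent.Lib_MP_27c196_co.R.P2

/-! H24 R, piece P2b: orbit values (blueprint R1, R2).

`Far n B 0 a` = the index `a` is clear (no `l ∈ B` has a coordinate `a` or `n+2-a`).
Available from P2: `row_param`, `row_tele`, `g_ed_lab`, `junction`, `orbit_identity`, `lab_*`, `eq_lab`. -/

set_option linter.unusedSimpArgs false
set_option linter.unusedVariables false

noncomputable section

namespace H24

open Finset

variable {n : ℕ} {B : Finset (Fin 3 → ℕ)} {u : (Fin 3 → ℕ) → Fin 3 → ℝ} {δ C1 : ℝ}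

private lemma rowq_nonneg_P2b (n : ℕ) (u : (Fin 3 → ℕ) → Fin 3 → ℝ) (i : Fin 3) (a : ℕ) :
    0 ≤ rowq n u i a :=
  Finset.sum_nonneg fun _ _ => q_nonneg _

theorem M_nonneg (n : ℕ) (u : (Fin 3 → ℕ) → Fin 3 → ℝ) (a : ℕ) : 0 ≤ M n u a :=
  Finset.sum_nonneg fun i _ => add_nonneg (rowq_nonneg_P2b n u i a) (rowq_nonneg_P2b n u i _)

theorem M_symm (n : ℕ) (u : (Fin 3 → ℕ) → Fin 3 → ℝ) (a : ℕ) (ha : a ≤ n + 2) :
    M n u (n + 2 - a) = M n u a := by
  unfold M
  have hb : n + 2 - (n + 2 - a) = a := by omega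
  rw [hb]
  exact Finset.sum_congr rfl fun i _ => add_comm _ _

theorem Far_symm (n : ℕ) (B : Finset (Fin 3 → ℕ)) (t a : ℕ) (ha : a ≤ n + 2) (h : Far n B t a) :
    Far n B t (n + 2 - a) := by
  intro l hl i
  have h1 := h l hl i
  have e : (((n + 2 - a : ℕ)) : ℤ) = (n : ℤ) + 2 - a := by
    rw [Nat.cast_sub ha]; push_cast; ring
  rw [e]
  have e1 : (n : ℤ) + 2 - a - (l i : ℤ) = -((a : ℤ) - (n + 2 - l i)) := by ring
  have e2 : (n : ℤ) + 2 - a - (n + 2 - (l i : ℤ)) = -((a : ℤ) - l i) := by ring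
  rw [e1, e2, abs_neg, abs_neg]
  exact ⟨h1.2, h1.1⟩

/-- a label with a clear coordinate is not in `B`. -/
theorem notMem_of_clear {a : ℕ} (hc : Far n B 0 a) (ha : a ≤ n + 2) {l : Fin 3 → ℕ} {i : Fin 3}
    (h : l i = a ∨ l i = n + 2 - a) : l ∉ B := by
  intro hl
  have h1 := hc l hl i
  rcases h with h | h
  · have := h1.1
    rw [h] at this
    simp at this
  · have h2 := h1.2
    rw [h, Nat.cast_sub ha] at h2
    push_cast at h2
    have e : (a : ℤ) - ((n : ℤ) + 2 - ((n : ℤ) + 2 - a)) = 0 := by ring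
    rw [e] at h2
    simp at h2

private lemma add_s_P2b (c : Fin 3 → ℕ) (i : Fin 3) :
    (c + s (i + 1)) i = c i ∧ (c + s (i + 2)) i = c i := by
  fin_cases i <;> simp [s, fin3_11, fin3_12, fin3_21, fin3_22]

/-- rows with clear index: every edge has both ends outside `B`, so `sigma >= 0` and `q <= 1/100`. -/
theorem clear_edge (hd : RData n B u δ C1) {a : ℕ} (hc : Far n B 0 a) (ha : a ≤ n + 2) {c : Fin 3 → ℕ}
    (hcm : c ∈ Lam (n + 1)) {i : Fin 3} (h : c i = a ∨ c i = n + 2 - a) :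
    c + s (i + 1) ∉ B ∧ c + s (i + 2) ∉ B ∧ 0 ≤ sg u i c ∧ q (ed u i c) ≤ 1 / 100 := by
  have h1 : c + s (i + 1) ∉ B :=
    notMem_of_clear hc ha (i := i) (by rw [(add_s_P2b c i).1]; exact h)
  have h2 : c + s (i + 2) ∉ B :=
    notMem_of_clear hc ha (i := i) (by rw [(add_s_P2b c i).2]; exact h)
  exact ⟨h1, h2, hd.sig i c hcm h1 h2, hd.small i c hcm h1 h2⟩

/-- the wall values at the ends of clear rows are at least `δ/3`. -/
theorem Wd_ge (hd : RData n B u δ C1) {a : ℕ} (hc : Far n B 0 a) (ha : a ≤ n + 2) (i : Fin 3) :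
    δ / 3 ≤ Wd n u i a ∧ δ / 3 ≤ Wd n u i (n + 2 - a) := by
  have key : ∀ b : ℕ, b ≤ n + 2 → (b = a ∨ b = n + 2 - a) → δ / 3 ≤ Wd n u i b := by
    intro b hb hba
    refine hd.wall (i + 2) _ (lab_mem _ _ _ _ (by omega))
      (notMem_of_clear hc ha (i := i) (by rw [lab_i]; exact hba)) ?_
    rw [lab_i2]
    omega
  exact ⟨key a ha (Or.inl rfl), key _ (by omega) (Or.inr rfl)⟩

private lemma rows_nonneg_P2b (hd : RData n B u δ C1) {a : ℕ} (hc : Far n B 0 a) (ha : a ≤ n + 2)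
    (i : Fin 3) {b : ℕ} (hb : b = a ∨ b = n + 2 - a) : 0 ≤ rows n u i b := by
  refine Finset.sum_nonneg fun c hcm => ?_
  rw [mem_filter] at hcm
  exact (clear_edge hd hc ha hcm.1 (i := i) (by rw [hcm.2]; exact hb)).2.2.1

theorem M_ge (hd : RData n B u δ C1) {a : ℕ} (hc : Far n B 0 a) (ha : a ≤ n + 2) :
    6 * δ ≤ M n u a := by
  rw [orbit_identity n u hd.sum0 a ha]
  have h1 := fun i => rows_nonneg_P2b hd hc ha i (b := a) (Or.inl rfl)
  have h2 := fun i => rows_nonneg_P2b hd hc ha i (b := n + 2 - a) (Or.inr rfl)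
  have h3 := fun i => Wd_ge hd hc ha i
  simp only [Fin.sum_univ_three]
  have a0 := h1 0
  have a1 := h1 1
  have a2 := h1 2
  have b0 := h2 0
  have b1 := h2 1
  have b2 := h2 2
  have c0 := h3 0
  have c1 := h3 1
  have c2 := h3 2
  linarith [c0.1, c0.2, c1.1, c1.2, c2.1, c2.2]

/-- variation along a clear row, from its start -/
private lemma row_var_P2b (hd : RData n B u δ C1) {a : ℕ} (hc : Far n B 0 a) (ha : a ≤ n + 2)
    (i : Fin 3) {b : ℕ} (hb : b = a ∨ b = n + 2 - a) {j : ℕ} (hj : j ≤ n + 2 - b) :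
    |g i (u (lab (n + 2) i b j)) - g i (u (lab (n + 2) i b 0))| ≤ rows n u i b + rowq n u i b := by
  have e : rows n u i b + rowq n u i b =
      ∑ t ∈ range (n + 2 - b), (sg u i (lab (n + 1) i b t) + q (ed u i (lab (n + 1) i b t))) := by
    rw [rows, rowq, ← Finset.sum_add_distrib, row_param n i b (fun c => sg u i c + q (ed u i c))]
  have hbk : b ≤ n + 2 := by omega
  have hsg : ∀ t ∈ range (n + 2 - b), 0 ≤ sg u i (lab (n + 1) i b t) := by
    intro t ht
    rw [mem_range] at ht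
    exact (clear_edge hd hc ha (lab_mem _ _ _ _ (by omega)) (i := i) (by rw [lab_i]; exact hb)).2.2.1
  rw [e, ← Finset.sum_range_sub (fun t => g i (u (lab (n + 2) i b t))) j]
  refine le_trans (Finset.abs_sum_le_sum_abs _ _) ?_
  refine le_trans (Finset.sum_le_sum (g := fun t =>
    sg u i (lab (n + 1) i b t) + q (ed u i (lab (n + 1) i b t))) ?_) ?_
  · intro t ht
    rw [mem_range] at ht
    have h1 := hsg t (mem_range.2 (by omega))
    have h2 := q_nonneg (ed u i (lab (n + 1) i b t))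
    have h3 := g_ed_lab n u i i b t (by omega)
    rw [← h3]
    have h4 : g i (ed u i (lab (n + 1) i b t)) =
        sg u i (lab (n + 1) i b t) - q (ed u i (lab (n + 1) i b t)) := by
      rw [sg]; ring
    rw [h4, abs_le]
    constructor <;> linarith
  · refine Finset.sum_le_sum_of_subset_of_nonneg ?_ ?_
    · intro t ht
      rw [mem_range] at ht ⊢
      omega
    · intro t ht _
      have h1 := hsg t ht
      have h2 := q_nonneg (ed u i (lab (n + 1) i b t))
      linarith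

/-- from the start of a clear row to the start of the next row of the orbit -/
private lemma row_step_P2b (hd : RData n B u δ C1) {a : ℕ} (hc : Far n B 0 a) (ha : a ≤ n + 2)
    (i : Fin 3) {b : ℕ} (hb : b = a ∨ b = n + 2 - a) :
    |g (i + 1) (u (lab (n + 2) (i + 1) (n + 2 - b) 0)) - g i (u (lab (n + 2) i b 0))| ≤
      rows n u i b + rowq n u i b + 3 * Wd n u i b := by
  have h1 := row_var_P2b hd hc ha i hb (j := n + 2 - b) le_rfl
  have hbk : b ≤ n + 2 := by omega
  have h2 := junction i (u (lab (n + 2) i b (n + 2 - b))) (hd.sum0 _)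
  have h3 : g (i + 1) (u (lab (n + 2) i b (n + 2 - b))) =
      g (i + 1) (u (lab (n + 2) (i + 1) (n + 2 - b) 0)) := by
    rw [lab_end n i b hbk]
  have h4 : u (lab (n + 2) i b (n + 2 - b)) (i + 2) = Wd n u i b := rfl
  rw [h3, h4] at h2
  have h5 : 0 ≤ Wd n u i b := by
    have hw := Wd_ge hd hc ha i
    have hδ := hd.dpos
    rcases hb with hb | hb
    · rw [hb]; linarith [hw.1]
    · rw [hb]; linarith [hw.2]
  rw [abs_le] at h1 ⊢
  constructor <;> linarith [h1.1, h1.2]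

/-- (R2) Along the closed orbit: start of row `0` index `a` -> its end = start of row `1` index `k-a` (jump `3 Wd`)
-> ... -> end of row `2` index `k-a` = start of row `0` index `a`. Every step changes `g_i` by
`|g_i(d)| = |sg - q| <= sg + q`, the total variation is at most `sum sg + sum q + 3 sum Wd = 2 M_a`
(`orbit_identity`). -/
theorem orbit_val (hd : RData n B u δ C1) {a : ℕ} (hc : Far n B 0 a) (ha : a ≤ n + 2) (i : Fin 3)
    {l : Fin 3 → ℕ} (hl : l ∈ Lam (n + 2)) (h : l i = a ∨ l i = n + 2 - a) :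
    |g i (u l) - vv n u a| ≤ 2 * M n u a := by
  have hid := orbit_identity n u hd.sum0 a ha
  have hM : M n u a = ∑ i, (rowq n u i a + rowq n u i (n + 2 - a)) := rfl
  simp only [Fin.sum_univ_three] at hid hM
  have hb2 : n + 2 - (n + 2 - a) = a := by omega
  have s0 := row_step_P2b hd hc ha 0 (b := a) (Or.inl rfl)
  have s1 := row_step_P2b hd hc ha 1 (b := n + 2 - a) (Or.inr rfl)
  have s2 := row_step_P2b hd hc ha 2 (b := a) (Or.inl rfl)
  have s3 := row_step_P2b hd hc ha 0 (b := n + 2 - a) (Or.inr rfl)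
  have s4 := row_step_P2b hd hc ha 1 (b := a) (Or.inl rfl)
  have s5 := row_step_P2b hd hc ha 2 (b := n + 2 - a) (Or.inr rfl)
  simp only [fin3_11, fin3_21, zero_add, hb2] at s0 s1 s2 s3 s4 s5
  have hv : vv n u a = g 0 (u (lab (n + 2) 0 a 0)) := rfl
  rw [hv]
  -- the position inside the row
  have hmem := hl
  rw [mem_Lam] at hmem
  have hj : l (i + 1) ≤ n + 2 - l i := by
    fin_cases i <;> simp [fin3_11, fin3_12, fin3_21, fin3_22] <;> omega
  have hpos := row_var_P2b hd hc ha i (b := l i) h hj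
  rw [← eq_lab (n + 2) i l hl] at hpos
  -- nonnegativity of the pieces
  have ra := fun i => rows_nonneg_P2b hd hc ha i (b := a) (Or.inl rfl)
  have rb := fun i => rows_nonneg_P2b hd hc ha i (b := n + 2 - a) (Or.inr rfl)
  have qa := fun i => rowq_nonneg_P2b n u i a
  have qb := fun i => rowq_nonneg_P2b n u i (n + 2 - a)
  have hw : ∀ i, 0 ≤ Wd n u i a ∧ 0 ≤ Wd n u i (n + 2 - a) := by
    intro i
    have h1 := Wd_ge hd hc ha i
    have hδ := hd.dpos
    exact ⟨by linarith [h1.1], by linarith [h1.2]⟩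
  have ra0 := ra 0
  have ra1 := ra 1
  have ra2 := ra 2
  have rb0 := rb 0
  have rb1 := rb 1
  have rb2 := rb 2
  have qa0 := qa 0
  have qa1 := qa 1
  have qa2 := qa 2
  have qb0 := qb 0
  have qb1 := qb 1
  have qb2 := qb 2
  have w0 := hw 0
  have w1 := hw 1
  have w2 := hw 2
  obtain ⟨w0a, w0b⟩ := w0
  obtain ⟨w1a, w1b⟩ := w1
  obtain ⟨w2a, w2b⟩ := w2
  rw [abs_le] at s0 s1 s2 s3 s4 s5
  obtain ⟨s0a, s0b⟩ := s0
  obtain ⟨s1a, s1b⟩ := s1
  obtain ⟨s2a, s2b⟩ := s2
  obtain ⟨s3a, s3b⟩ := s3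
  obtain ⟨s4a, s4b⟩ := s4
  clear s5 ra rb qa qb hw hmem
  rcases h with h | h
  · rw [h] at hpos
    rw [abs_le] at hpos ⊢
    obtain ⟨p1, p2⟩ := hpos
    fin_cases i
    · simp only [Fin.zero_eta] at p1 p2 ⊢
      constructor <;> linarith
    · simp only [Fin.mk_one] at p1 p2 ⊢
      constructor <;> linarith
    · simp only [Fin.reduceFinMk] at p1 p2 ⊢
      constructor <;> linarith
  · rw [h] at hpos
    rw [abs_le] at hpos ⊢
    obtain ⟨p1, p2⟩ := hpos
    fin_cases i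
    · simp only [Fin.zero_eta] at p1 p2 ⊢
      constructor <;> linarith
    · simp only [Fin.mk_one] at p1 p2 ⊢
      constructor <;> linarith
    · simp only [Fin.reduceFinMk] at p1 p2 ⊢
      constructor <;> linarith

theorem v_symm (hd : RData n B u δ C1) {a : ℕ} (hc : Far n B 0 a) (ha : a ≤ n + 2) :
    |vv n u (n + 2 - a) - vv n u a| ≤ 2 * M n u a :=
  orbit_val hd hc ha 0 (l := lab (n + 2) 0 (n + 2 - a) 0) (lab_mem _ _ _ _ (by omega))
    (Or.inr (lab_i _ _ _ _))

/-- `g_0 + g_1 + g_2 = 0` at the label `l` (`g_sum`). -/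
theorem v_sum (hd : RData n B u δ C1) {l : Fin 3 → ℕ} (hl : l ∈ Lam (n + 2))
    (hc : ∀ i, Far n B 0 (l i)) :
    |vv n u (l 0) + vv n u (l 1) + vv n u (l 2)| ≤ 2 * (M n u (l 0) + M n u (l 1) + M n u (l 2)) := by
  have hmem := hl
  rw [mem_Lam] at hmem
  have h0 := orbit_val hd (hc 0) (by omega) 0 hl (Or.inl rfl)
  have h1 := orbit_val hd (hc 1) (by omega) 1 hl (Or.inl rfl)
  have h2 := orbit_val hd (hc 2) (by omega) 2 hl (Or.inl rfl)
  have h3 := g_sum (u l)
  rw [abs_le] at h0 h1 h2 ⊢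
  obtain ⟨a0, b0⟩ := h0
  obtain ⟨a1, b1⟩ := h1
  obtain ⟨a2, b2⟩ := h2
  constructor <;> linarith

end H24
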