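import Mathlib

/-! H24 R, piece P3: Lemma V (blueprint R3), purely combinatorial. -/

set_option linter.unusedVariables false

noncomputable section

namespace H24

open Finset

/-- Counting: if every map `g i` is injective on `S` and `n * #Bd < #S`, some `y ∈ S` has all `g i y` outside `Bd`. -/
private theorem P3_pick (S Bd : Finset ℕ) (n : ℕ) (g : Fin n → ℕ → ℕ)
    (hg : ∀ i, ∀ x ∈ S, ∀ y ∈ S, g i x = g i y → x = y) (h : n * Bd.card < S.card) :
    ∃ y ∈ S, ∀ i, g i y ∉ Bd := by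
  by_contra hcon
  push Not at hcon
  have hsub : S ⊆ (Finset.univ : Finset (Fin n)).biUnion (fun i => S.filter (fun y => g i y ∈ Bd)) := by
    intro y hy
    obtain ⟨i, hi⟩ := hcon y hy
    rw [Finset.mem_biUnion]
    exact ⟨i, Finset.mem_univ _, Finset.mem_filter.2 ⟨hy, hi⟩⟩
  have hcard : ∀ i : Fin n, (S.filter (fun y => g i y ∈ Bd)).card ≤ Bd.card := by
    intro i
    refine Finset.card_le_card_of_injOn (g i) ?_ ?_
    · intro y hy
      exact (Finset.mem_filter.1 hy).2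
    · intro x hx y hy hxy
      exact hg i x (Finset.mem_filter.1 hx).1 y (Finset.mem_filter.1 hy).1 hxy
  have h1 := Finset.card_le_card hsub
  have h2 : ((Finset.univ : Finset (Fin n)).biUnion (fun i => S.filter (fun y => g i y ∈ Bd))).card ≤
      ∑ i : Fin n, (S.filter (fun y => g i y ∈ Bd)).card := Finset.card_biUnion_le
  have h3 : ∑ i : Fin n, (S.filter (fun y => g i y ∈ Bd)).card ≤ ∑ _i : Fin n, Bd.card :=
    Finset.sum_le_sum fun i _ => hcard i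
  rw [Finset.sum_const, Finset.card_univ, Fintype.card_fin, smul_eq_mul] at h3
  omega

/-- Light indices. -/
private def P3_light (k : ℕ) (M : ℕ → ℝ) (Cl : ℕ → Prop) (mu : ℝ) (a : ℕ) : Prop :=
  a ≤ k ∧ Cl a ∧ M a ≤ mu

section

variable {k : ℕ} {v M : ℕ → ℝ} {Cl : ℕ → Prop} {mu : ℝ}

private theorem P3_light_sub (hMs : ∀ a ≤ k, M (k - a) = M a) (hCs : ∀ a ≤ k, Cl a → Cl (k - a))
    {a : ℕ} (h : P3_light k M Cl mu a) : P3_light k M Cl mu (k - a) :=
  ⟨Nat.sub_le k a, hCs a h.1 h.2.1, by rw [hMs a h.1]; exact h.2.2⟩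

/-- `v a + v b + v c` is small, when `a + b + c = k`, for light indices. -/
private theorem P3_three (hv3 : ∀ a b c, a + b + c = k → Cl a → Cl b → Cl c →
      |v a + v b + v c| ≤ 2 * (M a + M b + M c))
    {a b c : ℕ} (h : a + b + c = k) (ha : P3_light k M Cl mu a) (hb : P3_light k M Cl mu b)
    (hc : P3_light k M Cl mu c) : |v a + v b + v c| ≤ 6 * mu := by
  have h1 := hv3 a b c h ha.2.1 hb.2.1 hc.2.1
  have h2 := ha.2.2
  have h3 := hb.2.2
  have h4 := hc.2.2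
  linarith

private theorem P3_sym (hvs : ∀ a ≤ k, Cl a → |v (k - a) - v a| ≤ 2 * M a)
    {a : ℕ} (ha : P3_light k M Cl mu a) : |v (k - a) - v a| ≤ 2 * mu := by
  have h1 := hvs a ha.1 ha.2.1
  have h2 := ha.2.2
  linarith

/-- Step 1. -/
private theorem P3_step1 (hMs : ∀ a ≤ k, M (k - a) = M a) (hCs : ∀ a ≤ k, Cl a → Cl (k - a))
    (hvs : ∀ a ≤ k, Cl a → |v (k - a) - v a| ≤ 2 * M a)
    (hv3 : ∀ a b c, a + b + c = k → Cl a → Cl b → Cl c → |v a + v b + v c| ≤ 2 * (M a + M b + M c))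
    {a x : ℕ} (hxa : x < a) (hak : 2 * a ≤ k) (ha : P3_light k M Cl mu a)
    (hx : P3_light k M Cl mu x) (hp : P3_light k M Cl mu (a + x)) (hm : P3_light k M Cl mu (a - x))
    (h2 : P3_light k M Cl mu (2 * a)) : |v x + 2 * v a| ≤ 24 * mu := by
  have e1 := P3_three hv3 (a := a) (b := x) (c := k - (a + x)) (by omega) ha hx
    (P3_light_sub hMs hCs hp)
  have s1 := P3_sym hvs hp
  have e2 := P3_three hv3 (a := k - a) (b := x) (c := a - x) (by omega)
    (P3_light_sub hMs hCs ha) hx hm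
  have s2 := P3_sym hvs ha
  have e3 := P3_three hv3 (a := a + x) (b := a - x) (c := k - 2 * a) (by omega) hp hm
    (P3_light_sub hMs hCs h2)
  have s3 := P3_sym hvs h2
  have e4 := P3_three hv3 (a := a) (b := a) (c := k - 2 * a) (by omega) ha ha
    (P3_light_sub hMs hCs h2)
  rw [abs_le] at *
  constructor <;> linarith [e1.1, e1.2, s1.1, s1.2, e2.1, e2.2, s2.1, s2.2, e3.1, e3.2, s3.1, s3.2,
    e4.1, e4.2]

/-- Step 2. -/
private theorem P3_step2 {va vy vx : ℝ} (h1 : |vy + 2 * va| ≤ 24 * mu) (h2 : |vx + 2 * vy| ≤ 24 * mu)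
    (h3 : |vx + 2 * va| ≤ 24 * mu) : |va| ≤ 16 * mu := by
  rw [abs_le] at *
  constructor <;> linarith [h1.1, h1.2, h2.1, h2.2, h3.1, h3.2]

end

/-- Step 3. -/
private theorem P3_step3 (k : ℕ) (hk : 100000 ≤ k) (v M : ℕ → ℝ) (Cl : ℕ → Prop) (mu : ℝ)
    (hMs : ∀ a ≤ k, M (k - a) = M a) (hCs : ∀ a ≤ k, Cl a → Cl (k - a))
    (hvs : ∀ a ≤ k, Cl a → |v (k - a) - v a| ≤ 2 * M a)
    (hv3 : ∀ a b c, a + b + c = k → Cl a → Cl b → Cl c → |v a + v b + v c| ≤ 2 * (M a + M b + M c))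
    (Bd : Finset ℕ) (hBd : ∀ a ≤ k, a ∉ Bd → Cl a ∧ M a ≤ mu) (hcard : 1000 * Bd.card ≤ k)
    (a : ℕ) (ha1 : k ≤ 20 * a) (ha2 : 2 * a ≤ k) (hla : P3_light k M Cl mu a)
    (hl2 : P3_light k M Cl mu (2 * a)) : |v a| ≤ 16 * mu := by
  have hL : ∀ c, c ≤ k → c ∉ Bd → P3_light k M Cl mu c := fun c h1 h2 => ⟨h1, hBd c h1 h2⟩
  -- choose y
  obtain ⟨y, hy, hyg⟩ := P3_pick (Finset.Ico (k / 40) a) Bd 4
    ![fun y => y, fun y => a + y, fun y => a - y, fun y => 2 * y] (by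
      intro i x hx y hy hxy
      rw [Finset.mem_Ico] at hx hy
      fin_cases i <;> simp at hxy <;> omega) (by
      rw [Nat.card_Ico]
      omega)
  rw [Finset.mem_Ico] at hy
  have y1 : y ∉ Bd := hyg 0
  have y2 : a + y ∉ Bd := hyg 1
  have y3 : a - y ∉ Bd := hyg 2
  have y4 : 2 * y ∉ Bd := hyg 3
  obtain ⟨x, hx, hxg⟩ := P3_pick (Finset.Ico 1 y) Bd 5
    ![fun x => x, fun x => y + x, fun x => y - x, fun x => a + x, fun x => a - x] (by
      intro i x hx z hz hxy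
      rw [Finset.mem_Ico] at hx hz
      fin_cases i <;> simp at hxy <;> omega) (by
      rw [Nat.card_Ico]
      omega)
  rw [Finset.mem_Ico] at hx
  have x1 : x ∉ Bd := hxg 0
  have x2 : y + x ∉ Bd := hxg 1
  have x3 : y - x ∉ Bd := hxg 2
  have x4 : a + x ∉ Bd := hxg 3
  have x5 : a - x ∉ Bd := hxg 4
  have hly := hL y (by omega) y1
  have hlx := hL x (by omega) x1
  have h1 := P3_step1 hMs hCs hvs hv3 (a := a) (x := y) hy.2 ha2 hla hly
    (hL _ (by omega) y2) (hL _ (by omega) y3) hl2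
  have h2 := P3_step1 hMs hCs hvs hv3 (a := y) (x := x) hx.2 (by omega) hly hlx
    (hL _ (by omega) x2) (hL _ (by omega) x3) (hL _ (by omega) y4)
  have h3 := P3_step1 hMs hCs hvs hv3 (a := a) (x := x) (by omega) ha2 hla hlx
    (hL _ (by omega) x4) (hL _ (by omega) x5) hl2
  exact P3_step2 h1 h2 h3

/-- Step 4, for `b ≤ k/2`. -/
private theorem P3_half (k : ℕ) (hk : 100000 ≤ k) (v M : ℕ → ℝ) (Cl : ℕ → Prop) (mu : ℝ)
    (hmu : 0 ≤ mu)
    (hMs : ∀ a ≤ k, M (k - a) = M a) (hCs : ∀ a ≤ k, Cl a → Cl (k - a))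
    (hvs : ∀ a ≤ k, Cl a → |v (k - a) - v a| ≤ 2 * M a)
    (hv3 : ∀ a b c, a + b + c = k → Cl a → Cl b → Cl c → |v a + v b + v c| ≤ 2 * (M a + M b + M c))
    (Bd : Finset ℕ) (hBd : ∀ a ≤ k, a ∉ Bd → Cl a ∧ M a ≤ mu) (hcard : 1000 * Bd.card ≤ k)
    (b : ℕ) (hb : 2 * b ≤ k) (hCb : Cl b) : |v b| ≤ 2 * M b + 40 * mu := by
  have hL : ∀ c, c ≤ k → c ∉ Bd → P3_light k M Cl mu c := fun c h1 h2 => ⟨h1, hBd c h1 h2⟩
  obtain ⟨x, hx, hxg⟩ := P3_pick (Finset.Ico (k / 20 + 1) (k / 8)) Bd 5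
    ![fun x => x, fun x => 2 * x, fun x => b + x, fun x => 2 * (b + x),
      fun x => 2 * (k - (b + x))] (by
      intro i x hx z hz hxy
      rw [Finset.mem_Ico] at hx hz
      fin_cases i <;> simp at hxy <;> omega) (by
      rw [Nat.card_Ico]
      omega)
  rw [Finset.mem_Ico] at hx
  have x1 : x ∉ Bd := hxg 0
  have x2 : 2 * x ∉ Bd := hxg 1
  have x3 : b + x ∉ Bd := hxg 2
  have x4 : 2 * (b + x) ∉ Bd := hxg 3
  have x5 : 2 * (k - (b + x)) ∉ Bd := hxg 4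
  have hlx := hL x (by omega) x1
  have hvx : |v x| ≤ 16 * mu := P3_step3 k hk v M Cl mu hMs hCs hvs hv3 Bd hBd hcard x (by omega)
    (by omega) hlx (hL _ (by omega) x2)
  have hlc := hL (b + x) (by omega) x3
  have hlc' := P3_light_sub hMs hCs hlc
  have hvc : |v (k - (b + x))| ≤ 18 * mu := by
    by_cases hc : 2 * (b + x) ≤ k
    · have h1 : |v (b + x)| ≤ 16 * mu := P3_step3 k hk v M Cl mu hMs hCs hvs hv3 Bd hBd hcard (b + x)
        (by omega) hc hlc (hL _ hc x4)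
      have h2 := P3_sym hvs hlc
      rw [abs_le] at *
      constructor <;> linarith [h1.1, h1.2, h2.1, h2.2]
    · have h1 : |v (k - (b + x))| ≤ 16 * mu := P3_step3 k hk v M Cl mu hMs hCs hvs hv3 Bd hBd hcard
        (k - (b + x)) (by omega) (by omega) hlc' (hL _ (by omega) x5)
      linarith
  have h3 := hv3 b x (k - (b + x)) (by omega) hCb hlx.2.1 hlc'.2.1
  have h4 := hlx.2.2
  have h5 := hlc'.2.2
  rw [abs_le] at *
  constructor <;> linarith [hvx.1, hvx.2, hvc.1, hvc.2, h3.1, h3.2]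

/-- Call `a ≤ k` light if `Cl a ∧ M a ≤ mu` (so `k - a` is light too: `hCs`, `hMs`). At most `k/1000` of the indices
`0..k` are not light.  O(.) below means: absolute value at most.
Step 1. For light `a, x, a + x, a - x, 2a` with `1 ≤ x < a ≤ k/2` (so that all labels exist):
 `(a, x, k-a-x)`: `v a + v x + v (a+x) = O(8 mu)` (use `hvs` for `v (k-a-x)` versus `v (a+x)`),
 `(k-a, x, a-x)`: `v a + v x + v (a-x) = O(8 mu)`,
 `(a+x, a-x, k-2a)`: `v (a+x) + v (a-x) + v (2a) = O(8 mu)`,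
 `(a, a, k-2a)`: `2 v a + v (2a) = O(8 mu)`.
 Hence `v (a+x) = v (a-x) + O(16 mu)`, `v (a+x) + v (a-x) = 2 v a + O(16 mu)`, `v (a+x) = v a + O(16 mu)`,
 `v x = -2 v a + O(24 mu)`.
Step 2. If also `x < y < a` and `y, a ± y, y ± x, 2y` are light: `v y = -2 v a + O(24 mu)`, `v x = -2 v y + O(24 mu)`,
 so `v x = 4 v a + O(72 mu)`, `6 v a = O(96 mu)`, `|v a| ≤ 16 mu`.
Step 3. For every light `a` with `k/20 ≤ a ≤ k/2` and `2a` light such `x < y < a` exist (counting: for `y` there are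
 at least `k/20 - 2` candidates `1 ≤ y < a` and each of the conditions `y, a+y, a-y, 2y` light excludes at most `k/1000` of them;
 then the same for `x < y`, choosing `y ≥ k/40` for instance). So `|v a| ≤ 16 mu` for these `a`.
Step 4. `b ≤ k/2`: choose `x` with `k/20 ≤ x ≤ k/8`, `x, 2x` light, `b + x` light, and (`2(b+x)` light if `b + x ≤ k/2`, else
 `2(k-b-x)` light). Then `|v x| ≤ 16 mu`, `|v (b+x)| ≤ 18 mu` (or through `k-b-x`), `(b, x, k-b-x)` gives `|v b| ≤ 2 M b + 40 mu`.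
 `b > k/2`: use `k - b` and `hvs`. -/
theorem lemmaV (k : ℕ) (hk : 100000 ≤ k) (v M : ℕ → ℝ) (Cl : ℕ → Prop) (mu : ℝ) (hmu : 0 ≤ mu)
    (hM0 : ∀ a, 0 ≤ M a) (hMs : ∀ a ≤ k, M (k - a) = M a)
    (hCs : ∀ a ≤ k, Cl a → Cl (k - a))
    (hvs : ∀ a ≤ k, Cl a → |v (k - a) - v a| ≤ 2 * M a)
    (hv3 : ∀ a b c, a + b + c = k → Cl a → Cl b → Cl c → |v a + v b + v c| ≤ 2 * (M a + M b + M c))
    (Bd : Finset ℕ) (hBd : ∀ a ≤ k, a ∉ Bd → Cl a ∧ M a ≤ mu) (hcard : 1000 * Bd.card ≤ k)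
    (b : ℕ) (hb : b ≤ k) (hCb : Cl b) : |v b| ≤ 4 * M b + 40 * mu := by
  by_cases hb2 : 2 * b ≤ k
  · have h1 := P3_half k hk v M Cl mu hmu hMs hCs hvs hv3 Bd hBd hcard b hb2 hCb
    have h2 := hM0 b
    linarith
  · have h1 := P3_half k hk v M Cl mu hmu hMs hCs hvs hv3 Bd hBd hcard (k - b) (by omega)
      (hCs b hb hCb)
    rw [hMs b hb] at h1
    have h2 := hvs b hb hCb
    rw [abs_le] at *
    constructor <;> linarith [h1.1, h1.2, h2.1, h2.2]

end H24
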