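import Pool.Agent.Lib_MP_27c196_co.R.P2b
import Pool.Agent.Lib_MP_27c196_co.R.P3

/-! H24 R, piece P4: bound of `u` (blueprint R4) -/

set_option linter.unusedVariables false

noncomputable section

namespace H24

open Finset

variable {n : ℕ} {B : Finset (Fin 3 → ℕ)} {u : (Fin 3 → ℕ) → Fin 3 → ℝ} {δ C1 : ℝ}

/-- `lemmaV` applied to `vv n u`. -/
private theorem P4_vv_bound (hd : RData n B u δ C1) (hn : 100000 ≤ n) {mu : ℝ} (hmu : 0 ≤ mu)
    (Bd : Finset ℕ) (hBd : ∀ a ≤ n + 2, a ∉ Bd → Far n B 0 a ∧ M n u a ≤ mu)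
    (hcard : 1000 * Bd.card ≤ n + 2) {b : ℕ} (hb : b ≤ n + 2) (hc : Far n B 0 b) :
    |vv n u b| ≤ 4 * M n u b + 40 * mu := by
  refine lemmaV (n + 2) (by omega) (vv n u) (M n u) (fun a => Far n B 0 a) mu hmu
    (M_nonneg n u) (fun a ha => M_symm n u a ha) (fun a ha h => Far_symm n B 0 a ha h)
    (fun a ha h => v_symm hd h ha) ?_ Bd hBd hcard b hb hc
  intro a b c habc ha hb hc
  have hl : (![a, b, c] : Fin 3 → ℕ) ∈ Lam (n + 2) := by
    rw [mem_Lam]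
    simpa using habc
  have h := v_sum hd hl (by
    intro i
    fin_cases i
    · exact ha
    · exact hb
    · exact hc)
  simpa using h

/-- `lemmaV` with `v = vv n u`, `M = M n u`, `Cl = fun a => a ≤ n + 2 ∧ Far n B 0 a`; then
`|g_i (u l)| ≤ |v_(l i)| + 2 M_(l i) ≤ 6 M_(l i) + 40 mu` (`orbit_val`) and `sqrt_q_le`. -/
theorem u_bound (hd : RData n B u δ C1) (hn : 100000 ≤ n) {mu : ℝ} (hmu : 0 ≤ mu)
    (Bd : Finset ℕ) (hBd : ∀ a ≤ n + 2, a ∉ Bd → Far n B 0 a ∧ M n u a ≤ mu)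
    (hcard : 1000 * Bd.card ≤ n + 2) {l : Fin 3 → ℕ} (hl : l ∈ Lam (n + 2)) {i j : Fin 3} (hij : i ≠ j)
    (hi : Far n B 0 (l i)) (hj : Far n B 0 (l j)) :
    √(q (u l)) ≤ 6 * (M n u (l i) + M n u (l j)) + 80 * mu := by
  have hle : ∀ t, l t ≤ n + 2 := by
    have h := hl
    rw [mem_Lam] at h
    intro t
    fin_cases t <;> simp <;> omega
  have key : ∀ t, Far n B 0 (l t) → |g t (u l)| ≤ 6 * M n u (l t) + 40 * mu := by
    intro t ht
    have h1 := P4_vv_bound hd hn hmu Bd hBd hcard (hle t) ht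
    have h2 := orbit_val hd ht (hle t) t hl (Or.inl rfl)
    rw [abs_le] at h1 h2 ⊢
    constructor <;> linarith [h1.1, h1.2, h2.1, h2.2]
  have h3 := sqrt_q_le i j hij (u l) (hd.sum0 l)
  have h4 := key i hi
  have h5 := key j hj
  linarith

end H24
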