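import Pool.Agent.Lib_MP_27c196_co.R.P1
import Pool.Agent.Lib_MP_27c196_co.R.P5

/-! H24 R, piece P6: `SS + 6 WW = EE + O(Fc)` (blueprint R7) -/

set_option linter.unusedVariables false

noncomputable section

namespace H24

open Finset

variable {n r : ℕ} {B : Finset (Fin 3 → ℕ)} {u : (Fin 3 → ℕ) → Fin 3 → ℝ} {δ C1 : ℝ}

private lemma P6_near1 (l : Fin 3 → ℕ) (j : Fin 3) : Near 1 l (l - s j) := by
  intro t
  rw [abs_le]
  fin_cases j <;> fin_cases t <;> simp [s] <;> omega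

private lemma P6_near2 (l : Fin 3 → ℕ) (j : Fin 3) : Near 1 l (l - s (j + 1) - s (j + 2)) := by
  intro t
  rw [abs_le]
  fin_cases j <;> fin_cases t <;> simp [s] <;> omega

private lemma P6_near3 (l : Fin 3 → ℕ) (j : Fin 3) :
    Near 1 (l - s j) (l - s (j + 1) - s (j + 2)) := by
  intro t
  rw [abs_le]
  fin_cases j <;> fin_cases t <;> simp [s] <;> omega

private lemma P6_sum1 (l : Fin 3 → ℕ) (j : Fin 3) :
    (l - s j) 0 + (l - s j) 1 + (l - s j) 2 ≤ l 0 + l 1 + l 2 ∧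
      l 0 + l 1 + l 2 ≤ (l - s j) 0 + (l - s j) 1 + (l - s j) 2 + 2 := by
  fin_cases j <;> simp [s] <;> omega

private lemma P6_sum2 (l : Fin 3 → ℕ) (j : Fin 3) :
    (l - s (j + 1) - s (j + 2)) 0 + (l - s (j + 1) - s (j + 2)) 1 +
      (l - s (j + 1) - s (j + 2)) 2 ≤ l 0 + l 1 + l 2 ∧
      l 0 + l 1 + l 2 ≤ (l - s (j + 1) - s (j + 2)) 0 + (l - s (j + 1) - s (j + 2)) 1 +
        (l - s (j + 1) - s (j + 2)) 2 + 2 := by
  fin_cases j <;> simp [s] <;> omega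

private lemma P6_near_mono {x y : Fin 3 → ℕ} (h : Near 1 x y) : Near 2 x y :=
  fun i => (h i).trans (by norm_num)

/-- `1/r` on the collar, `0` elsewhere -/
private def P6_eps (r : ℕ) (B : Finset (Fin 3 → ℕ)) (l : Fin 3 → ℕ) : ℝ :=
  open Classical in if Collar r B l then 1 / (r : ℝ) else 0

private lemma P6_eps_nonneg (r : ℕ) (B : Finset (Fin 3 → ℕ)) (l : Fin 3 → ℕ) :
    0 ≤ P6_eps r B l := by
  unfold P6_eps
  split_ifs
  · positivity
  · exact le_rfl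

private lemma P6_same {l x : Fin 3 → ℕ} (hc : ¬ Collar r B l) (hx : Near 1 l x)
    (hs : x 0 + x 1 + x 2 ≤ l 0 + l 1 + l 2 ∧ l 0 + l 1 + l 2 ≤ x 0 + x 1 + x 2 + 2) :
    wt r B x = wt r B l := by
  by_contra h
  exact hc ⟨x, P6_near_mono hx, hs.1, hs.2, h⟩

private lemma P6_diff (hr : 0 < r) {l x : Fin 3 → ℕ} (hx : Near 1 l x)
    (hs : x 0 + x 1 + x 2 ≤ l 0 + l 1 + l 2 ∧ l 0 + l 1 + l 2 ≤ x 0 + x 1 + x 2 + 2) :
    |wt r B l - wt r B x| ≤ P6_eps r B l := by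
  unfold P6_eps
  split_ifs with h
  · have := wt_lip (B := B) hr hx
    simpa using this
  · rw [P6_same h hx hs]
    simp

private lemma P6_diff' (hr : 0 < r) {l x y : Fin 3 → ℕ} (hx : Near 1 l x)
    (hs : x 0 + x 1 + x 2 ≤ l 0 + l 1 + l 2 ∧ l 0 + l 1 + l 2 ≤ x 0 + x 1 + x 2 + 2)
    (hy : Near 1 l y)
    (hs' : y 0 + y 1 + y 2 ≤ l 0 + l 1 + l 2 ∧ l 0 + l 1 + l 2 ≤ y 0 + y 1 + y 2 + 2)
    (hxy : Near 1 x y) :
    |wt r B x - wt r B y| ≤ P6_eps r B l := by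
  unfold P6_eps
  split_ifs with h
  · have := wt_lip (B := B) hr hxy
    simpa using this
  · rw [P6_same h hx hs, P6_same h hy hs']
    simp

private lemma P6_three {e u0 u1 u2 d0 d1 d2 Q : ℝ} (he : 0 ≤ e) (hQ : 0 ≤ Q)
    (h0 : |u0| ≤ 1.2 * Q) (h1 : |u1| ≤ 1.2 * Q) (h2 : |u2| ≤ 1.2 * Q)
    (k0 : |d0| ≤ e) (k1 : |d1| ≤ e) (k2 : |d2| ≤ e) :
    |3 * (u0 * d0 + u1 * d1 + u2 * d2)| ≤ 12 * (e * Q) := by
  have a0 : |u0 * d0| ≤ 1.2 * Q * e := by
    rw [abs_mul]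
    exact mul_le_mul h0 k0 (abs_nonneg _) (by positivity)
  have a1 : |u1 * d1| ≤ 1.2 * Q * e := by
    rw [abs_mul]
    exact mul_le_mul h1 k1 (abs_nonneg _) (by positivity)
  have a2 : |u2 * d2| ≤ 1.2 * Q * e := by
    rw [abs_mul]
    exact mul_le_mul h2 k2 (abs_nonneg _) (by positivity)
  have hQe : 0 ≤ Q * e := mul_nonneg hQ he
  rw [abs_le] at *
  constructor <;> nlinarith

private def P6_T (r : ℕ) (B : Finset (Fin 3 → ℕ)) (u : (Fin 3 → ℕ) → Fin 3 → ℝ)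
    (l : Fin 3 → ℕ) : ℝ :=
  3 * ∑ j, u l j * ((if 1 ≤ l j then wt r B (l - s j) else 0) -
        (if 1 ≤ l (j + 1) ∧ 1 ≤ l (j + 2) then wt r B (l - s (j + 1) - s (j + 2)) else 0)) +
    6 * ∑ i, if l i = 0 then wt r B l * u l i else 0

private lemma P6_sumT (hd : RData n B u δ C1) :
    SS n u (wt r B) - EE n u (wt r B) + 6 * WW n u (wt r B) =
      ∑ l ∈ Lam (n + 2), P6_T r B u l := by
  rw [ident_B n u (wt r B) hd.sum0]
  unfold WW P6_T
  rw [Finset.sum_add_distrib, ← Finset.mul_sum, ← Finset.mul_sum, Finset.sum_comm (s := Lam (n + 2))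
    (f := fun l i => if l i = 0 then wt r B l * u l i else 0)]
  congr 2
  apply Finset.sum_congr rfl
  intro i _
  rw [Finset.sum_filter]

private lemma P6_corner (hd : RData n B u δ C1) {l : Fin 3 → ℕ} (hl : l ∈ Lam (n + 2)) (i : Fin 3)
    (h1 : l (i + 1) = 0) (h2 : l (i + 2) = 0) : l ∈ B := by
  have h := hd.corner i
  have e : lab (n + 2) i (n + 2) 0 = l := by
    rw [mem_Lam] at hl
    funext t
    fin_cases i <;> fin_cases t <;> simp [lab] at h1 h2 ⊢ <;> omega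
  rwa [e] at h

private lemma P6_near_r (hr : 20 ≤ r) {x y : Fin 3 → ℕ} (h : Near 1 x y) : Near r x y :=
  fun i => (h i).trans (by exact_mod_cast (by omega : 1 ≤ r))

private lemma P6_bound (hd : RData n B u δ C1) (hr : 20 ≤ r) {l : Fin 3 → ℕ}
    (hl : l ∈ Lam (n + 2)) : |P6_T r B u l| ≤ 12 * (P6_eps r B l * √(q (u l))) := by
  have hr0 : 0 < r := by omega
  have hs := hd.sum0 l
  have hQ : 0 ≤ √(q (u l)) := Real.sqrt_nonneg _
  have he := P6_eps_nonneg r B l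
  have hu0 := comp_le 0 (u l) hs
  have hu1 := comp_le 1 (u l) hs
  have hu2 := comp_le 2 (u l) hs
  have ha := fun j => P6_diff (B := B) hr0 (P6_near1 l j) (P6_sum1 l j)
  have hb := fun j => P6_diff (B := B) hr0 (P6_near2 l j) (P6_sum2 l j)
  have hab := fun j => P6_diff' (B := B) hr0 (P6_near1 l j) (P6_sum1 l j) (P6_near2 l j)
    (P6_sum2 l j) (P6_near3 l j)
  have hz : l ∈ B → wt r B l = 0 ∧ wt r B (l - s 0) = 0 ∧ wt r B (l - s 1) = 0 ∧
      wt r B (l - s 2) = 0 := by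
    intro hlB
    have h1 := fun j => wt_zero_near hlB hr0 (P6_near_r hr (P6_near1 l j))
    exact ⟨wt_zero_near hlB hr0 (fun i => by simp), h1 0, h1 1, h1 2⟩
  have hc0 := fun h1 h2 => hz (P6_corner hd hl 0 h1 h2)
  have hc1 := fun h1 h2 => hz (P6_corner hd hl 1 h1 h2)
  have hc2 := fun h1 h2 => hz (P6_corner hd hl 2 h1 h2)
  have hab0 := hab 0
  have hab1 := hab 1
  have hab2 := hab 2
  have hb0 := hb 0
  have hb1 := hb 1
  have hb2 := hb 2
  have ha0 := ha 0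
  have ha1 := ha 1
  have ha2 := ha 2
  clear ha hb hab hz
  rw [mem_Lam] at hl
  unfold P6_T
  simp only [Fin.sum_univ_three, fin3_11, fin3_12, fin3_21, fin3_22, zero_add] at *
  generalize wt r B l = w at *
  generalize wt r B (l - s 0) = a0 at *
  generalize wt r B (l - s 1) = a1 at *
  generalize wt r B (l - s 2) = a2 at *
  generalize wt r B (l - s 1 - s 2) = b0 at *
  generalize wt r B (l - s 2 - s 0) = b1 at *
  generalize wt r B (l - s 0 - s 1) = b2 at *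
  generalize P6_eps r B l = e at *
  generalize √(q (u l)) = Q at *
  generalize u l 0 = u0 at *
  generalize u l 1 = u1 at *
  generalize u l 2 = u2 at *
  have ha0' := ha0
  have ha1' := ha1
  have ha2' := ha2
  rw [abs_sub_comm] at ha0' ha1' ha2'
  have hz0 : 0 ≤ 12 * (e * Q) := by positivity
  by_cases h0 : l 0 = 0 <;> by_cases h1 : l 1 = 0 <;> by_cases h2 : l 2 = 0
  · omega
  · obtain ⟨k, k0, k1, k2⟩ := hc2 h0 h1
    have h2' : 1 ≤ l 2 := by omega
    simp [h0, h1, h2, h2', k, k2, hz0]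
  · obtain ⟨k, k0, k1, k2⟩ := hc1 h2 h0
    have h1' : 1 ≤ l 1 := by omega
    simp [h0, h1, h2, h1', k, k1, hz0]
  · have h1' : 1 ≤ l 1 := by omega
    have h2' : 1 ≤ l 2 := by omega
    refine le_of_eq_of_le (congrArg _ ?_) (P6_three he hQ hu0 hu1 hu2 hb0 ha1' ha2')
    simp [h0, h1, h2, h1', h2']
    linear_combination (3 * w) * hs
  · obtain ⟨k, k0, k1, k2⟩ := hc0 h1 h2
    have h0' : 1 ≤ l 0 := by omega
    simp [h0, h1, h2, h0', k, k0, hz0]
  · have h0' : 1 ≤ l 0 := by omega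
    have h2' : 1 ≤ l 2 := by omega
    refine le_of_eq_of_le (congrArg _ ?_) (P6_three he hQ hu0 hu1 hu2 ha0' hb1 ha2')
    simp [h0, h1, h2, h0', h2']
    linear_combination (3 * w) * hs
  · have h0' : 1 ≤ l 0 := by omega
    have h1' : 1 ≤ l 1 := by omega
    refine le_of_eq_of_le (congrArg _ ?_) (P6_three he hQ hu0 hu1 hu2 ha0' ha1' hb2)
    simp [h0, h1, h2, h0', h1']
    linear_combination (3 * w) * hs
  · have h0' : 1 ≤ l 0 := by omega
    have h1' : 1 ≤ l 1 := by omega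
    have h2' : 1 ≤ l 2 := by omega
    refine le_of_eq_of_le (congrArg _ ?_) (P6_three he hQ hu0 hu1 hu2 hab0 hab1 hab2)
    simp [h0, h1, h2, h0', h1', h2']

/-- From `ident_B`: `SS - EE + 6 WW = sum_l T(l)`, where for `l ∈ Lam (n+2)`, with `w = wt r B`,
`T(l) = 3 sum_j u_j(l) κ_j(l) + 6 w(l) sum_{i : l_i = 0} u_i(l)`, `κ_j` the coefficient in `ident_B`.
* `l` with all `l_j ≥ 1`: `κ_j = w(l - s_j) - w(l - s_(j+1) - s_(j+2))`, the two points are at max-norm distance 1 from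
 each other, so `|κ_j| ≤ 1/r`, and `κ_j = 0` for all `j` unless `Collar r B l`.
* exactly one `l_i = 0`: `T(l) = 3 [ (w(l) - w(l-s_(i+1)-s_(i+2))) u_i + (w(l-s_(i+1)) - w(l)) u_(i+1) + (w(l-s_(i+2)) - w(l)) u_(i+2) ]`
 (use `u_0+u_1+u_2 = 0`), each difference at most `1/r`, zero unless `Collar r B l`.
* two coordinates zero: `l` is a corner, in `B` (`hd.corner`), all the weights involved vanish (`wt_zero_near`), `T(l) = 0`.
In all cases `|T(l)| ≤ (3/r) * 3 * 1.2 * sqrt q(u l) ≤ (12/r) sqrt q(u l)` and `T(l) = 0` off the collar (`comp_le`). -/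
theorem SS_EE_WW (hd : RData n B u δ C1) (hr : 20 ≤ r) :
    |SS n u (wt r B) - EE n u (wt r B) + 6 * WW n u (wt r B)| ≤ 12 * Fc n r B u := by
  classical
  rw [P6_sumT hd]
  refine (Finset.abs_sum_le_sum_abs _ _).trans ?_
  refine (Finset.sum_le_sum fun l hl => P6_bound hd hr hl).trans ?_
  unfold Fc
  rw [Finset.mul_sum, Finset.mul_sum, Finset.sum_filter]
  refine Finset.sum_le_sum fun l _ => ?_
  unfold P6_eps
  split_ifs with h1
  · exact le_rfl
  · rw [zero_mul, mul_zero]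

end H24
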